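import Mathlib

/-!
# The algorithm

The points are given by a list `Q` of pairs of natural numbers and referred to by their indices.
-/

set_option autoImplicit false

namespace Pool.Agent.TH694.M3

/-- A triple of indices. -/
abbrev Trip := ℕ × ℕ × ℕ

/-- The index `v` belongs to the triple. -/
def tmem (v : ℕ) (t : Trip) : Prop := v = t.1 ∨ v = t.2.1 ∨ v = t.2.2

/-- The triple is contained in the set `P`. -/
def inside (t : Trip) (P : List ℕ) : Prop := t.1 ∈ P ∧ t.2.1 ∈ P ∧ t.2.2 ∈ P

/-- The triple touches the set `P`. -/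
def touch (t : Trip) (P : List ℕ) : Prop := t.1 ∈ P ∨ t.2.1 ∈ P ∨ t.2.2 ∈ P

/-- All (decreasing) triples of indices smaller than `m`. -/
def trips (m : ℕ) : List Trip :=
  (List.range m).flatMap fun i => (List.range m).flatMap fun j =>
    ((List.range m).filter fun k => decide (k < j ∧ j < i)).map fun k => (i, j, k)

/-- All sequences of length at most `k`. -/
def seqs {β : Type} (V : List β) : ℕ → List (List β)
  | 0 => [[]]
  | k + 1 => seqs V k ++ V.flatMap (fun v => (seqs V k).map (fun l => v :: l))

/-- The weight of a family of triples. -/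
def cw (w : Trip → ℕ) (S : List Trip) : ℕ := (S.map w).sum

/-- A family of smallest weight, as a list with at most one member. -/
def best (w : Trip → ℕ) (l : List (List Trip)) : List (List Trip) :=
  (l.filter fun S => decide (∀ S' ∈ l, cw w S ≤ cw w S')).take 1

/-- A key: a set of indices and a family of triples (those that cross the set). -/
abbrev Key := List ℕ × List Trip

/-- The set `K.1` is partitioned by the triples in `K.2`. -/
def Full (K : Key) : Prop :=
  ∀ v ∈ K.1, (∃ t ∈ K.2, tmem v t) ∧ ∀ t ∈ K.2, ∀ t' ∈ K.2, tmem v t → tmem v t' → t = t'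

/-- The key `K` can be combined from the keys `K₁` and `K₂`. -/
def Comb (K K₁ K₂ : Key) : Prop :=
  ((∀ v ∈ K₁.1, v ∈ K.1) ∧ (∀ v ∈ K₂.1, v ∈ K.1)) ∧
  ((∀ v ∈ K.1, v ∈ K₁.1 ∨ v ∈ K₂.1) ∧ (∀ v ∈ K₁.1, v ∉ K₂.1)) ∧
  ((∀ t ∈ K₁.2, touch t K₂.1 → t ∈ K₂.2) ∧ (∀ t ∈ K₂.2, touch t K₁.1 → t ∈ K₁.2)) ∧
  ((∀ t ∈ K₁.2, t ∈ K.2 ∨ inside t K.1) ∧ (∀ t ∈ K₂.2, t ∈ K.2 ∨ inside t K.1)) ∧
  (∀ t ∈ K.2, touch t K.1 → t ∈ K₁.2 ∨ t ∈ K₂.2)

open Classical in
/-- The initial value of a key. -/
noncomputable def base (K : Key) : List (List Trip) := if Full K then [[]] else []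

/-- An entry of the table. -/
abbrev Entry := Key × List (List Trip)

open Classical in
/-- The union of two partial solutions. -/
noncomputable def glue (T : List Trip) (P : List ℕ) (T₁ T₂ S₁ S₂ : List Trip) : List Trip :=
  T.filter fun t => decide (t ∈ S₁ ∨ t ∈ S₂ ∨ ((t ∈ T₁ ∨ t ∈ T₂) ∧ inside t P))

open Classical in
/-- All partial solutions for the key `K` combined from entries of the table. -/
noncomputable def combs (T : List Trip) (tab : List Entry) (K : Key) : List (List Trip) :=
  tab.flatMap fun e₁ => tab.flatMap fun e₂ =>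
    if Comb K e₁.1 e₂.1 then
      e₁.2.flatMap fun S₁ => e₂.2.map fun S₂ => glue T K.1 e₁.1.2 e₂.1.2 S₁ S₂
    else []

/-- One round. -/
noncomputable def stp (w : Trip → ℕ) (T : List Trip) (tab : List Entry) : List Entry :=
  tab.map fun e => (e.1, best w (e.2 ++ combs T tab e.1))

/-- The keys. -/
def keys (T : List Trip) (R : ℕ) (cells : List (List ℕ)) : List Key :=
  cells.flatMap fun P => (seqs T R).map fun S => (P, S)

/-- The initial table. -/
noncomputable def tab0 (T : List Trip) (R : ℕ) (cells : List (List ℕ)) : List Entry :=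
  (keys T R cells).map fun K => (K, base K)

/-- The table after `r` rounds. -/
noncomputable def tabr (w : Trip → ℕ) (T : List Trip) (R : ℕ) (cells : List (List ℕ)) (r : ℕ) :
    List Entry :=
  (stp w T)^[r] (tab0 T R cells)

/-- The cell of the index `v` in the grid with mesh sizes `gx`, `gy`; `X` is the list of positions. -/
def cellL (X : List (ℕ × ℕ)) (gx gy v : ℕ) : List ℕ :=
  (List.range X.length).filter fun u => decide
    ((X.getD u (0, 0)).1 / gx = (X.getD v (0, 0)).1 / gx ∧
      (X.getD u (0, 0)).2 / gy = (X.getD v (0, 0)).2 / gy)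

/-- All cells of all grids with mesh sizes at most `N`. -/
def cells (N : ℕ) (X : List (ℕ × ℕ)) : List (List ℕ) :=
  (List.range (N + 1)).flatMap fun gx => (List.range (N + 1)).flatMap fun gy =>
    (List.range X.length).map fun v => cellL X gx gy v

/-- All cells of the grid with mesh size `G` have a solution without crossing triples. -/
def okS (tab : List Entry) (X : List (ℕ × ℕ)) (G : ℕ) : Prop :=
  ∀ v ∈ List.range X.length, ∃ e ∈ tab, e.1 = (cellL X G G v, []) ∧ e.2 ≠ []

open Classical in
/-- The union of the solutions of the cells of the grid with mesh size `G`. -/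
noncomputable def outS (T : List Trip) (tab : List Entry) (X : List (ℕ × ℕ)) (G : ℕ) : List Trip :=
  T.filter fun t => decide
    (∃ v ∈ List.range X.length, ∃ e ∈ tab, e.1 = (cellL X G G v, []) ∧ ∃ S ∈ e.2, t ∈ S)

open Classical in
/-- The solutions found with the table `tab`. -/
noncomputable def outs (T : List Trip) (tab : List Entry) (N : ℕ) (X : List (ℕ × ℕ)) :
    List (List Trip) :=
  (List.range (N + 1)).flatMap fun G => if okS tab X G then [outS T tab X G] else []

/-- The solutions found by the dynamic programme for the positions `X`. -/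
noncomputable def dp (w : Trip → ℕ) (R N : ℕ) (X : List (ℕ × ℕ)) : List (List Trip) :=
  outs (trips X.length) (tabr w (trips X.length) R (cells N X) N) N X

/-- Distance of natural numbers. -/
def ad (a b : ℕ) : ℕ := (a - b) + (b - a)

/-- The distance of the points `i` and `j`, rounded down. -/
def dN (Q : List (ℕ × ℕ)) (i j : ℕ) : ℕ :=
  Nat.sqrt (ad (Q.getD i (0, 0)).1 (Q.getD j (0, 0)).1 * ad (Q.getD i (0, 0)).1 (Q.getD j (0, 0)).1 +
    ad (Q.getD i (0, 0)).2 (Q.getD j (0, 0)).2 * ad (Q.getD i (0, 0)).2 (Q.getD j (0, 0)).2)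

/-- The perimeter of a triple, approximately. -/
def wN (Q : List (ℕ × ℕ)) (t : Trip) : ℕ :=
  dN Q t.1 t.2.1 + dN Q t.2.1 t.2.2 + dN Q t.2.2 t.1

/-- The distance of the points `i` and `j` in the maximum norm. -/
def dMax (Q : List (ℕ × ℕ)) (i j : ℕ) : ℕ :=
  max (ad (Q.getD i (0, 0)).1 (Q.getD j (0, 0)).1) (ad (Q.getD i (0, 0)).2 (Q.getD j (0, 0)).2)

/-- The positions rounded to multiples of `h`, made distinct, and shifted by `(a, b)`. -/
def rnd (Q : List (ℕ × ℕ)) (h a b : ℕ) : List (ℕ × ℕ) :=
  (List.range Q.length).map fun v =>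
    (Q.length * ((Q.getD v (0, 0)).1 / h) + v + a, Q.length * ((Q.getD v (0, 0)).2 / h) + b)

/-- All solutions found. -/
noncomputable def cands (c R N : ℕ) (Q : List (ℕ × ℕ)) : List (List Trip) :=
  (List.range Q.length).flatMap fun i => (List.range Q.length).flatMap fun j =>
    (List.range N).flatMap fun a => (List.range N).flatMap fun b =>
      dp (wN Q) R N (rnd Q (dMax Q i j / (c * Q.length)) a b)

/-- The size of the grid. -/
def bigN (c m : ℕ) : ℕ := 16 * c * ((m + 1) * (m + 1) * (m + 1))

/-- The algorithm for points with coordinates in `ℕ`. -/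
noncomputable def solve (c R : ℕ) (Q : List (ℕ × ℕ)) : List Trip :=
  (best (wN Q) (cands c R (bigN c Q.length) Q)).flatten

end Pool.Agent.TH694.M3
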