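import Mathlib

/-!
# Partitions of a finite point set into triples: basic definitions
-/

set_option autoImplicit false

namespace Pool.Agent.TH694.M3

variable {V : Type}

/-- the perimeter of a triple -/
noncomputable def per (z : V → ℂ) (t : V × V × V) : ℝ :=
  ‖z t.1 - z t.2.1‖ + ‖z t.2.1 - z t.2.2‖ + ‖z t.2.2 - z t.1‖

/-- the three points of a triple -/
def pts (t : V × V × V) : Multiset V := {t.1} + {t.2.1} + {t.2.2}

/-- all points of a family of triples, with multiplicities -/
def supp (π : Multiset (V × V × V)) : Multiset V := (π.map pts).sum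

/-- total perimeter -/
noncomputable def cost (z : V → ℂ) (π : Multiset (V × V × V)) : ℝ := (π.map (per z)).sum

/-- the triples form a partition of the set of all points -/
def IsPart [Fintype V] (π : Multiset (V × V × V)) : Prop := supp π = Finset.univ.val

/-- an optimal partition -/
def IsOpt [Fintype V] (z : V → ℂ) (π : Multiset (V × V × V)) : Prop :=
  IsPart π ∧ ∀ π' : Multiset (V × V × V), IsPart π' → cost z π ≤ cost z π'

theorem mem_pts {t : V × V × V} {v : V} : v ∈ pts t ↔ v = t.1 ∨ v = t.2.1 ∨ v = t.2.2 := by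
  unfold pts
  simp only [Multiset.mem_add, Multiset.mem_singleton, or_assoc]

theorem per_nonneg (z : V → ℂ) (t : V × V × V) : 0 ≤ per z t := by
  unfold per; positivity

@[simp] theorem supp_zero : supp (0 : Multiset (V × V × V)) = 0 := rfl

@[simp] theorem supp_add (π π' : Multiset (V × V × V)) : supp (π + π') = supp π + supp π' := by
  simp [supp]

@[simp] theorem supp_cons (t : V × V × V) (π : Multiset (V × V × V)) :
    supp (t ::ₘ π) = pts t + supp π := by
  simp [supp]

@[simp] theorem cost_zero (z : V → ℂ) : cost z (0 : Multiset (V × V × V)) = 0 := rfl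

@[simp] theorem cost_add (z : V → ℂ) (π π' : Multiset (V × V × V)) :
    cost z (π + π') = cost z π + cost z π' := by
  simp [cost]

@[simp] theorem cost_cons (z : V → ℂ) (t : V × V × V) (π : Multiset (V × V × V)) :
    cost z (t ::ₘ π) = per z t + cost z π := by
  simp [cost]

/-- Exchange principle. -/
theorem IsOpt.exchange [Fintype V] {z : V → ℂ} {π π₀ : Multiset (V × V × V)} (h : IsOpt z π)
    {t₁ t₂ t₃ s₁ s₂ s₃ : V × V × V} (hπ : π = t₁ ::ₘ t₂ ::ₘ t₃ ::ₘ π₀)
    (hs : pts s₁ + pts s₂ + pts s₃ = pts t₁ + pts t₂ + pts t₃) :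
    per z t₁ + per z t₂ + per z t₃ ≤ per z s₁ + per z s₂ + per z s₃ := by
  have h1 : IsPart (s₁ ::ₘ s₂ ::ₘ s₃ ::ₘ π₀) := by
    have h2 := h.1
    unfold IsPart at h2 ⊢
    rw [← h2, hπ]
    simp only [supp_cons, ← add_assoc]
    rw [hs]
  have h2 := h.2 _ h1
  rw [hπ] at h2
  simp only [cost_cons] at h2
  linarith

end Pool.Agent.TH694.M3
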