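import Mathlib

/-!
# A binary hierarchy of dyadic cells and the Z-order
-/

set_option autoImplicit false

namespace Pool.Agent.TH694.M3

variable {V : Type}

/-- number of splittings of the first coordinate below level `j` -/
def al (D : ℕ → Bool) : ℕ → ℕ
  | 0 => 0
  | j + 1 => al D j + (if D j then 1 else 0)

/-- the splitting directions with the two coordinates exchanged -/
def fl (D : ℕ → Bool) : ℕ → Bool := fun j => !D j

theorem fl_fl (D : ℕ → Bool) : fl (fl D) = D := by
  funext j; simp [fl]

/-- the cell of `v` at level `j` -/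
def cell (D : ℕ → Bool) (x y : V → ℤ) (j : ℕ) (v : V) : ℤ × ℤ :=
  (x v / 2 ^ al D j, y v / 2 ^ al (fl D) j)

/-- which half of its cell at level `j + 1` contains `v` -/
def bit (D : ℕ → Bool) (x y : V → ℤ) (j : ℕ) (v : V) : ℤ :=
  if D j then (x v / 2 ^ al D j) % 2 else (y v / 2 ^ al (fl D) j) % 2

/-- the Z-order code of `v` in its cell at level `j` -/
def zcode (D : ℕ → Bool) (x y : V → ℤ) : ℕ → V → ℤ
  | 0, _ => 0
  | j + 1, v => zcode D x y j v + 2 ^ j * bit D x y j v

section
variable (D : ℕ → Bool) (x y : V → ℤ)

theorem bit_cases (j : ℕ) (v : V) : bit D x y j v = 0 ∨ bit D x y j v = 1 := by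
  unfold bit
  split_ifs
  · exact Int.emod_two_eq_zero_or_one _
  · exact Int.emod_two_eq_zero_or_one _

theorem bit_fl (j : ℕ) (v : V) : bit (fl D) y x j v = bit D x y j v := by
  unfold bit
  rw [fl_fl]
  by_cases h : D j = true
  · simp [fl, h]
  · simp [fl, h]

theorem cell_fl (j : ℕ) (v : V) : cell (fl D) y x j v = (cell D x y j v).swap := by
  unfold cell
  rw [fl_fl]
  rfl

theorem zcode_fl (j : ℕ) (v : V) : zcode (fl D) y x j v = zcode D x y j v := by
  induction j with
  | zero => rfl
  | succ j ih => rw [zcode, zcode, ih, bit_fl]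

theorem zcode_nonneg (j : ℕ) (v : V) : 0 ≤ zcode D x y j v := by
  induction j with
  | zero => exact le_rfl
  | succ j ih =>
    rw [zcode]
    rcases bit_cases D x y j v with h | h <;> rw [h]
    · simpa using ih
    · positivity

theorem zcode_lt (j : ℕ) (v : V) : zcode D x y j v < 2 ^ j := by
  induction j with
  | zero => simp [zcode]
  | succ j ih =>
    rw [zcode, pow_succ]
    rcases bit_cases D x y j v with h | h <;> rw [h]
    · have : (0 : ℤ) < 2 ^ j := by positivity
      linarith
    · linarith

/-- division by the next power of two -/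
theorem div_pow_succ (n : ℤ) (a : ℕ) : n / 2 ^ (a + 1) = n / 2 ^ a / 2 := by
  rw [pow_succ, Int.ediv_ediv_of_nonneg (by positivity)]

theorem al_succ_true {D : ℕ → Bool} {j : ℕ} (h : D j = true) :
    al D (j + 1) = al D j + 1 ∧ al (fl D) (j + 1) = al (fl D) j := by
  simp [al, fl, h]

theorem al_succ_false {D : ℕ → Bool} {j : ℕ} (h : D j = false) :
    al D (j + 1) = al D j ∧ al (fl D) (j + 1) = al (fl D) j + 1 := by
  simp [al, fl, h]

theorem cell_mono_succ {j : ℕ} {v w : V} (h : cell D x y j v = cell D x y j w) :
    cell D x y (j + 1) v = cell D x y (j + 1) w := by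
  unfold cell at h ⊢
  rw [Prod.mk.injEq] at h ⊢
  rcases Bool.eq_false_or_eq_true (D j) with h1 | h1
  · obtain ⟨h2, h3⟩ := al_succ_true h1
    rw [h2, h3, div_pow_succ, div_pow_succ, h.1, h.2]
    exact ⟨rfl, rfl⟩
  · obtain ⟨h2, h3⟩ := al_succ_false h1
    rw [h2, h3, div_pow_succ, div_pow_succ, h.1, h.2]
    exact ⟨rfl, rfl⟩

theorem cell_mono {i j : ℕ} (hij : i ≤ j) {v w : V} (h : cell D x y i v = cell D x y i w) :
    cell D x y j v = cell D x y j w := by
  induction hij with
  | refl => exact h
  | step _ ih => exact cell_mono_succ D x y ih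

theorem cell_succ_iff {j : ℕ} {v w : V} (h : cell D x y (j + 1) v = cell D x y (j + 1) w) :
    cell D x y j v = cell D x y j w ↔ bit D x y j v = bit D x y j w := by
  unfold cell at h ⊢
  unfold bit
  rw [Prod.mk.injEq] at h ⊢
  rcases Bool.eq_false_or_eq_true (D j) with h1 | h1
  · obtain ⟨h2, h3⟩ := al_succ_true h1
    rw [h2, h3, div_pow_succ, div_pow_succ] at h
    simp only [h1, if_true]
    constructor
    · rintro ⟨h4, -⟩; rw [h4]
    · intro h4
      refine ⟨?_, h.2⟩
      have h5 := h.1
      omega
  · obtain ⟨h2, h3⟩ := al_succ_false h1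
    rw [h2, h3, div_pow_succ, div_pow_succ] at h
    simp only [h1, Bool.false_eq_true, if_false]
    constructor
    · rintro ⟨-, h4⟩; rw [h4]
    · intro h4
      refine ⟨h.1, ?_⟩
      have h5 := h.2
      omega

/-- Cells at lower levels are intervals in the Z-order. -/
theorem cell_iff_zcode {i j : ℕ} (hij : i ≤ j) {v w : V} (h : cell D x y j v = cell D x y j w) :
    cell D x y i v = cell D x y i w ↔ zcode D x y j v / 2 ^ i = zcode D x y j w / 2 ^ i := by
  induction hij with
  | refl =>
    rw [Int.ediv_eq_zero_of_lt (zcode_nonneg D x y i v) (zcode_lt D x y i v),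
      Int.ediv_eq_zero_of_lt (zcode_nonneg D x y i w) (zcode_lt D x y i w)]
    exact ⟨fun _ => rfl, fun _ => h⟩
  | @step j hij ih =>
    have hij' : i ≤ j := hij
    have key : ∀ u : V, zcode D x y (j + 1) u / 2 ^ i =
        zcode D x y j u / 2 ^ i + 2 ^ (j - i) * bit D x y j u := by
      intro u
      rw [zcode]
      have h1 : (2 : ℤ) ^ j = 2 ^ i * 2 ^ (j - i) := by
        rw [← pow_add]; congr 1; omega
      rw [h1, mul_assoc, Int.add_mul_ediv_left _ _ (by positivity)]
    have hb : ∀ u : V, 0 ≤ zcode D x y j u / 2 ^ i ∧ zcode D x y j u / 2 ^ i < 2 ^ (j - i) := by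
      intro u
      refine ⟨Int.ediv_nonneg (zcode_nonneg D x y j u) (by positivity), ?_⟩
      rw [Int.ediv_lt_iff_lt_mul (by positivity), ← pow_add]
      have h1 : j - i + i = j := by omega
      rw [h1]
      exact zcode_lt D x y j u
    rw [key v, key w]
    constructor
    · intro h1
      have h2 := cell_mono D x y hij' h1
      rw [(ih h2).1 h1, (cell_succ_iff D x y h).1 h2]
    · intro h1
      have h2 : bit D x y j v = bit D x y j w ∧
          zcode D x y j v / 2 ^ i = zcode D x y j w / 2 ^ i := by
        have hv := hb v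
        have hw := hb w
        rcases bit_cases D x y j v with h3 | h3 <;> rcases bit_cases D x y j w with h4 | h4 <;>
          rw [h3, h4] at h1 ⊢
        · exact ⟨rfl, by linarith⟩
        · exfalso; linarith
        · exfalso; linarith
        · exact ⟨rfl, by linarith⟩
      exact (ih ((cell_succ_iff D x y h).2 h2.1)).2 h2.2

/-- bounds of the coordinates in a cell -/
theorem cell_abs {j : ℕ} {v w : V} (h : cell D x y j v = cell D x y j w) :
    |x v - x w| < 2 ^ al D j ∧ |y v - y w| < 2 ^ al (fl D) j := by
  unfold cell at h
  rw [Prod.mk.injEq] at h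
  have key : ∀ (a b : ℤ) (n : ℕ), a / 2 ^ n = b / 2 ^ n → |a - b| < 2 ^ n := by
    intro a b n h
    have h0 : (0 : ℤ) < 2 ^ n := by positivity
    have h1 := Int.emod_add_mul_ediv a (2 ^ n)
    have h2 := Int.emod_add_mul_ediv b (2 ^ n)
    have h3 := Int.emod_nonneg a h0.ne'
    have h4 := Int.emod_nonneg b h0.ne'
    have h5 := Int.emod_lt_of_pos a h0
    have h6 := Int.emod_lt_of_pos b h0
    rw [h] at h1
    rw [abs_lt]
    constructor <;> linarith
  exact ⟨key _ _ _ h.1, key _ _ _ h.2⟩

end

/-- In the Z-order inversions of the second coordinate are bounded by the distance to a vertical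
line outside the cell. -/
theorem zorder_inv (D : ℕ → Bool) (x y : V → ℤ) (hD : ∀ j, al (fl D) j ≤ al D j + 1) (p : ℤ) :
    ∀ (j : ℕ) (v w : V), cell D x y j v = cell D x y j w →
      zcode D x y j v ≤ zcode D x y j w →
      (p ≤ 2 ^ al D j * (x v / 2 ^ al D j) ∨ 2 ^ al D j * (x v / 2 ^ al D j + 1) ≤ p) →
      y v - y w ≤ 2 * (|x v - p| + |x w - p|) := by
  intro j
  induction j with
  | zero =>
    intro v w h _ _
    unfold cell at h
    rw [Prod.mk.injEq] at h
    have h1 : y v = y w := by simpa [al] using h.2
    rw [h1, sub_self]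
    positivity
  | succ j ih =>
    intro v w h hz hp
    by_cases hj : cell D x y j v = cell D x y j w
    · apply ih v w hj
      · have h1 := (cell_succ_iff D x y h).1 hj
        rw [zcode, zcode, h1] at hz
        linarith
      · rcases Bool.eq_false_or_eq_true (D j) with h1 | h1
        · obtain ⟨h2, h3⟩ := al_succ_true h1
          rw [h2, div_pow_succ] at hp
          have h0 : (0 : ℤ) < 2 ^ al D j := by positivity
          generalize x v / 2 ^ al D j = q at *
          rw [pow_succ] at hp
          have h4 : 2 * (q / 2) ≤ q := by omega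
          have h5 : q + 1 ≤ 2 * (q / 2 + 1) := by omega
          rcases hp with hp | hp
          · left
            calc p ≤ 2 ^ al D j * 2 * (q / 2) := hp
              _ = 2 ^ al D j * (2 * (q / 2)) := by ring
              _ ≤ _ := mul_le_mul_of_nonneg_left h4 h0.le
          · right
            calc 2 ^ al D j * (q + 1) ≤ 2 ^ al D j * (2 * (q / 2 + 1)) :=
                  mul_le_mul_of_nonneg_left h5 h0.le
              _ = 2 ^ al D j * 2 * (q / 2 + 1) := by ring
              _ ≤ p := hp
        · obtain ⟨h2, h3⟩ := al_succ_false h1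
          rw [h2] at hp
          exact hp
    · have hb : bit D x y j v = 0 ∧ bit D x y j w = 1 := by
        have h1 : bit D x y j v ≠ bit D x y j w := fun h2 => hj ((cell_succ_iff D x y h).2 h2)
        rw [zcode, zcode] at hz
        have h2 := zcode_nonneg D x y j v
        have h3 := zcode_lt D x y j w
        rcases bit_cases D x y j v with h4 | h4 <;> rcases bit_cases D x y j w with h5 | h5 <;>
          rw [h4, h5] at h1 hz ⊢
        · exact absurd rfl h1
        · exact ⟨rfl, rfl⟩
        · exfalso
          linarith
        · exact absurd rfl h1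
      unfold bit at hb
      rcases Bool.eq_false_or_eq_true (D j) with h1 | h1
      · -- vertical splitting
        obtain ⟨h2, h3⟩ := al_succ_true h1
        simp only [h1, if_true] at hb
        have hy := (cell_abs D x y h).2
        rw [h3] at hy
        have hc := h
        unfold cell at hc
        rw [Prod.mk.injEq, h2, div_pow_succ, div_pow_succ] at hc
        have hc1 := hc.1
        rw [h2, div_pow_succ, pow_succ] at hp
        have h0 : (0 : ℤ) < 2 ^ al D j := by positivity
        have hv1 := Int.emod_add_mul_ediv (x v) (2 ^ al D j)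
        have hw1 := Int.emod_add_mul_ediv (x w) (2 ^ al D j)
        have hv2 := Int.emod_nonneg (x v) h0.ne'
        have hw2 := Int.emod_nonneg (x w) h0.ne'
        have hv3 := Int.emod_lt_of_pos (x v) h0
        have hw3 := Int.emod_lt_of_pos (x w) h0
        have hβ : (2 : ℤ) ^ al (fl D) j ≤ 2 * 2 ^ al D j := by
          have := hD j
          calc (2 : ℤ) ^ al (fl D) j ≤ 2 ^ (al D j + 1) := pow_le_pow_right₀ (by norm_num) this
            _ = 2 * 2 ^ al D j := by rw [pow_succ]; ring
        have hyy := (abs_lt.1 hy).2
        generalize x v / 2 ^ al D j = q at *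
        generalize x w / 2 ^ al D j = q' at *
        generalize (2 : ℤ) ^ al D j = g at *
        have e1 : q = 2 * (q / 2) := by omega
        have e2 : q' = 2 * (q / 2) + 1 := by omega
        generalize q / 2 = r at *
        subst e1
        subst e2
        rcases hp with hp | hp
        · -- p is to the left
          have h6 : p ≤ x w - g := by linarith
          have h7 : g ≤ |x w - p| := by
            rw [abs_of_nonneg (by linarith)]; linarith
          have h8 := abs_nonneg (x v - p)
          linarith
        · have h6 : x v + g ≤ p := by linarith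
          have h7 : g ≤ |x v - p| := by
            rw [abs_sub_comm, abs_of_nonneg (by linarith)]; linarith
          have h8 := abs_nonneg (x w - p)
          linarith
      · -- horizontal splitting
        obtain ⟨h2, h3⟩ := al_succ_false h1
        simp only [h1, Bool.false_eq_true, if_false] at hb
        have hc := h
        unfold cell at hc
        rw [Prod.mk.injEq, h3, div_pow_succ, div_pow_succ] at hc
        have hc2 := hc.2
        have h4 : y v / 2 ^ al (fl D) j < y w / 2 ^ al (fl D) j := by omega
        have h5 : y v ≤ y w := by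
          by_contra hcon
          push Not at hcon
          have := Int.ediv_le_ediv (c := 2 ^ al (fl D) j) (by positivity) hcon.le
          omega
        have h8 := abs_nonneg (x v - p)
        have h9 := abs_nonneg (x w - p)
        linarith

end Pool.Agent.TH694.M3
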