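import Pool.Agent.TH694.M3.Basic
import Pool.Agent.TH694.M3.Grid

/-!
# Grouping the points of a sorted list into consecutive triples
-/

set_option autoImplicit false

namespace Pool.Agent.TH694.M3

variable {V : Type}

/-- consecutive triples of a list -/
def chunk3 : List V → List (V × V × V)
  | a :: b :: c :: l => (a, b, c) :: chunk3 l
  | [] => []
  | [_] => []
  | [_, _] => []

theorem supp_chunk3 : ∀ (L : List V), 3 ∣ L.length → supp (↑(chunk3 L)) = (↑L : Multiset V)
  | a :: b :: c :: l, h => by
    have h1 : 3 ∣ l.length := by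
      simp only [List.length_cons] at h
      omega
    rw [chunk3, ← Multiset.cons_coe, supp_cons, supp_chunk3 l h1]
    unfold pts
    simp only [← Multiset.cons_coe, ← Multiset.singleton_add]
    abel
  | [], _ => rfl
  | [_], h => by simp at h
  | [_, _], h => by simp at h

/-- the length of the path through the points of a list -/
noncomputable def path (z : V → ℂ) : List V → ℝ
  | a :: b :: l => ‖z a - z b‖ + path z (b :: l)
  | [] => 0
  | [_] => 0

theorem path_nonneg (z : V → ℂ) : ∀ l : List V, 0 ≤ path z l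
  | a :: b :: l => by
    rw [path]
    have := path_nonneg z (b :: l)
    positivity
  | [] => le_rfl
  | [_] => le_rfl

theorem path_tail_le (z : V → ℂ) (a : V) : ∀ l : List V, path z l ≤ path z (a :: l)
  | [] => by simp [path]
  | b :: l => by
    rw [path]
    have := norm_nonneg (z a - z b)
    linarith

theorem cost_chunk3_le (z : V → ℂ) : ∀ L : List V, cost z ↑(chunk3 L) ≤ 2 * path z L
  | a :: b :: c :: l => by
    rw [chunk3, ← Multiset.cons_coe, cost_cons]
    have h1 := cost_chunk3_le z l
    have h2 := path_tail_le z c l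
    rw [path, path]
    have h3 : per z (a, b, c) ≤ 2 * (‖z a - z b‖ + ‖z b - z c‖) := by
      unfold per
      have h4 : ‖z c - z a‖ ≤ ‖z a - z b‖ + ‖z b - z c‖ := by
        rw [norm_sub_rev (z c) (z a)]
        exact norm_sub_le_norm_sub_add_norm_sub _ _ _
      simp only
      linarith
    linarith
  | [] => by simp [chunk3, cost, path]
  | [_] => by simp [chunk3, cost, path]
  | [a, b] => by
    simp only [chunk3, cost, path]
    simp

/-- The path bound. -/
theorem path_le_aux (z : V → ℂ) (Φ δ : V → ℝ) (C : ℝ) : ∀ (a : V) (l : List V),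
    (a :: l).Pairwise (fun v w => ‖z v - z w‖ ≤ Φ w - Φ v + C * (δ v + δ w)) →
    ∃ b ∈ a :: l, path z (a :: l) ≤ Φ b - Φ a + C * δ a + 2 * C * (l.map δ).sum - (C * δ b)
  | a, [], _ => ⟨a, by simp, by simp [path]⟩
  | a, b :: l, h => by
    rw [List.pairwise_cons] at h
    obtain ⟨d, hd, hp⟩ := path_le_aux z Φ δ C b l h.2
    refine ⟨d, List.mem_cons_of_mem _ hd, ?_⟩
    rw [path, List.map_cons, List.sum_cons]
    have h1 := h.1 b (by simp)
    nlinarith

theorem path_le (z : V → ℂ) (Φ δ : V → ℝ) (C B : ℝ) (hC : 0 ≤ C) (hB : 0 ≤ B) (L : List V)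
    (hδ : ∀ v ∈ L, 0 ≤ δ v)
    (h : L.Pairwise (fun v w => ‖z v - z w‖ ≤ Φ w - Φ v + C * (δ v + δ w)))
    (hΦ : ∀ v ∈ L, ∀ w ∈ L, Φ w - Φ v ≤ B) :
    path z L ≤ B + 2 * C * (L.map δ).sum := by
  cases L with
  | nil => simpa [path] using hB
  | cons a l =>
    obtain ⟨b, hb, hp⟩ := path_le_aux z Φ δ C a l h
    have h1 := hΦ a (by simp) b hb
    have h2 := mul_nonneg hC (hδ a (by simp))
    have h3 := mul_nonneg hC (hδ b hb)
    rw [List.map_cons, List.sum_cons]
    linarith

theorem chunk3_mem : ∀ (L : List V) (t : V × V × V), t ∈ chunk3 L →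
    t.1 ∈ L ∧ t.2.1 ∈ L ∧ t.2.2 ∈ L
  | a :: b :: c :: l, t, h => by
    rw [chunk3, List.mem_cons] at h
    rcases h with rfl | h
    · simp
    · obtain ⟨h1, h2, h3⟩ := chunk3_mem l t h
      simp [h1, h2, h3]
  | [], t, h => by simp [chunk3] at h
  | [_], t, h => by simp [chunk3] at h
  | [_, _], t, h => by simp [chunk3] at h

/-- At most one of the consecutive triples of a sorted list contains a given jump. -/
theorem chunk3_jump (g : V → ℤ) (q : ℤ) : ∀ (L : List V), L.Pairwise (fun v w => g v ≤ g w) →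
    (chunk3 L).countP (fun t => decide (g t.1 < q ∧ q ≤ g t.2.2)) ≤ 1
  | a :: b :: c :: l, h => by
    rw [chunk3, List.countP_cons]
    have hl : l.Pairwise (fun v w => g v ≤ g w) := h.tail.tail.tail
    by_cases h1 : g a < q ∧ q ≤ g c
    · have h2 : (chunk3 l).countP (fun t => decide (g t.1 < q ∧ q ≤ g t.2.2)) = 0 := by
        rw [List.countP_eq_zero]
        intro t ht
        have h3 := (chunk3_mem l t ht).1
        have h4 : g c ≤ g t.1 := by
          have h5 := h.tail.tail
          simp only [List.tail_cons] at h5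
          exact (List.pairwise_cons.1 h5).1 _ h3
        rw [decide_eq_true_eq]
        intro h6
        linarith [h1.2, h6.1]
      rw [h2]
      split_ifs <;> omega
    · have h2 := chunk3_jump g q l hl
      have h3 : ¬ (decide (g (a, b, c).1 < q ∧ q ≤ g (a, b, c).2.2) = true) := by
        simpa using h1
      rw [if_neg h3]
      omega
  | [], _ => by simp [chunk3]
  | [_], _ => by simp [chunk3]
  | [_, _], _ => by simp [chunk3]

theorem chunk3_sorted (g : V → ℤ) : ∀ (L : List V), L.Pairwise (fun v w => g v ≤ g w) →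
    ∀ t ∈ chunk3 L, g t.1 ≤ g t.2.1 ∧ g t.2.1 ≤ g t.2.2
  | a :: b :: c :: l, h, t, ht => by
    rw [chunk3, List.mem_cons] at ht
    rcases ht with rfl | ht
    · rw [List.pairwise_cons, List.pairwise_cons] at h
      exact ⟨h.1 b (by simp), h.2.1 c (by simp)⟩
    · exact chunk3_sorted g l h.tail.tail.tail t ht
  | [], _, t, ht => by simp [chunk3] at ht
  | [_], _, t, ht => by simp [chunk3] at ht
  | [_, _], _, t, ht => by simp [chunk3] at ht

/-- At most two of the consecutive triples of a sorted list cross a level set. -/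
theorem chunk3_cross (g : V → ℤ) (q : ℤ) (L : List V) (hL : L.Pairwise (fun v w => g v ≤ g w)) :
    (chunk3 L).countP (fun t => decide ((g t.1 = q ∨ g t.2.1 = q ∨ g t.2.2 = q) ∧
      ¬ (g t.1 = q ∧ g t.2.1 = q ∧ g t.2.2 = q))) ≤ 2 := by
  have h1 := chunk3_jump g q L hL
  have h2 := chunk3_jump g (q + 1) L hL
  have h3 : (chunk3 L).countP (fun t => decide ((g t.1 = q ∨ g t.2.1 = q ∨ g t.2.2 = q) ∧
      ¬ (g t.1 = q ∧ g t.2.1 = q ∧ g t.2.2 = q))) ≤
      (chunk3 L).countP (fun t => decide (g t.1 < q ∧ q ≤ g t.2.2)) +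
      (chunk3 L).countP (fun t => decide (g t.1 < q + 1 ∧ q + 1 ≤ g t.2.2)) := by
    have key : ∀ l : List (V × V × V), (∀ t ∈ l, g t.1 ≤ g t.2.1 ∧ g t.2.1 ≤ g t.2.2) →
      l.countP (fun t => decide ((g t.1 = q ∨ g t.2.1 = q ∨ g t.2.2 = q) ∧
      ¬ (g t.1 = q ∧ g t.2.1 = q ∧ g t.2.2 = q))) ≤
      l.countP (fun t => decide (g t.1 < q ∧ q ≤ g t.2.2)) +
      l.countP (fun t => decide (g t.1 < q + 1 ∧ q + 1 ≤ g t.2.2)) := by
      intro l
      induction l with
      | nil => intro _; simp
      | cons a l ih =>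
        intro h
        have ih' := ih (fun t ht => h t (List.mem_cons_of_mem _ ht))
        have ha := h a (by simp)
        rw [List.countP_cons, List.countP_cons, List.countP_cons]
        by_cases hc : (g a.1 = q ∨ g a.2.1 = q ∨ g a.2.2 = q) ∧
          ¬ (g a.1 = q ∧ g a.2.1 = q ∧ g a.2.2 = q)
        · have h4 : (g a.1 < q ∧ q ≤ g a.2.2) ∨ (g a.1 < q + 1 ∧ q + 1 ≤ g a.2.2) := by
            omega
          rcases h4 with h4 | h4
          · have h5 : decide (g a.1 < q ∧ q ≤ g a.2.2) = true := decide_eq_true h4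
            rw [if_pos h5]
            split_ifs <;> omega
          · have h5 : decide (g a.1 < q + 1 ∧ q + 1 ≤ g a.2.2) = true := decide_eq_true h4
            rw [if_pos h5]
            split_ifs <;> omega
        · have h5 : ¬ (decide ((g a.1 = q ∨ g a.2.1 = q ∨ g a.2.2 = q) ∧
            ¬ (g a.1 = q ∧ g a.2.1 = q ∧ g a.2.2 = q)) = true) := by
            rw [decide_eq_true_eq]; exact hc
          rw [if_neg h5]
          omega
    exact key _ (chunk3_sorted g L hL)
  omega

/-- the positions as complex numbers -/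
noncomputable def zz (x y : V → ℤ) (v : V) : ℂ := ⟨x v, y v⟩

theorem norm_zz_le (x y : V → ℤ) (v w : V) :
    ‖zz x y v - zz x y w‖ ≤ |(x v : ℝ) - x w| + |(y v : ℝ) - y w| := by
  have h := Complex.norm_le_abs_re_add_abs_im (zz x y v - zz x y w)
  simpa [zz] using h

theorem abs_x_le (x y : V → ℤ) (v w : V) : |(x v : ℝ) - x w| ≤ ‖zz x y v - zz x y w‖ := by
  have h := Complex.abs_re_le_norm (zz x y v - zz x y w)
  simpa [zz] using h

theorem abs_y_le (x y : V → ℤ) (v w : V) : |(y v : ℝ) - y w| ≤ ‖zz x y v - zz x y w‖ := by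
  have h := Complex.abs_im_le_norm (zz x y v - zz x y w)
  simpa [zz] using h

theorem norm_zz_swap (x y : V → ℤ) (v w : V) :
    ‖zz y x v - zz y x w‖ = ‖zz x y v - zz x y w‖ := by
  rw [Complex.norm_def, Complex.norm_def]
  congr 1
  simp only [Complex.normSq_apply, zz, Complex.sub_re, Complex.sub_im]
  ring

theorem per_swap (x y : V → ℤ) (t : V × V × V) : per (zz y x) t = per (zz x y) t := by
  unfold per
  rw [norm_zz_swap x y, norm_zz_swap x y, norm_zz_swap x y]

theorem cost_swap (x y : V → ℤ) (π : Multiset (V × V × V)) : cost (zz y x) π = cost (zz x y) π := by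
  unfold cost
  congr 1
  exact Multiset.map_congr rfl fun t _ => per_swap x y t

theorem norm_zz_shift (x y : V → ℤ) (a b : ℤ) (v w : V) :
    ‖zz (fun v => x v + a) (fun v => y v + b) v - zz (fun v => x v + a) (fun v => y v + b) w‖ =
      ‖zz x y v - zz x y w‖ := by
  congr 1
  apply Complex.ext
  · simp [zz]
  · simp [zz]

theorem per_shift (x y : V → ℤ) (a b : ℤ) (t : V × V × V) :
    per (zz (fun v => x v + a) (fun v => y v + b)) t = per (zz x y) t := by
  unfold per
  rw [norm_zz_shift, norm_zz_shift, norm_zz_shift]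

theorem cost_shift (x y : V → ℤ) (a b : ℤ) (π : Multiset (V × V × V)) :
    cost (zz (fun v => x v + a) (fun v => y v + b)) π = cost (zz x y) π := by
  unfold cost
  congr 1
  exact Multiset.map_congr rfl fun t _ => per_shift x y a b t

/-- Regrouping the points near a vertical line which splits their common cell. -/
theorem regroup (D : ℕ → Bool) (x y : V → ℤ) (hD : ∀ j, al (fl D) j ≤ al D j + 1) (j : ℕ)
    (hj : D j = true) (κ : ℤ × ℤ) (L : List V) (hL : ∀ v ∈ L, cell D x y (j + 1) v = κ)
    (hs : L.Pairwise (fun v w => zcode D x y (j + 1) v ≤ zcode D x y (j + 1) w))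
    (Δ : ℝ) (hΔ0 : 0 ≤ Δ) (hΔ : ∀ v ∈ L, ∀ w ∈ L, (y v : ℝ) - y w ≤ Δ) :
    cost (zz x y) ↑(chunk3 L) ≤ 6 * Δ + 20 *
      (L.map (fun v => |(x v : ℝ) - (2 ^ al D j * (2 * κ.1 + 1) : ℤ)|)).sum := by
  set p : ℤ := 2 ^ al D j * (2 * κ.1 + 1) with hp
  refine (cost_chunk3_le _ L).trans ?_
  have h1 : path (zz x y) L ≤ 3 * Δ + 2 * 5 * (L.map (fun v => |(x v : ℝ) - (p : ℤ)|)).sum := by
    apply path_le (zz x y) (fun v => (y v : ℝ) + 2 * Δ * (bit D x y j v : ℤ))
      (fun v => |(x v : ℝ) - (p : ℤ)|) 5 (3 * Δ) (by norm_num) (by positivity) L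
      (fun v _ => abs_nonneg _)
    · rw [List.pairwise_iff_forall_sublist] at hs ⊢
      intro v w hvw
      have hv : v ∈ L := hvw.subset (by simp)
      have hw : w ∈ L := hvw.subset (by simp)
      have hz := hs hvw
      have hc : cell D x y (j + 1) v = cell D x y (j + 1) w := (hL v hv).trans (hL w hw).symm
      have hn := norm_zz_le x y v w
      have hx : |(x v : ℝ) - x w| ≤ |(x v : ℝ) - p| + |(x w : ℝ) - p| := by
        rw [abs_sub_comm (x w : ℝ) p]
        exact abs_sub_le _ _ _
      by_cases hb : bit D x y j v = bit D x y j w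
      · have hcj := (cell_succ_iff D x y hc).2 hb
        have hzj : zcode D x y j v ≤ zcode D x y j w := by
          rw [zcode, zcode, hb] at hz
          linarith
        have hout : p ≤ 2 ^ al D j * (x v / 2 ^ al D j) ∨
            2 ^ al D j * (x v / 2 ^ al D j + 1) ≤ p := by
          have h2 := hL v hv
          unfold cell at h2
          obtain ⟨h3, h4⟩ := al_succ_true hj
          rw [h3, div_pow_succ] at h2
          have h5 : x v / 2 ^ al D j / 2 = κ.1 := by rw [← h2]
          have h0 : (0 : ℤ) ≤ 2 ^ al D j := by positivity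
          rw [hp]
          have h6 : 2 * κ.1 + 1 ≤ x v / 2 ^ al D j ∨ x v / 2 ^ al D j + 1 ≤ 2 * κ.1 + 1 := by
            omega
          rcases h6 with h6 | h6
          · left; exact mul_le_mul_of_nonneg_left h6 h0
          · right; exact mul_le_mul_of_nonneg_left h6 h0
        have h2 := zorder_inv D x y hD p j v w hcj hzj hout
        have h3 : (y v : ℝ) - y w ≤ 2 * (|(x v : ℝ) - p| + |(x w : ℝ) - p|) := by
          exact_mod_cast h2
        have h4 : |(y v : ℝ) - y w| ≤ (y w - y v) +
            2 * (2 * (|(x v : ℝ) - p| + |(x w : ℝ) - p|)) := by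
          have h5 := abs_nonneg ((x v : ℝ) - p)
          have h6 := abs_nonneg ((x w : ℝ) - p)
          rw [abs_le]
          constructor <;> linarith
        simp only [hb]
        linarith
      · have hb' : bit D x y j v = 0 ∧ bit D x y j w = 1 := by
          rw [zcode, zcode] at hz
          have h2 := zcode_nonneg D x y j v
          have h3 := zcode_lt D x y j w
          rcases bit_cases D x y j v with h4 | h4 <;> rcases bit_cases D x y j w with h5 | h5 <;>
            rw [h4, h5] at hb hz ⊢
          · exact absurd rfl hb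
          · exact ⟨rfl, rfl⟩
          · exfalso
            linarith
          · exact absurd rfl hb
        simp only [hb'.1, hb'.2, Int.cast_zero, Int.cast_one]
        have h4 := hΔ v hv w hw
        have h5 := hΔ w hw v hv
        have h6 : |(y v : ℝ) - y w| ≤ Δ := by
          rw [abs_le]; constructor <;> linarith
        have h7 := abs_nonneg ((x v : ℝ) - p)
        have h8 := abs_nonneg ((x w : ℝ) - p)
        linarith
    · intro v hv w hw
      have h4 := hΔ w hw v hv
      have h5 : 2 * Δ * (bit D x y j w : ℤ) ≤ 2 * Δ := by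
        rcases bit_cases D x y j w with h | h <;> rw [h] <;> simp; linarith
      have h6 : 0 ≤ 2 * Δ * (bit D x y j v : ℤ) := by
        rcases bit_cases D x y j v with h | h <;> rw [h] <;> simp; linarith
      linarith
  linarith

end Pool.Agent.TH694.M3
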