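import Pool.Agent.TH817.J610

/-!
# Gaps of sorted lists
-/

set_option autoImplicit false

namespace Pool.Agent.TH694.M3

theorem gapSum_nil (P : ℤ → Prop) : gapSum P [] = 0 := by
  unfold gapSum; rfl

theorem gapSum_single (P : ℤ → Prop) (a : ℤ) : gapSum P [a] = 0 := by
  unfold gapSum; rfl

open Classical in
/-- The spans of groups of consecutive members of a sorted list are bounded by the gaps. -/
theorem gap_span (P : ℤ → Prop) (f : ℤ → ℤ) (hf : Monotone f) : ∀ (l : List ℤ),
    l.Pairwise (· ≤ ·) → ∀ (Q : Finset ℤ) (lo hi : ℤ → ℤ),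
    (∀ q ∈ Q, (lo q ∈ l ∧ f (lo q) = q) ∧ (hi q ∈ l ∧ f (hi q) = q)) →
    (∀ a ∈ l, ∀ b ∈ l, a ≤ b → f a = f b → P (b - a) ∨ a = b) →
    ∑ q ∈ Q, (hi q - lo q) ≤ gapSum P l
  | [], _, Q, lo, hi, hQ, _ => by
    have : Q = ∅ := by
      rw [Finset.eq_empty_iff_forall_notMem]
      intro q hq
      have := (hQ q hq).1.1
      simp at this
    rw [this, gapSum_nil]
    simp
  | [a], _, Q, lo, hi, hQ, _ => by
    rw [gapSum_single]
    apply Finset.sum_nonpos
    intro q hq
    obtain ⟨⟨h1, -⟩, ⟨h2, -⟩⟩ := hQ q hq
    rw [List.mem_singleton] at h1 h2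
    rw [h1, h2, sub_self]
  | a :: b :: l, hs, Q, lo, hi, hQ, hP => by
    have hab : a ≤ b := (List.pairwise_cons.1 hs).1 b (by simp)
    have hmin : ∀ c ∈ b :: l, a ≤ c := (List.pairwise_cons.1 hs).1
    have hmin' : ∀ c ∈ b :: l, b ≤ c := by
      intro c hc
      rcases List.mem_cons.1 hc with rfl | hc
      · exact le_rfl
      · exact (List.pairwise_cons.1 (List.pairwise_cons.1 hs).2).1 c hc
    have hs' : (b :: l).Pairwise (· ≤ ·) := (List.pairwise_cons.1 hs).2
    have hP' : ∀ a ∈ b :: l, ∀ c ∈ b :: l, a ≤ c → f a = f c → P (c - a) ∨ a = c :=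
      fun a ha c hc => hP a (List.mem_cons_of_mem _ ha) c (List.mem_cons_of_mem _ hc)
    have hmem : ∀ q ∈ Q, q ≠ f a → (lo q ∈ b :: l ∧ f (lo q) = q) ∧ (hi q ∈ b :: l ∧ f (hi q) = q) := by
      intro q hq hne
      obtain ⟨⟨h1, h2⟩, ⟨h3, h4⟩⟩ := hQ q hq
      refine ⟨⟨?_, h2⟩, ⟨?_, h4⟩⟩
      · rcases List.mem_cons.1 h1 with h | h
        · exact absurd (by rw [← h2, h]) hne
        · exact h
      · rcases List.mem_cons.1 h3 with h | h
        · exact absurd (by rw [← h4, h]) hne
        · exact h
    have hgap : 0 ≤ (if P (b - a) then b - a else 0) := by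
      split_ifs
      · linarith
      · exact le_rfl
    rw [gapSum]
    by_cases hq0 : f a ∈ Q
    · obtain ⟨⟨h1, h2⟩, ⟨h3, h4⟩⟩ := hQ _ hq0
      rcases List.mem_cons.1 h3 with h | h
      · -- the upper end is `a`
        have h5 : a ≤ lo (f a) := by
          rcases List.mem_cons.1 h1 with h' | h'
          · exact h'.ge
          · exact hmin _ h'
        rw [← Finset.add_sum_erase Q _ hq0]
        have h6 := gap_span P f hf (b :: l) hs' (Q.erase (f a)) lo hi
          (fun q hq => hmem q (Finset.mem_of_mem_erase hq) (Finset.ne_of_mem_erase hq)) hP'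
        have h7 : hi (f a) - lo (f a) ≤ 0 := by rw [h]; linarith
        linarith
      · have hfb : f b = f a := by
          apply le_antisymm
          · calc f b ≤ f (hi (f a)) := hf (hmin' _ h)
              _ = f a := h4
          · exact hf hab
        have h6 := gap_span P f hf (b :: l) hs' Q (fun q => if q = f a then b else lo q) hi
          (by
            intro q hq
            by_cases hqa : q = f a
            · simp only [hqa, if_true]
              refine ⟨⟨by simp, hfb⟩, ⟨h, h4⟩⟩
            · simp only [hqa, if_false]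
              exact hmem q hq hqa) hP'
        have h7 : ∑ q ∈ Q, (hi q - lo q) ≤
            ∑ q ∈ Q, ((hi q - (if q = f a then b else lo q)) + (if q = f a then b - a else 0)) := by
          apply Finset.sum_le_sum
          intro q hq
          by_cases hqa : q = f a
          · simp only [hqa, if_true]
            have h8 : a ≤ lo (f a) := by
              rcases List.mem_cons.1 h1 with h' | h'
              · exact h'.ge
              · exact hmin _ h'
            linarith
          · simp only [hqa, if_false]
            linarith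
        rw [Finset.sum_add_distrib, Finset.sum_ite_eq', if_pos hq0] at h7
        have h8 : (if P (b - a) then b - a else 0) = b - a := by
          rcases hP a (by simp) b (by simp) hab hfb.symm with h9 | h9
          · rw [if_pos h9]
          · subst h9
            simp
        rw [h8]
        linarith
    · have h6 := gap_span P f hf (b :: l) hs' Q lo hi
        (fun q hq => hmem q hq (fun h => hq0 (h ▸ hq))) hP'
      linarith

end Pool.Agent.TH694.M3
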