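import Pool.Agent.TH694.M3.Chunk
import Pool.Agent.TH694.M3.Gap

/-!
# Triples and the cells of the hierarchy
-/

set_option autoImplicit false

namespace Pool.Agent.TH694.M3

variable {V : Type}

/-- the splitting directions: the first coordinate is split at even levels -/
def D0 : ℕ → Bool := fun j => decide (j % 2 = 0)

theorem al_D0 : ∀ j : ℕ, al D0 j = (j + 1) / 2 ∧ al (fl D0) j = j / 2
  | 0 => by simp [al]
  | j + 1 => by
    obtain ⟨h1, h2⟩ := al_D0 j
    rcases Nat.mod_two_eq_zero_or_one j with h | h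
    · have h3 : D0 j = true := by simp [D0, h]
      obtain ⟨h4, h5⟩ := al_succ_true h3
      rw [h4, h5, h1, h2]
      omega
    · have h3 : D0 j = false := by simp [D0, h]
      obtain ⟨h4, h5⟩ := al_succ_false h3
      rw [h4, h5, h1, h2]
      omega

/-- the two admissible sequences of directions -/
def Adm (D : ℕ → Bool) : Prop := D = D0 ∨ D = fl D0

theorem Adm.flip {D : ℕ → Bool} (h : Adm D) : Adm (fl D) := by
  rcases h with rfl | rfl
  · exact Or.inr rfl
  · left; rw [fl_fl]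

theorem Adm.bounds {D : ℕ → Bool} (h : Adm D) (j : ℕ) : j / 2 ≤ al D j ∧ al D j ≤ (j + 1) / 2 := by
  obtain ⟨h1, h2⟩ := al_D0 j
  rcases h with rfl | rfl
  · rw [h1]; omega
  · rw [h2]; omega

theorem Adm.le {D : ℕ → Bool} (h : Adm D) (j : ℕ) : al (fl D) j ≤ al D j + 1 := by
  have h1 := h.bounds j
  have h2 := h.flip.bounds j
  omega

theorem Adm.split {D : ℕ → Bool} (h : Adm D) {j : ℕ} (hj : D j = true) : al D j = j / 2 := by
  obtain ⟨h1, h2⟩ := al_D0 j
  rcases h with rfl | rfl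
  · rw [h1]
    have : j % 2 = 0 := by simpa [D0] using hj
    omega
  · rw [h2]

theorem Adm.parity {D : ℕ → Bool} (h : Adm D) {j j' : ℕ} (hj : D j = true) (hj' : D j' = true) :
    j % 2 = j' % 2 := by
  rcases h with rfl | rfl
  · have h1 : j % 2 = 0 := by simpa [D0] using hj
    have h2 : j' % 2 = 0 := by simpa [D0] using hj'
    omega
  · have h1 : j % 2 = 1 := by simpa [D0, fl] using hj
    have h2 : j' % 2 = 1 := by simpa [D0, fl] using hj'
    omega

/-- the triple is contained in a cell of level `j` -/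
def inC (D : ℕ → Bool) (x y : V → ℤ) (j : ℕ) (t : V × V × V) : Prop :=
  cell D x y j t.1 = cell D x y j t.2.1 ∧ cell D x y j t.1 = cell D x y j t.2.2

theorem inC_iff (D : ℕ → Bool) (x y : V → ℤ) (j : ℕ) (t : V × V × V) :
    inC D x y j t ↔ ∀ v ∈ pts t, cell D x y j v = cell D x y j t.1 := by
  unfold inC
  constructor
  · rintro ⟨h1, h2⟩ v hv
    rcases mem_pts.1 hv with rfl | rfl | rfl
    · rfl
    · exact h1.symm
    · exact h2.symm
  · intro h
    exact ⟨(h _ (mem_pts.2 (by simp))).symm, (h _ (mem_pts.2 (by simp))).symm⟩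

theorem inC_fl (D : ℕ → Bool) (x y : V → ℤ) (j : ℕ) (t : V × V × V) :
    inC (fl D) y x j t ↔ inC D x y j t := by
  unfold inC
  simp only [cell_fl, Prod.swap_inj]

theorem inC_mono (D : ℕ → Bool) (x y : V → ℤ) {i j : ℕ} (hij : i ≤ j) {t : V × V × V}
    (h : inC D x y i t) : inC D x y j t :=
  ⟨cell_mono D x y hij h.1, cell_mono D x y hij h.2⟩

/-- the first level at which the triple is contained in a cell -/
noncomputable def lev (D : ℕ → Bool) (x y : V → ℤ) (t : V × V × V) : ℕ :=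
  sInf {j | inC D x y j t}

theorem lev_fl (D : ℕ → Bool) (x y : V → ℤ) (t : V × V × V) :
    lev (fl D) y x t = lev D x y t := by
  unfold lev
  congr 1
  ext j
  exact inC_fl D x y j t

theorem lev_spec {D : ℕ → Bool} {x y : V → ℤ} {t : V × V × V} {J : ℕ} (h : inC D x y J t) :
    inC D x y (lev D x y t) t ∧ lev D x y t ≤ J :=
  ⟨Nat.sInf_mem (s := {j | inC D x y j t}) ⟨J, h⟩, Nat.sInf_le h⟩

theorem not_inC_of_lt {D : ℕ → Bool} {x y : V → ℤ} {t : V × V × V} {j : ℕ}
    (h : j < lev D x y t) : ¬ inC D x y j t := Nat.notMem_of_lt_sInf h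

/-- smallest coordinate of a triple -/
def loX (x : V → ℤ) (t : V × V × V) : ℤ := min (x t.1) (min (x t.2.1) (x t.2.2))

/-- largest coordinate of a triple -/
def hiX (x : V → ℤ) (t : V × V × V) : ℤ := max (x t.1) (max (x t.2.1) (x t.2.2))

theorem loX_le {x : V → ℤ} {t : V × V × V} {v : V} (hv : v ∈ pts t) : loX x t ≤ x v := by
  unfold loX
  rcases mem_pts.1 hv with rfl | rfl | rfl <;> simp

theorem le_hiX {x : V → ℤ} {t : V × V × V} {v : V} (hv : v ∈ pts t) : x v ≤ hiX x t := by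
  unfold hiX
  rcases mem_pts.1 hv with rfl | rfl | rfl <;> simp

theorem exists_loX (x : V → ℤ) (t : V × V × V) : ∃ v ∈ pts t, x v = loX x t := by
  unfold loX
  rcases min_cases (x t.1) (min (x t.2.1) (x t.2.2)) with h | h
  · exact ⟨t.1, mem_pts.2 (by simp), h.1.symm⟩
  · rcases min_cases (x t.2.1) (x t.2.2) with h' | h'
    · exact ⟨t.2.1, mem_pts.2 (by simp), by rw [h.1, h'.1]⟩
    · exact ⟨t.2.2, mem_pts.2 (by simp), by rw [h.1, h'.1]⟩

theorem exists_hiX (x : V → ℤ) (t : V × V × V) : ∃ v ∈ pts t, x v = hiX x t := by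
  unfold hiX
  rcases max_cases (x t.1) (max (x t.2.1) (x t.2.2)) with h | h
  · exact ⟨t.1, mem_pts.2 (by simp), h.1.symm⟩
  · rcases max_cases (x t.2.1) (x t.2.2) with h' | h'
    · exact ⟨t.2.1, mem_pts.2 (by simp), by rw [h.1, h'.1]⟩
    · exact ⟨t.2.2, mem_pts.2 (by simp), by rw [h.1, h'.1]⟩

theorem loX_le_hiX (x : V → ℤ) (t : V × V × V) : loX x t ≤ hiX x t := by
  have h : t.1 ∈ pts t := mem_pts.2 (by simp)
  exact (loX_le h).trans (le_hiX h)

theorem two_norm_le_per (z : V → ℂ) {t : V × V × V} {v w : V} (hv : v ∈ pts t) (hw : w ∈ pts t) :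
    2 * ‖z v - z w‖ ≤ per z t := by
  have h1 := norm_sub_le_norm_sub_add_norm_sub (z t.1) (z t.2.1) (z t.2.2)
  have h2 := norm_sub_le_norm_sub_add_norm_sub (z t.2.1) (z t.2.2) (z t.1)
  have h3 := norm_sub_le_norm_sub_add_norm_sub (z t.2.2) (z t.1) (z t.2.1)
  have e1 := norm_sub_rev (z t.1) (z t.2.1)
  have e2 := norm_sub_rev (z t.2.1) (z t.2.2)
  have e3 := norm_sub_rev (z t.2.2) (z t.1)
  have n1 := norm_nonneg (z t.1 - z t.2.1)
  have n2 := norm_nonneg (z t.2.1 - z t.2.2)
  have n3 := norm_nonneg (z t.2.2 - z t.1)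
  unfold per
  rcases mem_pts.1 hv with rfl | rfl | rfl <;> rcases mem_pts.1 hw with rfl | rfl | rfl
  · simp only [sub_self, norm_zero]; linarith
  · linarith
  · linarith
  · linarith
  · simp only [sub_self, norm_zero]; linarith
  · linarith
  · linarith
  · linarith
  · simp only [sub_self, norm_zero]; linarith

theorem ext_le_per (x y : V → ℤ) (t : V × V × V) :
    2 * ((hiX x t : ℝ) - loX x t) ≤ per (zz x y) t := by
  obtain ⟨v, hv, hv'⟩ := exists_hiX x t
  obtain ⟨w, hw, hw'⟩ := exists_loX x t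
  have h1 := two_norm_le_per (zz x y) hv hw
  have h2 := abs_x_le x y v w
  have h3 := le_abs_self ((x v : ℝ) - x w)
  rw [← hv', ← hw']
  linarith

theorem abs_y_le_per (x y : V → ℤ) {t : V × V × V} {v w : V} (hv : v ∈ pts t) (hw : w ∈ pts t) :
    2 * |(y v : ℝ) - y w| ≤ per (zz x y) t := by
  have h1 := two_norm_le_per (zz x y) hv hw
  have h2 := abs_y_le x y v w
  linarith

/-- the vertical line which splits the cell `κ` of level `j + 1` -/
def lineP (D : ℕ → Bool) (j : ℕ) (κ : ℤ × ℤ) : ℤ := 2 ^ al D j * (2 * κ.1 + 1)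

/-- A triple which is split by a vertical line crosses this line. -/
theorem crosses_line {D : ℕ → Bool} {x y : V → ℤ} {j : ℕ} {t : V × V × V} (hj : D j = true)
    (h1 : inC D x y (j + 1) t) (h0 : ¬ inC D x y j t) :
    loX x t < lineP D j (cell D x y (j + 1) t.1) ∧
      lineP D j (cell D x y (j + 1) t.1) ≤ hiX x t := by
  rw [inC_iff] at h1 h0
  push Not at h0
  obtain ⟨w, hw, hne⟩ := h0
  obtain ⟨h3, h4⟩ := al_succ_true hj
  have hg : (0 : ℤ) < 2 ^ al D j := by positivity
  have hq : ∀ v ∈ pts t, x v / 2 ^ al D j / 2 = (cell D x y (j + 1) t.1).1 := by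
    intro v hv
    have := congrArg Prod.fst (h1 v hv)
    unfold cell at this ⊢
    simp only [h3, div_pow_succ] at this ⊢
    exact this
  have hy : ∀ v ∈ pts t, y v / 2 ^ al (fl D) j = y t.1 / 2 ^ al (fl D) j := by
    intro v hv
    have := congrArg Prod.snd (h1 v hv)
    unfold cell at this
    simp only [h4] at this
    exact this
  have hx : x w / 2 ^ al D j ≠ x t.1 / 2 ^ al D j := by
    intro h
    apply hne
    unfold cell
    rw [h, hy w hw]
  have ht1 : t.1 ∈ pts t := mem_pts.2 (by simp)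
  have e1 := hq w hw
  have e2 := hq t.1 ht1
  have key : ∃ v ∈ pts t, ∃ u ∈ pts t, x v / 2 ^ al D j = 2 * (cell D x y (j + 1) t.1).1 ∧
      x u / 2 ^ al D j = 2 * (cell D x y (j + 1) t.1).1 + 1 := by
    generalize (cell D x y (j + 1) t.1).1 = r at *
    rcases lt_or_gt_of_ne hx with h | h
    · exact ⟨w, hw, t.1, ht1, by omega, by omega⟩
    · exact ⟨t.1, ht1, w, hw, by omega, by omega⟩
  obtain ⟨v, hv, u, hu, ev, eu⟩ := key
  unfold lineP
  constructor
  · refine (loX_le hv).trans_lt ?_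
    rw [mul_comm]
    exact (Int.ediv_lt_iff_lt_mul hg).1 (by omega)
  · refine le_trans ?_ (le_hiX hu)
    rw [mul_comm]
    exact (Int.le_ediv_iff_mul_le hg).1 (by omega)

/-- the exact power of two dividing the position of a splitting line -/
theorem lineP_lvl (D : ℕ → Bool) (j : ℕ) (κ : ℤ × ℤ) (a : ℤ) :
    lvl a (lineP D j κ - a) (al D j) := by
  unfold lvl lineP
  rw [sub_add_cancel]
  refine ⟨dvd_mul_right _ _, ?_⟩
  intro h
  rw [pow_succ] at h
  have h0 : (2 : ℤ) ^ al D j ≠ 0 := by positivity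
  have h2 := (mul_dvd_mul_iff_left h0).1 h
  omega

theorem lvl_unique {a p : ℤ} {i i' : ℕ} (h : lvl a p i) (h' : lvl a p i') : i = i' := by
  rcases lt_trichotomy i i' with h1 | h1 | h1
  · exact absurd ((pow_dvd_pow 2 h1).trans h'.1) h.2
  · exact h1
  · exact absurd ((pow_dvd_pow 2 h1).trans h.1) h'.2

end Pool.Agent.TH694.M3
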