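import Pool.Agent.TH694.M3.Dir

/-!
# Regrouping the short triples split in one direction: supports and costs
-/

set_option autoImplicit false

namespace Pool.Agent.TH694.M3

variable {V : Type}

theorem exists_sorted (g : V → ℤ) (W : Multiset V) : ∃ L : List V, (↑L : Multiset V) = W ∧
    L.Pairwise (fun v w => g v ≤ g w) := by
  classical
  let r : V → V → Prop := fun v w => g v ≤ g w
  have : Std.Total r := ⟨fun a b => le_total (g a) (g b)⟩
  have : IsTrans V r := ⟨fun a b c hab hbc => le_trans hab hbc⟩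
  refine ⟨W.toList.insertionSort r, ?_, List.pairwise_insertionSort r _⟩
  rw [Multiset.coe_eq_coe.2 (List.perm_insertionSort r _), Multiset.coe_toList]

/-- a sorted list of the members of a multiset -/
noncomputable def srt (g : V → ℤ) (W : Multiset V) : List V := (exists_sorted g W).choose

theorem srt_coe (g : V → ℤ) (W : Multiset V) : (↑(srt g W) : Multiset V) = W :=
  (exists_sorted g W).choose_spec.1

theorem srt_pairwise (g : V → ℤ) (W : Multiset V) :
    (srt g W).Pairwise (fun v w => g v ≤ g w) := (exists_sorted g W).choose_spec.2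

theorem mem_srt {g : V → ℤ} {W : Multiset V} {v : V} : v ∈ srt g W ↔ v ∈ W := by
  rw [← Multiset.mem_coe, srt_coe]

theorem card_supp (π : Multiset (V × V × V)) : Multiset.card (supp π) = 3 * Multiset.card π := by
  induction π using Multiset.induction_on with
  | empty => simp
  | cons t π ih =>
    rw [supp_cons, Multiset.card_add, ih, Multiset.card_cons]
    simp [pts]
    ring

theorem mem_supp {π : Multiset (V × V × V)} {v : V} : v ∈ supp π ↔ ∃ t ∈ π, v ∈ pts t := by
  induction π using Multiset.induction_on with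
  | empty => simp
  | cons t π ih =>
    rw [supp_cons, Multiset.mem_add, ih]
    simp only [Multiset.mem_cons, exists_eq_or_imp]

theorem supp_sum {κ : Type*} (s : Finset κ) (F : κ → Multiset (V × V × V)) :
    supp (∑ i ∈ s, F i) = ∑ i ∈ s, supp (F i) := by
  classical
  induction s using Finset.induction_on with
  | empty => simp
  | insert a s ha ih => rw [Finset.sum_insert ha, Finset.sum_insert ha, supp_add, ih]

theorem cost_sum {κ : Type*} (z : V → ℂ) (s : Finset κ) (F : κ → Multiset (V × V × V)) :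
    cost z (∑ i ∈ s, F i) = ∑ i ∈ s, cost z (F i) := by
  classical
  induction s using Finset.induction_on with
  | empty => simp
  | insert a s ha ih => rw [Finset.sum_insert ha, Finset.sum_insert ha, cost_add, ih]

theorem sum_supp (δ : V → ℝ) (π : Multiset (V × V × V)) :
    ((supp π).map δ).sum = (π.map (fun t => ((pts t).map δ).sum)).sum := by
  induction π using Multiset.induction_on with
  | empty => simp
  | cons t π ih => rw [supp_cons, Multiset.map_add, Multiset.sum_add, ih, Multiset.map_cons,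
      Multiset.sum_cons]

section
variable (D : ℕ → Bool) (x y : V → ℤ) (e c : ℕ)

/-- a short triple split in the first coordinate -/
def bad (t : V × V × V) : Prop :=
  ∃ j, lev D x y t = j + 1 ∧ D j = true ∧ (e : ℝ) * per (zz x y) t < 2 ^ (j / 2)

/-- the key of a bad triple: level, cell, segment of the splitting line -/
noncomputable def key (t : V × V × V) : ℕ × (ℤ × ℤ) × ℤ :=
  (lev D x y t, cell D x y (lev D x y t) t.1, y t.1 / 2 ^ ((lev D x y t - 1) / 2 - c))

open Classical in
/-- the bad triples -/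
noncomputable def badS (I : Finset (V × V × V)) : Finset (V × V × V) := I.filter (bad D x y e)

open Classical in
/-- the keys -/
noncomputable def keyS (I : Finset (V × V × V)) : Finset (ℕ × (ℤ × ℤ) × ℤ) :=
  (badS D x y e I).image (key D x y c)

open Classical in
/-- the bad triples with a given key -/
noncomputable def run (I : Finset (V × V × V)) (ρ : ℕ × (ℤ × ℤ) × ℤ) : Finset (V × V × V) :=
  (badS D x y e I).filter (fun t => key D x y c t = ρ)

/-- the points of the bad triples with a given key in Z-order -/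
noncomputable def runL (I : Finset (V × V × V)) (ρ : ℕ × (ℤ × ℤ) × ℤ) : List V :=
  srt (zcode D x y ρ.1) (supp (run D x y e c I ρ).val)

/-- the bad triples regrouped -/
noncomputable def reg (I : Finset (V × V × V)) : Multiset (V × V × V) :=
  ∑ ρ ∈ keyS D x y e c I, (↑(chunk3 (runL D x y e c I ρ)) : Multiset (V × V × V))

variable {D x y e c}

theorem mem_run {I : Finset (V × V × V)} {ρ : ℕ × (ℤ × ℤ) × ℤ} {t : V × V × V} :
    t ∈ run D x y e c I ρ ↔ (t ∈ I ∧ bad D x y e t) ∧ key D x y c t = ρ := by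
  classical
  simp only [run, badS, Finset.mem_filter]

theorem mem_keyS {I : Finset (V × V × V)} {ρ : ℕ × (ℤ × ℤ) × ℤ} :
    ρ ∈ keyS D x y e c I ↔ ∃ t, t ∈ run D x y e c I ρ := by
  unfold keyS
  rw [Finset.mem_image]
  constructor
  · rintro ⟨t, ht, h⟩
    exact ⟨t, by unfold run; rw [Finset.mem_filter]; exact ⟨ht, h⟩⟩
  · rintro ⟨t, ht⟩
    unfold run at ht
    rw [Finset.mem_filter] at ht
    exact ⟨t, ht.1, ht.2⟩

theorem supp_runL (I : Finset (V × V × V)) (ρ : ℕ × (ℤ × ℤ) × ℤ) :
    supp ↑(chunk3 (runL D x y e c I ρ)) = supp (run D x y e c I ρ).val := by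
  rw [supp_chunk3]
  · exact srt_coe _ _
  · have h := congrArg Multiset.card (srt_coe (zcode D x y ρ.1) (supp (run D x y e c I ρ).val))
    rw [card_supp, Multiset.coe_card] at h
    unfold runL
    exact ⟨_, h⟩

open Classical in
theorem sum_run {M : Type*} [AddCommMonoid M] (I : Finset (V × V × V)) (f : V × V × V → M) :
    ∑ ρ ∈ keyS D x y e c I, ∑ t ∈ run D x y e c I ρ, f t = ∑ t ∈ badS D x y e I, f t := by
  unfold keyS run
  exact Finset.sum_fiberwise_of_maps_to (fun t ht => Finset.mem_image_of_mem _ ht) f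

theorem supp_reg (I : Finset (V × V × V)) : supp (reg D x y e c I) = supp (badS D x y e I).val := by
  unfold reg
  rw [supp_sum, Finset.sum_congr rfl (fun ρ _ => supp_runL I ρ)]
  exact sum_run I pts

/-- The cost of one regrouped run. -/
theorem cost_run (hD : Adm D) {I : Finset (V × V × V)} {J : ℕ} (hJ : ∀ t ∈ I, inC D x y J t)
    {ρ : ℕ × (ℤ × ℤ) × ℤ} (hρ : ρ ∈ keyS D x y e c I) (t₁ t₂ : V × V × V)
    (h₁ : ∀ t ∈ run D x y e c I ρ, y t₁.1 ≤ y t.1)
    (h₂ : ∀ t ∈ run D x y e c I ρ, y t.1 ≤ y t₂.1) :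
    cost (zz x y) ↑(chunk3 (runL D x y e c I ρ)) ≤
      6 * ((y t₂.1 : ℝ) - y t₁.1) + 36 * ∑ t ∈ run D x y e c I ρ, per (zz x y) t := by
  classical
  obtain ⟨t₀, ht₀⟩ := mem_keyS.1 hρ
  obtain ⟨⟨ht₀I, j, hj1, hjD, -⟩, hk⟩ := mem_run.1 ht₀
  have hρ1 : ρ.1 = j + 1 := by rw [← hk]; exact hj1
  set S := ∑ t ∈ run D x y e c I ρ, per (zz x y) t with hS
  have hperS : ∀ t ∈ run D x y e c I ρ, per (zz x y) t ≤ S := fun t ht =>
    Finset.single_le_sum (f := fun t => per (zz x y) t) (fun t _ => per_nonneg _ _) ht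
  have hS0 : 0 ≤ S := Finset.sum_nonneg fun t _ => per_nonneg _ _
  -- all triples of the run
  have hrun : ∀ t ∈ run D x y e c I ρ, inC D x y (j + 1) t ∧ ¬ inC D x y j t ∧
      cell D x y (j + 1) t.1 = ρ.2.1 := by
    intro t ht
    obtain ⟨⟨htI, -⟩, hkt⟩ := mem_run.1 ht
    have h3 : lev D x y t = j + 1 := by
      rw [← hρ1, ← hkt]; rfl
    have h4 := (lev_spec (hJ t htI)).1
    rw [h3] at h4
    refine ⟨h4, not_inC_of_lt (by omega), ?_⟩
    rw [← hkt]
    unfold key
    simp only [h3]
  have hmem : ∀ v ∈ runL D x y e c I ρ, ∃ t ∈ run D x y e c I ρ, v ∈ pts t := by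
    intro v hv
    unfold runL at hv
    rw [mem_srt, mem_supp] at hv
    exact hv
  have hspan : (0 : ℝ) ≤ (y t₂.1 : ℝ) - y t₁.1 := by
    have h3 := (h₁ t₀ ht₀).trans (h₂ t₀ ht₀)
    have h4 : (y t₁.1 : ℝ) ≤ y t₂.1 := by exact_mod_cast h3
    linarith
  have hreg := regroup D x y hD.le j hjD ρ.2.1 (runL D x y e c I ρ)
    (by
      intro v hv
      obtain ⟨t, ht, hvt⟩ := hmem v hv
      obtain ⟨h3, -, h4⟩ := hrun t ht
      rw [(inC_iff D x y _ t).1 h3 v hvt, h4])
    (by
      have := srt_pairwise (zcode D x y ρ.1) (supp (run D x y e c I ρ).val)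
      rw [hρ1] at this
      unfold runL
      rw [hρ1]
      exact this)
    ((y t₂.1 : ℝ) - y t₁.1 + S) (by linarith)
    (by
      intro v hv w hw
      obtain ⟨t, ht, hvt⟩ := hmem v hv
      obtain ⟨t', ht', hwt⟩ := hmem w hw
      have h3 : t.1 ∈ pts t := mem_pts.2 (by simp)
      have h4 : t'.1 ∈ pts t' := mem_pts.2 (by simp)
      have h5 := abs_y_le_per x y hvt h3
      have h6 := abs_y_le_per x y h4 hwt
      have h7 := le_abs_self ((y v : ℝ) - y t.1)
      have h8 := le_abs_self ((y t'.1 : ℝ) - y w)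
      have h9 := hperS t ht
      have h10 := hperS t' ht'
      have h11 : (y t.1 : ℝ) ≤ y t₂.1 := by exact_mod_cast h₂ t ht
      have h12 : (y t₁.1 : ℝ) ≤ y t'.1 := by exact_mod_cast h₁ t' ht'
      linarith)
  refine hreg.trans ?_
  have hsum : ((runL D x y e c I ρ).map
      (fun v => |(x v : ℝ) - (2 ^ al D j * (2 * ρ.2.1.1 + 1) : ℤ)|)).sum ≤ 3 / 2 * S := by
    have h3 : ((runL D x y e c I ρ).map
        (fun v => |(x v : ℝ) - (2 ^ al D j * (2 * ρ.2.1.1 + 1) : ℤ)|)).sum =
        ∑ t ∈ run D x y e c I ρ, ((pts t).map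
        (fun v => |(x v : ℝ) - (2 ^ al D j * (2 * ρ.2.1.1 + 1) : ℤ)|)).sum := by
      rw [← Multiset.sum_coe, ← Multiset.map_coe]
      unfold runL
      rw [srt_coe, sum_supp]
      rfl
    rw [h3, hS, Finset.mul_sum]
    apply Finset.sum_le_sum
    intro t ht
    obtain ⟨h4, h5, h6⟩ := hrun t ht
    have h7 := crosses_line hjD h4 h5
    rw [h6] at h7
    have h8 := ext_le_per x y t
    have key : ∀ v ∈ pts t, |(x v : ℝ) - (2 ^ al D j * (2 * ρ.2.1.1 + 1) : ℤ)| ≤
        per (zz x y) t / 2 := by
      intro v hv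
      have h9 := loX_le (x := x) hv
      have h10 := le_hiX (x := x) hv
      have h11 : |x v - lineP D j ρ.2.1| ≤ hiX x t - loX x t := by
        rw [abs_le]; constructor <;> linarith [h7.1, h7.2]
      have h12 : |(x v : ℝ) - (lineP D j ρ.2.1 : ℤ)| ≤ (hiX x t : ℝ) - loX x t := by
        exact_mod_cast h11
      unfold lineP at h12
      linarith
    have k1 := key t.1 (mem_pts.2 (by simp))
    have k2 := key t.2.1 (mem_pts.2 (by simp))
    have k3 := key t.2.2 (mem_pts.2 (by simp))
    unfold pts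
    simp only [Multiset.map_add, Multiset.sum_add, Multiset.map_singleton, Multiset.sum_singleton]
    linarith
  linarith

end

end Pool.Agent.TH694.M3
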