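import Pool.Agent.TH694.M3.Dir2

/-!
# The total cost of the regrouping
-/

set_option autoImplicit false

namespace Pool.Agent.TH694.M3

variable {V : Type}

theorem run_spec {D : ℕ → Bool} {x y : V → ℤ} {e c : ℕ} {I : Finset (V × V × V)} {J : ℕ}
    (hJ : ∀ t ∈ I, inC D x y J t) {ρ : ℕ × (ℤ × ℤ) × ℤ} {t : V × V × V}
    (ht : t ∈ run D x y e c I ρ) : ∃ j, ρ.1 = j + 1 ∧ j + 1 ≤ J ∧ D j = true ∧
      inC D x y (j + 1) t ∧ ¬ inC D x y j t ∧ cell D x y (j + 1) t.1 = ρ.2.1 ∧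
      y t.1 / 2 ^ (j / 2 - c) = ρ.2.2 ∧ (e : ℝ) * per (zz x y) t < 2 ^ (j / 2) := by
  obtain ⟨⟨htI, j, hj1, hjD, hb⟩, hk⟩ := mem_run.1 ht
  have h1 := lev_spec (hJ t htI)
  refine ⟨j, ?_, ?_, hjD, ?_, ?_, ?_, ?_, hb⟩
  · rw [← hk]; exact hj1
  · rw [← hj1]; exact h1.2
  · rw [← hj1]; exact h1.1
  · exact not_inC_of_lt (by omega)
  · rw [← hk]; unfold key; simp only [hj1]
  · rw [← hk]; unfold key; simp only [hj1, Nat.add_sub_cancel]

theorem loX_shift (x₀ : V → ℤ) (a : ℤ) (t : V × V × V) :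
    loX (fun v => x₀ v + a) t = loX x₀ t + a := by
  unfold loX
  simp only [min_add_add_right]

theorem hiX_shift (x₀ : V → ℤ) (a : ℤ) (t : V × V × V) :
    hiX (fun v => x₀ v + a) t = hiX x₀ t + a := by
  unfold hiX
  simp only [max_add_add_right]

open Classical in
/-- The spans of the runs on one vertical line. -/
theorem spans_line {D : ℕ → Bool} (hD : Adm D) (x₀ y₀ : V → ℤ) (a b : ℤ) (e c k : ℕ)
    {I : Finset (V × V × V)}
    (hJ : ∀ t ∈ I, inC D (fun v => x₀ v + a) (fun v => y₀ v + b) (2 * k) t)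
    (tlo thi : ℕ × (ℤ × ℤ) × ℤ → V × V × V)
    (hlo : ∀ ρ ∈ keyS D (fun v => x₀ v + a) (fun v => y₀ v + b) e c I,
      tlo ρ ∈ run D (fun v => x₀ v + a) (fun v => y₀ v + b) e c I ρ)
    (hhi : ∀ ρ ∈ keyS D (fun v => x₀ v + a) (fun v => y₀ v + b) e c I,
      thi ρ ∈ run D (fun v => x₀ v + a) (fun v => y₀ v + b) e c I ρ)
    (p : ℤ) :
    ∑ ρ ∈ (keyS D (fun v => x₀ v + a) (fun v => y₀ v + b) e c I).filter
      (fun ρ => lineP D (ρ.1 - 1) ρ.2.1 - a = p), (y₀ (thi ρ).1 - y₀ (tlo ρ).1) ≤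
    gapSum (fun g => ∃ i < k, lvl a p i ∧ g * 2 ^ c < 2 ^ i)
      (ylist I (loX x₀) (hiX x₀) (fun t => y₀ t.1) p) := by
  set x : V → ℤ := fun v => x₀ v + a with hx
  set y : V → ℤ := fun v => y₀ v + b with hy
  have hsorted : (ylist I (loX x₀) (hiX x₀) (fun t => y₀ t.1) p).Pairwise (· ≤ ·) := by
    unfold ylist
    exact Multiset.pairwise_sort _ _
  set Kp := (keyS D x y e c I).filter (fun ρ => lineP D (ρ.1 - 1) ρ.2.1 - a = p) with hKp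
  rcases Kp.eq_empty_or_nonempty with hemp | ⟨ρs, hρs⟩
  · rw [hemp, Finset.sum_empty]
    exact gapSum_nonneg _ _ hsorted
  have hin : ∀ ρ ∈ Kp, ∀ t ∈ run D x y e c I ρ, t ∈ I ∧ loX x₀ t < p ∧ p ≤ hiX x₀ t := by
    intro ρ hρ t ht
    rw [hKp, Finset.mem_filter] at hρ
    obtain ⟨j, h1, h2, h3, h4, h5, h6, h7, h8⟩ := run_spec hJ ht
    have h9 := crosses_line h3 h4 h5
    rw [h6] at h9
    have h10 := hρ.2
    rw [h1, Nat.add_sub_cancel] at h10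
    rw [loX_shift, hiX_shift] at h9
    exact ⟨(mem_run.1 ht).1.1, by linarith [h9.1], by linarith [h9.2]⟩
  obtain ⟨js, hjs1, hjs2, hjs3, -, -, -, -, -⟩ := run_spec hJ
    (hlo ρs (Finset.mem_filter.1 hρs).1)
  have hlvl : ∀ ρ ∈ Kp, ∀ j, ρ.1 = j + 1 → lvl a p (al D j) := by
    intro ρ hρ j hj
    have h := (Finset.mem_filter.1 hρ).2
    rw [hj, Nat.add_sub_cancel] at h
    rw [← h]
    exact lineP_lvl D j _ a
  have hA : ∀ ρ ∈ Kp, ρ.1 = js + 1 := by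
    intro ρ hρ
    obtain ⟨j, h1, h2, h3, -, -, -, -, -⟩ := run_spec hJ (hlo ρ (Finset.mem_filter.1 hρ).1)
    have h4 := lvl_unique (hlvl ρ hρ j h1) (hlvl ρs hρs js hjs1)
    rw [hD.split h3, hD.split hjs3] at h4
    have h5 := hD.parity h3 hjs3
    omega
  have hspec : ∀ ρ ∈ Kp, ∀ t ∈ run D x y e c I ρ, cell D x y (js + 1) t.1 = ρ.2.1 ∧
      (y₀ t.1 + b) / 2 ^ (js / 2 - c) = ρ.2.2 := by
    intro ρ hρ t ht
    obtain ⟨j, h1, h2, h3, h4, h5, h6, h7, h8⟩ := run_spec hJ ht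
    have h9 : j = js := by have := hA ρ hρ; omega
    subst h9
    exact ⟨h6, h7⟩
  have hm : js / 2 - c ≤ al (fl D) (js + 1) := by
    have h1 := (hD.flip.bounds (js + 1)).1
    omega
  have hinj : Set.InjOn (fun ρ : ℕ × (ℤ × ℤ) × ℤ => ρ.2.2) (Kp : Set (ℕ × (ℤ × ℤ) × ℤ)) := by
    intro ρ hρ ρ' hρ' heq
    rw [Finset.mem_coe] at hρ hρ'
    simp only at heq
    have e1 : ρ.1 = ρ'.1 := (hA ρ hρ).trans (hA ρ' hρ').symm
    have e2 : ρ.2.1.1 = ρ'.2.1.1 := by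
      have h1 := (Finset.mem_filter.1 hρ).2
      have h2 := (Finset.mem_filter.1 hρ').2
      rw [hA ρ hρ, Nat.add_sub_cancel] at h1
      rw [hA ρ' hρ', Nat.add_sub_cancel] at h2
      unfold lineP at h1 h2
      have h3 : (2 : ℤ) ^ al D js * (2 * ρ.2.1.1 + 1) = 2 ^ al D js * (2 * ρ'.2.1.1 + 1) := by
        linarith
      have h4 := mul_left_cancel₀ (by positivity : (2 : ℤ) ^ al D js ≠ 0) h3
      linarith
    have key2 : ∀ σ ∈ Kp, σ.2.1.2 = σ.2.2 / 2 ^ (al (fl D) (js + 1) - (js / 2 - c)) := by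
      intro σ hσ
      obtain ⟨h1, h2⟩ := hspec σ hσ (tlo σ) (hlo σ (Finset.mem_filter.1 hσ).1)
      rw [← h1, ← h2, Int.ediv_ediv_of_nonneg (by positivity), ← pow_add, Nat.add_sub_cancel' hm]
      rfl
    have e3 : ρ.2.1.2 = ρ'.2.1.2 := by rw [key2 ρ hρ, key2 ρ' hρ', heq]
    exact Prod.ext e1 (Prod.ext (Prod.ext e2 e3) heq)
  set g : ℤ → ℕ × (ℤ × ℤ) × ℤ := Function.invFunOn (fun ρ : ℕ × (ℤ × ℤ) × ℤ => ρ.2.2)
    (Kp : Set (ℕ × (ℤ × ℤ) × ℤ)) with hg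
  have hleft : ∀ ρ ∈ Kp, g ρ.2.2 = ρ := fun ρ hρ => hinj.leftInvOn_invFunOn hρ
  have hsum : ∑ ρ ∈ Kp, (y₀ (thi ρ).1 - y₀ (tlo ρ).1) =
      ∑ s ∈ Kp.image (fun ρ => ρ.2.2), (y₀ (thi (g s)).1 - y₀ (tlo (g s)).1) := by
    rw [Finset.sum_image hinj]
    exact Finset.sum_congr rfl fun ρ hρ => by simp only [hleft ρ hρ]
  rw [hsum]
  have hylist : ∀ ρ ∈ Kp, ∀ t ∈ run D x y e c I ρ,
      y₀ t.1 ∈ ylist I (loX x₀) (hiX x₀) (fun t => y₀ t.1) p := by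
    intro ρ hρ t ht
    unfold ylist
    rw [Multiset.mem_sort, Multiset.mem_map]
    obtain ⟨h1, h2, h3⟩ := hin ρ hρ t ht
    exact ⟨t, Finset.mem_filter.2 ⟨h1, h2, h3⟩, rfl⟩
  apply gap_span _ (fun q => (q + b) / 2 ^ (js / 2 - c))
    (fun q q' h => Int.ediv_le_ediv (by positivity) (by linarith)) _ hsorted
  · intro s hs
    obtain ⟨ρ, hρ, rfl⟩ := Finset.mem_image.1 hs
    simp only [hleft ρ hρ]
    have h1 := hlo ρ (Finset.mem_filter.1 hρ).1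
    have h2 := hhi ρ (Finset.mem_filter.1 hρ).1
    exact ⟨⟨hylist ρ hρ _ h1, (hspec ρ hρ _ h1).2⟩, ⟨hylist ρ hρ _ h2, (hspec ρ hρ _ h2).2⟩⟩
  · intro q _ q' _ hqq hf
    have h0 : (0 : ℤ) < 2 ^ (js / 2 - c) := by positivity
    have h1 := Int.emod_add_mul_ediv (q + b) (2 ^ (js / 2 - c))
    have h2 := Int.emod_add_mul_ediv (q' + b) (2 ^ (js / 2 - c))
    have h3 := Int.emod_nonneg (q + b) h0.ne'
    have h4 := Int.emod_lt_of_pos (q' + b) h0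
    have h5 : q' - q < 2 ^ (js / 2 - c) := by
      rw [hf] at h1
      linarith
    rcases le_or_gt c (js / 2) with hc | hc
    · left
      refine ⟨js / 2, by omega, ?_, ?_⟩
      · have := hlvl ρs hρs js hjs1
        rwa [hD.split hjs3] at this
      · calc (q' - q) * 2 ^ c < 2 ^ (js / 2 - c) * 2 ^ c :=
              mul_lt_mul_of_pos_right h5 (by positivity)
          _ = 2 ^ (js / 2) := by rw [← pow_add, Nat.sub_add_cancel hc]
    · right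
      rw [Nat.sub_eq_zero_of_le hc.le, pow_zero] at h5
      omega

open Classical in
/-- The cost of the regrouping in one direction. -/
theorem cost_reg {D : ℕ → Bool} (hD : Adm D) (x₀ y₀ : V → ℤ) (a b : ℤ) (e c k : ℕ)
    {I : Finset (V × V × V)}
    (hJ : ∀ t ∈ I, inC D (fun v => x₀ v + a) (fun v => y₀ v + b) (2 * k) t)
    (PP : Finset ℤ) (hPP : ∀ t ∈ I, ∀ p, loX x₀ t < p → p ≤ hiX x₀ t → p ∈ PP) :
    cost (zz (fun v => x₀ v + a) (fun v => y₀ v + b))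
      (reg D (fun v => x₀ v + a) (fun v => y₀ v + b) e c I) ≤
    6 * ∑ p ∈ PP, ((gapSum (fun g => ∃ i < k, lvl a p i ∧ g * 2 ^ c < 2 ^ i)
      (ylist I (loX x₀) (hiX x₀) (fun t => y₀ t.1) p) : ℤ) : ℝ) +
    36 * ∑ t ∈ badS D (fun v => x₀ v + a) (fun v => y₀ v + b) e I,
      per (zz (fun v => x₀ v + a) (fun v => y₀ v + b)) t := by
  set x : V → ℤ := fun v => x₀ v + a with hx
  set y : V → ℤ := fun v => y₀ v + b with hy
  have hgs : ∀ p, 0 ≤ gapSum (fun g => ∃ i < k, lvl a p i ∧ g * 2 ^ c < 2 ^ i)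
      (ylist I (loX x₀) (hiX x₀) (fun t => y₀ t.1) p) := fun p =>
    gapSum_nonneg _ _ (by unfold ylist; exact Multiset.pairwise_sort _ _)
  rcases (keyS D x y e c I).eq_empty_or_nonempty with hemp | ⟨ρs, hρs⟩
  · unfold reg
    rw [hemp, Finset.sum_empty, cost_zero]
    have h1 : (0 : ℝ) ≤ ∑ p ∈ PP, ((gapSum (fun g => ∃ i < k, lvl a p i ∧ g * 2 ^ c < 2 ^ i)
      (ylist I (loX x₀) (hiX x₀) (fun t => y₀ t.1) p) : ℤ) : ℝ) :=
      Finset.sum_nonneg fun p _ => by exact_mod_cast hgs p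
    have h2 : 0 ≤ ∑ t ∈ badS D x y e I, per (zz x y) t := Finset.sum_nonneg fun t _ => per_nonneg _ _
    linarith
  have hne : Nonempty (V × V × V) := ⟨(mem_keyS.1 hρs).choose⟩
  have hlo : ∀ ρ, ∃ t, ρ ∈ keyS D x y e c I → t ∈ run D x y e c I ρ ∧
      ∀ t' ∈ run D x y e c I ρ, y t.1 ≤ y t'.1 := by
    intro ρ
    by_cases h : ρ ∈ keyS D x y e c I
    · obtain ⟨t, ht, h1⟩ := Finset.exists_min_image (run D x y e c I ρ) (fun t => y t.1)
        (mem_keyS.1 h)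
      exact ⟨t, fun _ => ⟨ht, h1⟩⟩
    · exact ⟨hne.some, fun h' => absurd h' h⟩
  have hhi : ∀ ρ, ∃ t, ρ ∈ keyS D x y e c I → t ∈ run D x y e c I ρ ∧
      ∀ t' ∈ run D x y e c I ρ, y t'.1 ≤ y t.1 := by
    intro ρ
    by_cases h : ρ ∈ keyS D x y e c I
    · obtain ⟨t, ht, h1⟩ := Finset.exists_max_image (run D x y e c I ρ) (fun t => y t.1)
        (mem_keyS.1 h)
      exact ⟨t, fun _ => ⟨ht, h1⟩⟩
    · exact ⟨hne.some, fun h' => absurd h' h⟩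
  choose tlo htlo using hlo
  choose thi hthi using hhi
  have h1 : cost (zz x y) (reg D x y e c I) ≤ ∑ ρ ∈ keyS D x y e c I,
      (6 * ((y (thi ρ).1 : ℝ) - y (tlo ρ).1) + 36 * ∑ t ∈ run D x y e c I ρ, per (zz x y) t) := by
    unfold reg
    rw [cost_sum]
    apply Finset.sum_le_sum
    intro ρ hρ
    exact cost_run hD hJ hρ (tlo ρ) (thi ρ) (htlo ρ hρ).2 (hthi ρ hρ).2
  rw [Finset.sum_add_distrib, ← Finset.mul_sum, ← Finset.mul_sum, sum_run] at h1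
  refine h1.trans ?_
  have h2 : ∑ ρ ∈ keyS D x y e c I, ((y (thi ρ).1 : ℝ) - y (tlo ρ).1) ≤
      ∑ p ∈ PP, ((gapSum (fun g => ∃ i < k, lvl a p i ∧ g * 2 ^ c < 2 ^ i)
      (ylist I (loX x₀) (hiX x₀) (fun t => y₀ t.1) p) : ℤ) : ℝ) := by
    have h3 : ∀ ρ ∈ keyS D x y e c I, lineP D (ρ.1 - 1) ρ.2.1 - a ∈ PP := by
      intro ρ hρ
      obtain ⟨j, h1, h2, h3, h4, h5, h6, h7, h8⟩ := run_spec hJ (htlo ρ hρ).1
      have h9 := crosses_line h3 h4 h5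
      rw [h6] at h9
      rw [h1, Nat.add_sub_cancel]
      rw [loX_shift, hiX_shift] at h9
      exact hPP (tlo ρ) (mem_run.1 (htlo ρ hρ).1).1.1 _ (by linarith [h9.1]) (by linarith [h9.2])
    have h4 : ∑ ρ ∈ keyS D x y e c I, (y₀ (thi ρ).1 - y₀ (tlo ρ).1) ≤
        ∑ p ∈ PP, gapSum (fun g => ∃ i < k, lvl a p i ∧ g * 2 ^ c < 2 ^ i)
          (ylist I (loX x₀) (hiX x₀) (fun t => y₀ t.1) p) := by
      rw [← Finset.sum_fiberwise_of_maps_to h3]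
      apply Finset.sum_le_sum
      intro p _
      exact spans_line hD x₀ y₀ a b e c k hJ tlo thi (fun ρ hρ => (htlo ρ hρ).1)
        (fun ρ hρ => (hthi ρ hρ).1) p
    have h5 : ∑ ρ ∈ keyS D x y e c I, ((y (thi ρ).1 : ℝ) - y (tlo ρ).1) =
        ((∑ ρ ∈ keyS D x y e c I, (y₀ (thi ρ).1 - y₀ (tlo ρ).1) : ℤ) : ℝ) := by
      push_cast
      apply Finset.sum_congr rfl
      intro ρ _
      simp only [hy]
      push_cast
      ring
    rw [h5]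
    exact_mod_cast h4
  linarith

end Pool.Agent.TH694.M3
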