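import Pool.Agent.TH694.M3.Dir3

/-!
# Regrouped triples crossing a cell
-/

set_option autoImplicit false

namespace Pool.Agent.TH694.M3

variable {V : Type}

/-- the triple crosses the cell `κ` of level `i` -/
def crossC (D : ℕ → Bool) (x y : V → ℤ) (i : ℕ) (κ : ℤ × ℤ) (t : V × V × V) : Prop :=
  (∃ v ∈ pts t, cell D x y i v = κ) ∧ ∃ v ∈ pts t, cell D x y i v ≠ κ

theorem crossC_fl (D : ℕ → Bool) (x y : V → ℤ) (i : ℕ) (κ : ℤ × ℤ) (t : V × V × V) :
    crossC (fl D) y x i κ.swap t ↔ crossC D x y i κ t := by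
  unfold crossC
  simp only [cell_fl, ne_eq, Prod.swap_inj]

theorem chunk3_countP_le (P : V → Bool) : ∀ L : List V,
    (chunk3 L).countP (fun t => P t.1 || (P t.2.1 || P t.2.2)) ≤ L.countP P
  | a :: b :: c :: l => by
    rw [chunk3, List.countP_cons, List.countP_cons, List.countP_cons, List.countP_cons]
    have h := chunk3_countP_le P l
    simp only
    cases P a <;> cases P b <;> cases P c <;> simp <;> omega
  | [] => by simp [chunk3]
  | [_] => by simp [chunk3]
  | [_, _] => by simp [chunk3]

open Classical in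
theorem countP_sum {κ α : Type*} (s : Finset κ) (F : κ → Multiset α) (p : α → Prop) :
    (∑ i ∈ s, F i).countP p = ∑ i ∈ s, (F i).countP p := by
  induction s using Finset.induction_on with
  | empty => simp
  | insert a s ha ih => rw [Finset.sum_insert ha, Finset.sum_insert ha, Multiset.countP_add, ih]

theorem countP_supp (P : V → Prop) [DecidablePred P] (π : Multiset (V × V × V)) :
    (supp π).countP P = (π.map (fun t => (pts t).countP P)).sum := by
  induction π using Multiset.induction_on with
  | empty => simp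
  | cons t π ih => rw [supp_cons, Multiset.countP_add, ih, Multiset.map_cons, Multiset.sum_cons]

/-- A nonadjacent line crossed by a triple with a point in the cell is far away. -/
theorem far_line {D : ℕ → Bool} {x y : V → ℤ} {i j : ℕ} (hDij : al D i ≤ al D j)
    {κ κ' : ℤ × ℤ} {t : V × V × V} {v : V} (hv : v ∈ pts t) (hvκ : cell D x y i v = κ)
    (h1 : loX x t < lineP D j κ') (h2 : lineP D j κ' ≤ hiX x t)
    (hn1 : lineP D j κ' ≠ 2 ^ al D i * κ.1) (hn2 : lineP D j κ' ≠ 2 ^ al D i * (κ.1 + 1)) :
    (2 : ℝ) ^ al D i ≤ per (zz x y) t := by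
  have h0 : (0 : ℤ) < 2 ^ al D i := by positivity
  have e1 : x v / 2 ^ al D i = κ.1 := by rw [← hvκ]; rfl
  have e2 := Int.emod_add_mul_ediv (x v) (2 ^ al D i)
  have e3 := Int.emod_nonneg (x v) h0.ne'
  have e4 := Int.emod_lt_of_pos (x v) h0
  rw [e1] at e2
  obtain ⟨q, hq⟩ : ∃ q : ℤ, lineP D j κ' = 2 ^ al D i * q := by
    unfold lineP
    refine ⟨2 ^ (al D j - al D i) * (2 * κ'.1 + 1), ?_⟩
    rw [← mul_assoc, ← pow_add, Nat.add_sub_cancel' hDij]
  have h3 := loX_le (x := x) hv
  have h4 := le_hiX (x := x) hv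
  have h5 := ext_le_per x y t
  rw [hq] at h1 h2 hn1 hn2
  have hq1 : q ≠ κ.1 := fun h => hn1 (by rw [h])
  have hq2 : q ≠ κ.1 + 1 := fun h => hn2 (by rw [h])
  have h6 : (2 : ℤ) ^ al D i ≤ hiX x t - loX x t := by
    rcases lt_or_gt_of_ne hq1 with h | h
    · have h7 : (2 : ℤ) ^ al D i * q ≤ 2 ^ al D i * (κ.1 - 1) :=
        mul_le_mul_of_nonneg_left (by omega) h0.le
      linarith
    · have h7 : (2 : ℤ) ^ al D i * (κ.1 + 2) ≤ 2 ^ al D i * q :=
        mul_le_mul_of_nonneg_left (by omega) h0.le
      linarith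
  have h7 : (2 : ℝ) ^ al D i ≤ (hiX x t : ℝ) - loX x t := by exact_mod_cast h6
  have h8 := per_nonneg (zz x y) t
  linarith

theorem al_mono (D : ℕ → Bool) : Monotone (al D) := by
  apply monotone_nat_of_le_succ
  intro n
  rw [al]
  omega

open Classical in
/-- At most boundedly many regrouped triples cross a cell. -/
theorem cross_reg {D : ℕ → Bool} (hD : Adm D) (x y : V → ℤ) (e c J : ℕ)
    {I : Finset (V × V × V)} (hJ : ∀ t ∈ I, inC D x y J t) (i : ℕ) (κ : ℤ × ℤ) (K : ℕ)
    (hK : (I.filter (fun t => (∃ v ∈ pts t, cell D x y i v = κ) ∧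
      (2 : ℝ) ^ (i / 2) ≤ per (zz x y) t)).card ≤ K) :
    (reg D x y e c I).countP (crossC D x y i κ) ≤ 3 * K + 2 * (2 * 2 ^ (c + 1)) := by
  set LG := I.filter (fun t => (∃ v ∈ pts t, cell D x y i v = κ) ∧
      (2 : ℝ) ^ (i / 2) ≤ per (zz x y) t) with hLG
  set Adj := (keyS D x y e c I).filter (fun ρ => (∃ v ∈ runL D x y e c I ρ, cell D x y i v = κ) ∧
    i < ρ.1 ∧ (lineP D (ρ.1 - 1) ρ.2.1 = 2 ^ al D i * κ.1 ∨
      lineP D (ρ.1 - 1) ρ.2.1 = 2 ^ al D i * (κ.1 + 1))) with hAdj
  have hmem : ∀ ρ, ∀ v ∈ runL D x y e c I ρ, ∃ t ∈ run D x y e c I ρ, v ∈ pts t := by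
    intro ρ v hv
    unfold runL at hv
    rw [mem_srt, mem_supp] at hv
    exact hv
  have hcellL : ∀ ρ, ∀ v ∈ runL D x y e c I ρ, cell D x y ρ.1 v = ρ.2.1 := by
    intro ρ v hv
    obtain ⟨t, ht, hvt⟩ := hmem ρ v hv
    obtain ⟨j, h1, h2, h3, h4, h5, h6, h7, h8⟩ := run_spec hJ ht
    rw [h1, (inC_iff D x y _ t).1 h4 v hvt, h6]
  have hchunk : ∀ ρ, ∀ t ∈ chunk3 (runL D x y e c I ρ), ∀ v ∈ pts t, v ∈ runL D x y e c I ρ := by
    intro ρ t ht v hv
    obtain ⟨h1, h2, h3⟩ := chunk3_mem _ t ht
    rcases mem_pts.1 hv with rfl | rfl | rfl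
    · exact h1
    · exact h2
    · exact h3
  -- the bound for one key
  have hone : ∀ ρ ∈ keyS D x y e c I,
      (chunk3 (runL D x y e c I ρ)).countP (fun t => decide (crossC D x y i κ t)) ≤
      (if ρ ∈ Adj then 2 else 0) + ∑ t ∈ run D x y e c I ρ, (if t ∈ LG then 3 else 0) := by
    intro ρ hρ
    by_cases hi : i < ρ.1
    · by_cases hex : ∃ v ∈ runL D x y e c I ρ, cell D x y i v = κ
      · obtain ⟨v₀, hv₀, hv₀κ⟩ := hex
        by_cases hadj : ρ ∈ Adj
        · rw [if_pos hadj]
          have hsort := srt_pairwise (zcode D x y ρ.1) (supp (run D x y e c I ρ).val)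
          have h1 := chunk3_cross (fun v => zcode D x y ρ.1 v / 2 ^ i)
            (zcode D x y ρ.1 v₀ / 2 ^ i) (runL D x y e c I ρ)
            (hsort.imp (fun h => Int.ediv_le_ediv (by positivity) h))
          have hiff : ∀ v ∈ runL D x y e c I ρ,
              (zcode D x y ρ.1 v / 2 ^ i = zcode D x y ρ.1 v₀ / 2 ^ i ↔ cell D x y i v = κ) := by
            intro v hv
            rw [← hv₀κ, ← cell_iff_zcode D x y hi.le
              ((hcellL ρ v hv).trans (hcellL ρ v₀ hv₀).symm)]
          have h2 : (chunk3 (runL D x y e c I ρ)).countP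
              (fun t => decide (crossC D x y i κ t)) ≤ 2 := by
            refine le_trans (le_of_eq ?_) h1
            apply List.countP_congr
            intro t ht
            obtain ⟨m1, m2, m3⟩ := chunk3_mem _ t ht
            rw [decide_eq_true_eq, decide_eq_true_eq]
            rw [hiff _ m1, hiff _ m2, hiff _ m3]
            unfold crossC
            constructor
            · rintro ⟨⟨v, hv, hvκ⟩, w, hw, hwκ⟩
              constructor
              · rcases mem_pts.1 hv with rfl | rfl | rfl
                · exact Or.inl hvκ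
                · exact Or.inr (Or.inl hvκ)
                · exact Or.inr (Or.inr hvκ)
              · rintro ⟨a1, a2, a3⟩
                rcases mem_pts.1 hw with rfl | rfl | rfl
                · exact hwκ a1
                · exact hwκ a2
                · exact hwκ a3
            · rintro ⟨h3, h4⟩
              constructor
              · rcases h3 with h3 | h3 | h3
                · exact ⟨_, mem_pts.2 (by simp), h3⟩
                · exact ⟨_, mem_pts.2 (Or.inr (Or.inl rfl)), h3⟩
                · exact ⟨_, mem_pts.2 (Or.inr (Or.inr rfl)), h3⟩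
              · by_contra hcon
                push Not at hcon
                exact h4 ⟨hcon _ (mem_pts.2 (by simp)), hcon _ (mem_pts.2 (Or.inr (Or.inl rfl))),
                  hcon _ (mem_pts.2 (Or.inr (Or.inr rfl)))⟩
          omega
        · rw [if_neg hadj, zero_add]
          have h1 : (chunk3 (runL D x y e c I ρ)).countP
              (fun t => decide (crossC D x y i κ t)) ≤
              (runL D x y e c I ρ).countP (fun v => decide (cell D x y i v = κ)) := by
            refine le_trans ?_ (chunk3_countP_le _ _)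
            apply List.countP_mono_left
            intro t _ ht
            rw [decide_eq_true_eq] at ht
            obtain ⟨⟨v, hv, hvκ⟩, -⟩ := ht
            simp only [Bool.or_eq_true, decide_eq_true_eq]
            rcases mem_pts.1 hv with rfl | rfl | rfl
            · exact Or.inl hvκ
            · exact Or.inr (Or.inl hvκ)
            · exact Or.inr (Or.inr hvκ)
          refine h1.trans ?_
          have h2 : (runL D x y e c I ρ).countP (fun v => decide (cell D x y i v = κ)) =
              ∑ t ∈ run D x y e c I ρ, (pts t).countP (fun v => cell D x y i v = κ) := by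
            rw [← Multiset.coe_countP]
            unfold runL
            rw [srt_coe, countP_supp]
            rfl
          rw [h2]
          apply Finset.sum_le_sum
          intro t ht
          by_cases hz : (pts t).countP (fun v => cell D x y i v = κ) = 0
          · rw [hz]; exact Nat.zero_le _
          · have h3 : ∃ v ∈ pts t, cell D x y i v = κ := by
              rwa [← Multiset.countP_pos, Nat.pos_iff_ne_zero]
            obtain ⟨v, hv, hvκ⟩ := h3
            obtain ⟨j, h1, h2, h3, h4, h5, h6, h7, h8⟩ := run_spec hJ ht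
            have hij : i ≤ j := by omega
            have h9 := crosses_line h3 h4 h5
            rw [h6] at h9
            have hna : ¬ (lineP D j ρ.2.1 = 2 ^ al D i * κ.1 ∨
                lineP D j ρ.2.1 = 2 ^ al D i * (κ.1 + 1)) := by
              intro hcon
              apply hadj
              rw [hAdj, Finset.mem_filter]
              refine ⟨hρ, ⟨v₀, hv₀, hv₀κ⟩, hi, ?_⟩
              rw [h1, Nat.add_sub_cancel]
              exact hcon
            push Not at hna
            have h10 := far_line (y := y) (al_mono D hij) hv hvκ h9.1 h9.2 hna.1 hna.2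
            have h11 : t ∈ LG := by
              rw [hLG, Finset.mem_filter]
              refine ⟨(mem_run.1 ht).1.1, ⟨v, hv, hvκ⟩, ?_⟩
              refine le_trans ?_ h10
              exact pow_le_pow_right₀ (by norm_num) (hD.bounds i).1
            rw [if_pos h11]
            refine (Multiset.countP_le_card _ _).trans ?_
            simp [pts]
      · have h1 : (chunk3 (runL D x y e c I ρ)).countP (fun t => decide (crossC D x y i κ t)) = 0 := by
          rw [List.countP_eq_zero]
          intro t ht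
          rw [decide_eq_true_eq]
          rintro ⟨⟨v, hv, hvκ⟩, -⟩
          exact hex ⟨v, hchunk ρ t ht v hv, hvκ⟩
        rw [h1]; exact Nat.zero_le _
    · have h1 : (chunk3 (runL D x y e c I ρ)).countP (fun t => decide (crossC D x y i κ t)) = 0 := by
        rw [List.countP_eq_zero]
        intro t ht
        rw [decide_eq_true_eq]
        rintro ⟨⟨v, hv, hvκ⟩, w, hw, hwκ⟩
        apply hwκ
        rw [← hvκ]
        exact cell_mono D x y (not_lt.1 hi) ((hcellL ρ w (hchunk ρ t ht w hw)).trans
          (hcellL ρ v (hchunk ρ t ht v hv)).symm)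
      rw [h1]; exact Nat.zero_le _
  -- the number of adjacent keys
  have hcard : Adj.card ≤ 2 * 2 ^ (c + 1) := by
    have h1 : ((Finset.univ : Finset Bool) ×ˢ (Finset.Ico (0 : ℤ) (2 ^ (c + 1)))).card =
        2 * 2 ^ (c + 1) := by
      rw [Finset.card_product, Finset.card_univ, Fintype.card_bool, Int.card_Ico]
      congr 1
    rw [← h1]
    apply Finset.card_le_card_of_injOn
      (fun ρ => (decide (lineP D (ρ.1 - 1) ρ.2.1 = 2 ^ al D i * κ.1), ρ.2.2 % 2 ^ (c + 1)))
    · intro ρ _
      rw [Finset.mem_coe, Finset.mem_product, Finset.mem_Ico]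
      exact ⟨Finset.mem_univ _, Int.emod_nonneg _ (by positivity),
        Int.emod_lt_of_pos _ (by positivity)⟩
    · intro ρ hρ ρ' hρ' heq
      rw [Finset.mem_coe, hAdj, Finset.mem_filter] at hρ hρ'
      obtain ⟨hρK, ⟨v, hv, hvκ⟩, hi, hl⟩ := hρ
      obtain ⟨hρK', ⟨v', hv', hvκ'⟩, hi', hl'⟩ := hρ'
      rw [Prod.mk.injEq] at heq
      obtain ⟨heq1, heq2⟩ := heq
      obtain ⟨t, ht⟩ := mem_keyS.1 hρK
      obtain ⟨t', ht'⟩ := mem_keyS.1 hρK'
      obtain ⟨j, h1, h2, h3, h4, h5, h6, h7, h8⟩ := run_spec hJ ht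
      obtain ⟨j', h1', h2', h3', h4', h5', h6', h7', h8'⟩ := run_spec hJ ht'
      have hline : lineP D (ρ.1 - 1) ρ.2.1 = lineP D (ρ'.1 - 1) ρ'.2.1 := by
        rw [decide_eq_decide] at heq1
        rcases hl with hl | hl
        · rw [hl, heq1.1 hl]
        · rcases hl' with hl' | hl'
          · rw [hl', heq1.2 hl']
          · rw [hl, hl']
      rw [h1, h1', Nat.add_sub_cancel, Nat.add_sub_cancel] at hline
      have hjj : j = j' := by
        have k1 := lineP_lvl D j ρ.2.1 0
        have k2 := lineP_lvl D j' ρ'.2.1 0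
        rw [hline] at k1
        have k3 := lvl_unique k1 k2
        rw [hD.split h3, hD.split h3'] at k3
        have k4 := hD.parity h3 h3'
        omega
      subst hjj
      have e1 : ρ.1 = ρ'.1 := by rw [h1, h1']
      have e2 : ρ.2.1 = ρ'.2.1 := by
        rw [← hcellL ρ v hv, ← hcellL ρ' v' hv', ← e1]
        exact cell_mono D x y hi.le (hvκ.trans hvκ'.symm)
      have e3 : ρ.2.2 = ρ'.2.2 := by
        rw [← h7, ← h7'] at heq2 ⊢
        have k1 : cell D x y (j + 1) t.1 = cell D x y (j + 1) t'.1 := by rw [h6, h6', e2]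
        have k2 : y t.1 / 2 ^ al (fl D) (j + 1) = y t'.1 / 2 ^ al (fl D) (j + 1) :=
          congrArg Prod.snd k1
        have hb := hD.flip.bounds (j + 1)
        have hm : j / 2 - c ≤ al (fl D) (j + 1) := by omega
        have hm2 : al (fl D) (j + 1) - (j / 2 - c) ≤ c + 1 := by omega
        have k3 : ∀ q : ℤ, q / 2 ^ al (fl D) (j + 1) =
            q / 2 ^ (j / 2 - c) / 2 ^ (al (fl D) (j + 1) - (j / 2 - c)) := by
          intro q
          rw [Int.ediv_ediv_of_nonneg (by positivity), ← pow_add, Nat.add_sub_cancel' hm]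
        rw [k3, k3] at k2
        have k4 : y t.1 / 2 ^ (j / 2 - c) % 2 ^ (al (fl D) (j + 1) - (j / 2 - c)) =
            y t'.1 / 2 ^ (j / 2 - c) % 2 ^ (al (fl D) (j + 1) - (j / 2 - c)) := by
          rw [← Int.emod_emod_of_dvd _ (pow_dvd_pow (2 : ℤ) hm2), heq2,
            Int.emod_emod_of_dvd _ (pow_dvd_pow (2 : ℤ) hm2)]
        rw [← Int.emod_add_mul_ediv (y t.1 / 2 ^ (j / 2 - c))
          (2 ^ (al (fl D) (j + 1) - (j / 2 - c))), k4, k2, Int.emod_add_mul_ediv]
      exact Prod.ext e1 (Prod.ext e2 e3)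
  -- summation
  unfold reg
  rw [countP_sum]
  calc ∑ ρ ∈ keyS D x y e c I, Multiset.countP (crossC D x y i κ)
        (↑(chunk3 (runL D x y e c I ρ)) : Multiset (V × V × V))
      ≤ ∑ ρ ∈ keyS D x y e c I, ((if ρ ∈ Adj then 2 else 0) +
        ∑ t ∈ run D x y e c I ρ, (if t ∈ LG then 3 else 0)) := by
        apply Finset.sum_le_sum
        intro ρ hρ
        rw [Multiset.coe_countP]
        exact hone ρ hρ
    _ = ∑ ρ ∈ keyS D x y e c I, (if ρ ∈ Adj then 2 else 0) +
        ∑ t ∈ badS D x y e I, (if t ∈ LG then 3 else 0) := by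
        rw [Finset.sum_add_distrib, sum_run]
    _ ≤ 2 * (2 * 2 ^ (c + 1)) + 3 * K := by
        apply Nat.add_le_add
        · rw [← Finset.sum_filter, Finset.sum_const, smul_eq_mul, mul_comm]
          apply Nat.mul_le_mul_left
          refine (Finset.card_le_card ?_).trans hcard
          intro ρ hρ
          exact (Finset.mem_filter.1 hρ).2
        · rw [← Finset.sum_filter, Finset.sum_const, smul_eq_mul, mul_comm]
          apply Nat.mul_le_mul_left
          refine (Finset.card_le_card ?_).trans hK
          intro t ht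
          exact (Finset.mem_filter.1 ht).2
    _ = 3 * K + 2 * (2 * 2 ^ (c + 1)) := by ring

end Pool.Agent.TH694.M3
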