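import Pool.Agent.TH694.M3.Struct
import Pool.Agent.TH741.J658

/-!
# From the structure theorem to the dynamic programme
-/

set_option autoImplicit false

namespace Pool.Agent.TH694.M3

section
variable {V : Type} [Fintype V]

theorem IsPart.exists_mem {π : Multiset (V × V × V)} (h : IsPart π) (v : V) :
    ∃ t ∈ π, v ∈ pts t := by
  rw [← mem_supp, h]
  exact Finset.mem_univ v

theorem IsPart.pts_nodup {π : Multiset (V × V × V)} (h : IsPart π) {t : V × V × V} (ht : t ∈ π) :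
    t.1 ≠ t.2.1 ∧ t.1 ≠ t.2.2 ∧ t.2.1 ≠ t.2.2 := by
  obtain ⟨π₀, rfl⟩ := Multiset.exists_cons_of_mem ht
  have h1 : (supp (t ::ₘ π₀)).Nodup := by rw [h]; exact Finset.univ.nodup
  rw [supp_cons, Multiset.nodup_add] at h1
  have h2 := h1.1
  unfold pts at h2
  rw [add_assoc, Multiset.singleton_add, Multiset.singleton_add] at h2
  rw [Multiset.nodup_cons, Multiset.nodup_cons] at h2
  simp only [Multiset.mem_cons, Multiset.mem_singleton, not_or] at h2
  exact ⟨h2.1.1, h2.1.2, h2.2.1⟩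

theorem IsPart.unique {π : Multiset (V × V × V)} (h : IsPart π) {t t' : V × V × V} (ht : t ∈ π)
    (ht' : t' ∈ π) {v : V} (hv : v ∈ pts t) (hv' : v ∈ pts t') : t = t' := by
  by_contra hne
  obtain ⟨π₀, rfl⟩ := Multiset.exists_cons_of_mem ht
  have h1 : (supp (t ::ₘ π₀)).Nodup := by rw [h]; exact Finset.univ.nodup
  rw [supp_cons, Multiset.nodup_add] at h1
  have h2 : t' ∈ π₀ := by
    rcases Multiset.mem_cons.1 ht' with h3 | h3
    · exact absurd h3.symm hne
    · exact h3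
  exact Multiset.disjoint_left.1 h1.2.2 hv (mem_supp.2 ⟨t', h2, hv'⟩)

theorem IsPart.card {π : Multiset (V × V × V)} (h : IsPart π) :
    3 * Multiset.card π = Fintype.card V := by
  rw [← card_supp, h]
  rfl

theorem exists_opt (z : V → ℂ) (hex : ∃ π : Multiset (V × V × V), IsPart π) :
    ∃ π : Multiset (V × V × V), IsOpt z π := by
  classical
  obtain ⟨π₀, hπ₀⟩ := hex
  obtain ⟨I, hI, hmin⟩ := Finset.exists_min_image
    ((Finset.univ : Finset (Finset (V × V × V))).filter (fun I => IsPart I.val))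
    (fun I => cost z I.val)
    ⟨⟨π₀, hπ₀.nodup⟩, Finset.mem_filter.2 ⟨Finset.mem_univ _, hπ₀⟩⟩
  refine ⟨I.val, (Finset.mem_filter.1 hI).2, fun π' hπ' => ?_⟩
  exact hmin ⟨π', hπ'.nodup⟩ (Finset.mem_filter.2 ⟨Finset.mem_univ _, hπ'⟩)

theorem cost_pos {z : V → ℂ} (hz : Function.Injective z) {π : Multiset (V × V × V)}
    (h : IsPart π) (v : V) : 0 < cost z π := by
  obtain ⟨t, ht, -⟩ := h.exists_mem v
  have h1 := (h.pts_nodup ht).1
  obtain ⟨π₀, rfl⟩ := Multiset.exists_cons_of_mem ht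
  rw [cost_cons]
  have h2 : 0 < ‖z t.1 - z t.2.1‖ := by
    rw [norm_pos_iff, sub_ne_zero]
    exact fun h3 => h1 (hz h3)
  have h3 : 0 ≤ cost z π₀ := by
    unfold cost
    apply Multiset.sum_nonneg
    intro a ha
    obtain ⟨s, -, rfl⟩ := Multiset.mem_map.1 ha
    exact per_nonneg _ _
  unfold per
  have h4 := norm_nonneg (z t.2.1 - z t.2.2)
  have h5 := norm_nonneg (z t.2.2 - z t.1)
  linarith

end

/-! ## Natural coordinates -/

/-- the points as complex numbers -/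
noncomputable def zQ (Q : List (ℕ × ℕ)) (i : ℕ) : ℂ :=
  ⟨((Q.getD i (0, 0)).1 : ℝ), ((Q.getD i (0, 0)).2 : ℝ)⟩

theorem ad_cast (a b : ℕ) : ((ad a b : ℕ) : ℝ) = |(a : ℝ) - b| := by
  unfold ad
  rcases le_total a b with h | h
  · rw [Nat.sub_eq_zero_of_le h, zero_add, Nat.cast_sub h, abs_of_nonpos]
    · ring
    · have : (a : ℝ) ≤ b := by exact_mod_cast h
      linarith
  · rw [Nat.sub_eq_zero_of_le h, add_zero, Nat.cast_sub h, abs_of_nonneg]
    have : (b : ℝ) ≤ a := by exact_mod_cast h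
    linarith

theorem norm_sq_zQ (Q : List (ℕ × ℕ)) (i j : ℕ) :
    ‖zQ Q i - zQ Q j‖ ^ 2 = ((ad (Q.getD i (0, 0)).1 (Q.getD j (0, 0)).1 *
      ad (Q.getD i (0, 0)).1 (Q.getD j (0, 0)).1 +
      ad (Q.getD i (0, 0)).2 (Q.getD j (0, 0)).2 * ad (Q.getD i (0, 0)).2 (Q.getD j (0, 0)).2 : ℕ) : ℝ) := by
  rw [← Complex.normSq_eq_norm_sq, Complex.normSq_apply]
  push_cast
  rw [ad_cast, ad_cast]
  simp only [zQ, Complex.sub_re, Complex.sub_im, abs_mul_abs_self]

theorem dN_le (Q : List (ℕ × ℕ)) (i j : ℕ) : (dN Q i j : ℝ) ≤ ‖zQ Q i - zQ Q j‖ := by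
  apply le_of_sq_le_sq _ (norm_nonneg _)
  rw [norm_sq_zQ]
  unfold dN
  exact_mod_cast Nat.sqrt_le' _

theorem le_dN (Q : List (ℕ × ℕ)) (i j : ℕ) : ‖zQ Q i - zQ Q j‖ ≤ dN Q i j + 1 := by
  apply le_of_sq_le_sq _ (by positivity)
  rw [norm_sq_zQ]
  unfold dN
  exact_mod_cast (Nat.lt_succ_sqrt' _).le

/-- a decreasing arrangement of three numbers -/
def sort3 (i j k : ℕ) : Trip :=
  if i < j then (if j < k then (k, j, i) else if i < k then (j, k, i) else (j, i, k))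
  else (if i < k then (k, i, j) else if j < k then (i, k, j) else (i, j, k))

theorem sort3_lt {i j k : ℕ} (h1 : i ≠ j) (h2 : i ≠ k) (h3 : j ≠ k) :
    (sort3 i j k).2.2 < (sort3 i j k).2.1 ∧ (sort3 i j k).2.1 < (sort3 i j k).1 := by
  unfold sort3
  split_ifs <;> simp only <;> omega

theorem tmem_sort3 (v i j k : ℕ) : tmem v (sort3 i j k) ↔ v = i ∨ v = j ∨ v = k := by
  unfold tmem sort3
  split_ifs <;> simp only <;> tauto

theorem touch_sort3 (P : List ℕ) (i j k : ℕ) :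
    touch (sort3 i j k) P ↔ i ∈ P ∨ j ∈ P ∨ k ∈ P := by
  unfold touch sort3
  split_ifs <;> simp only <;> tauto

theorem inside_sort3 (P : List ℕ) (i j k : ℕ) :
    inside (sort3 i j k) P ↔ i ∈ P ∧ j ∈ P ∧ k ∈ P := by
  unfold inside sort3
  split_ifs <;> simp only <;> tauto

theorem wN_sort3_le (Q : List (ℕ × ℕ)) (i j k : ℕ) : (wN Q (sort3 i j k) : ℝ) ≤
    ‖zQ Q i - zQ Q j‖ + ‖zQ Q j - zQ Q k‖ + ‖zQ Q k - zQ Q i‖ := by
  have e1 := norm_sub_rev (zQ Q i) (zQ Q j)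
  have e2 := norm_sub_rev (zQ Q j) (zQ Q k)
  have e3 := norm_sub_rev (zQ Q k) (zQ Q i)
  have d1 := dN_le Q i j
  have d2 := dN_le Q j i
  have d3 := dN_le Q j k
  have d4 := dN_le Q k j
  have d5 := dN_le Q k i
  have d6 := dN_le Q i k
  unfold wN sort3
  split_ifs <;> push_cast <;> linarith

/-- the indices of a triple in decreasing order -/
def st {m : ℕ} (t : Fin m × Fin m × Fin m) : Trip := sort3 t.1 t.2.1 t.2.2

theorem tmem_st {m : ℕ} (t : Fin m × Fin m × Fin m) (v : Fin m) :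
    tmem (v : ℕ) (st t) ↔ v ∈ pts t := by
  unfold st
  rw [tmem_sort3, mem_pts]
  simp only [Fin.ext_iff]

theorem mem_trips {m : ℕ} {t : Trip} :
    t ∈ trips m ↔ t.2.2 < t.2.1 ∧ t.2.1 < t.1 ∧ t.1 < m := by
  obtain ⟨i, j, k⟩ := t
  unfold trips
  simp only [List.mem_flatMap, List.mem_map, List.mem_range, List.mem_filter, decide_eq_true_eq,
    Prod.mk.injEq]
  constructor
  · rintro ⟨i', hi, j', hj, k', ⟨hk, h1, h2⟩, rfl, rfl, rfl⟩
    exact ⟨h1, h2, hi⟩
  · rintro ⟨h1, h2, h3⟩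
    exact ⟨i, h3, j, by omega, k, ⟨by omega, h1, h2⟩, rfl, rfl, rfl⟩

/-- rounded coordinates -/
def rx (Q : List (ℕ × ℕ)) (h : ℕ) (v : Fin Q.length) : ℤ :=
  ((Q.length * ((Q.getD v (0, 0)).1 / h) + v : ℕ) : ℤ)

/-- rounded coordinates -/
def ry (Q : List (ℕ × ℕ)) (h : ℕ) (v : Fin Q.length) : ℤ :=
  ((Q.length * ((Q.getD v (0, 0)).2 / h) : ℕ) : ℤ)

theorem rnd_length (Q : List (ℕ × ℕ)) (h a b : ℕ) : (rnd Q h a b).length = Q.length := by
  simp [rnd]

theorem rnd_getD (Q : List (ℕ × ℕ)) (h a b : ℕ) (v : Fin Q.length) :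
    (((rnd Q h a b).getD v (0, 0)).1 : ℤ) = rx Q h v + a ∧
    (((rnd Q h a b).getD v (0, 0)).2 : ℤ) = ry Q h v + b := by
  have h1 : (rnd Q h a b).getD v (0, 0) =
      (Q.length * ((Q.getD v (0, 0)).1 / h) + v + a, Q.length * ((Q.getD v (0, 0)).2 / h) + b) := by
    unfold rnd
    rw [List.getD_eq_getElem?_getD, List.getElem?_map, List.getElem?_range v.2]
    rfl
  rw [h1]
  unfold rx ry
  push_cast
  exact ⟨rfl, rfl⟩

theorem rx_injective (Q : List (ℕ × ℕ)) (h : ℕ) : Function.Injective (rx Q h) := by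
  intro u v huv
  unfold rx at huv
  have h1 : Q.length * ((Q.getD u (0, 0)).1 / h) + u = Q.length * ((Q.getD v (0, 0)).1 / h) + v := by
    exact_mod_cast huv
  have h2 := congrArg (· % Q.length) h1
  simp only [Nat.mul_add_mod, Nat.mod_eq_of_lt u.2, Nat.mod_eq_of_lt v.2] at h2
  exact Fin.ext h2

/-- the rounding error -/
theorem round_err (Q : List (ℕ × ℕ)) {h : ℕ} (hh : 0 < h) (v : Fin Q.length) :
    ‖((Q.length : ℝ) / h : ℂ) * zQ Q v - zz (rx Q h) (ry Q h) v‖ ≤ 2 * Q.length := by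
  have hh' : (0 : ℝ) < h := by exact_mod_cast hh
  have key : ∀ n : ℕ, |((Q.length : ℝ) / h) * n - ((Q.length * (n / h) : ℕ) : ℝ)| ≤ Q.length ∧
      0 ≤ ((Q.length : ℝ) / h) * n - ((Q.length * (n / h) : ℕ) : ℝ) := by
    intro n
    have h1 : ((n / h : ℕ) : ℝ) ≤ n / h := Nat.cast_div_le
    have h2 : (n : ℝ) / h < ((n / h : ℕ) : ℝ) + 1 := by
      rw [div_lt_iff₀ hh']
      have h4 : n < (n / h + 1) * h := by
        have h5 := Nat.div_add_mod n h
        have h6 := Nat.mod_lt n hh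
        rw [add_mul, one_mul, mul_comm]
        omega
      exact_mod_cast h4
    have h3 : (0 : ℝ) ≤ Q.length := by positivity
    have h4 : ((Q.length : ℝ) / h) * n - ((Q.length * (n / h) : ℕ) : ℝ) =
        Q.length * ((n : ℝ) / h - ((n / h : ℕ) : ℝ)) := by
      push_cast
      ring
    rw [h4]
    have h5 : 0 ≤ (n : ℝ) / h - ((n / h : ℕ) : ℝ) := by linarith
    have h6 := mul_nonneg h3 h5
    refine ⟨?_, h6⟩
    rw [abs_of_nonneg h6]
    nlinarith
  have hre : (((Q.length : ℝ) / h : ℂ) * zQ Q v - zz (rx Q h) (ry Q h) v).re =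
      ((Q.length : ℝ) / h) * ((Q.getD v (0, 0)).1 : ℕ) -
        ((Q.length * ((Q.getD v (0, 0)).1 / h) : ℕ) : ℝ) - (v : ℕ) := by
    have e1 : (((Q.length : ℝ) / h : ℂ)) = (((Q.length : ℝ) / h : ℝ) : ℂ) := by push_cast; rfl
    rw [e1, Complex.sub_re, Complex.re_ofReal_mul]
    simp only [zQ, zz, rx, Int.cast_natCast]
    push_cast
    ring
  have him : (((Q.length : ℝ) / h : ℂ) * zQ Q v - zz (rx Q h) (ry Q h) v).im =
      ((Q.length : ℝ) / h) * ((Q.getD v (0, 0)).2 : ℕ) -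
        ((Q.length * ((Q.getD v (0, 0)).2 / h) : ℕ) : ℝ) := by
    have e1 : (((Q.length : ℝ) / h : ℂ)) = (((Q.length : ℝ) / h : ℝ) : ℂ) := by push_cast; rfl
    rw [e1, Complex.sub_im, Complex.im_ofReal_mul]
    simp only [zQ, zz, ry, Int.cast_natCast]
  refine (Complex.norm_le_abs_re_add_abs_im _).trans ?_
  rw [hre, him]
  obtain ⟨k1, k2⟩ := key (Q.getD v (0, 0)).1
  obtain ⟨k3, k4⟩ := key (Q.getD v (0, 0)).2
  have hv : ((v : ℕ) : ℝ) ≤ Q.length := by exact_mod_cast v.2.le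
  have hv0 : (0 : ℝ) ≤ ((v : ℕ) : ℝ) := by positivity
  have k5 : |((Q.length : ℝ) / h) * ((Q.getD v (0, 0)).1 : ℕ) -
        ((Q.length * ((Q.getD v (0, 0)).1 / h) : ℕ) : ℝ) - (v : ℕ)| ≤ Q.length := by
    rw [abs_le] at k1 ⊢
    constructor <;> linarith [k1.1, k1.2]
  linarith

/-- rounding changes perimeters only little -/
theorem per_round (Q : List (ℕ × ℕ)) {h : ℕ} (hh : 0 < h)
    (t : Fin Q.length × Fin Q.length × Fin Q.length) :
    |(Q.length / h : ℝ) * per (fun v : Fin Q.length => zQ Q v) t -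
      per (zz (rx Q h) (ry Q h)) t| ≤ 12 * Q.length := by
  have hh' : (0 : ℝ) < h := by exact_mod_cast hh
  have key : ∀ u v : Fin Q.length, |(Q.length / h : ℝ) * ‖zQ Q u - zQ Q v‖ -
      ‖zz (rx Q h) (ry Q h) u - zz (rx Q h) (ry Q h) v‖| ≤ 4 * Q.length := by
    intro u v
    have h1 : (Q.length / h : ℝ) * ‖zQ Q u - zQ Q v‖ =
        ‖((Q.length : ℝ) / h : ℂ) * zQ Q u - ((Q.length : ℝ) / h : ℂ) * zQ Q v‖ := by
      rw [← mul_sub, norm_mul]
      congr 1
      have e1 : (((Q.length : ℝ) / h : ℂ)) = (((Q.length : ℝ) / h : ℝ) : ℂ) := by push_cast; rfl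
      rw [e1, Complex.norm_real, Real.norm_eq_abs, abs_of_nonneg (by positivity)]
    rw [h1]
    refine (abs_norm_sub_norm_le _ _).trans ?_
    have h2 := round_err Q hh u
    have h3 := round_err Q hh v
    calc _ = ‖(((Q.length : ℝ) / h : ℂ) * zQ Q u - zz (rx Q h) (ry Q h) u) -
          (((Q.length : ℝ) / h : ℂ) * zQ Q v - zz (rx Q h) (ry Q h) v)‖ := by congr 1; ring
      _ ≤ _ := norm_sub_le _ _
      _ ≤ 4 * Q.length := by linarith
  unfold per
  have k1 := key t.1 t.2.1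
  have k2 := key t.2.1 t.2.2
  have k3 := key t.2.2 t.1
  rw [abs_le] at k1 k2 k3 ⊢
  constructor
  · nlinarith [k1.1, k2.1, k3.1]
  · nlinarith [k1.2, k2.2, k3.2]

/-- rounding changes costs only little -/
theorem cost_round (Q : List (ℕ × ℕ)) {h : ℕ} (hh : 0 < h)
    {π : Multiset (Fin Q.length × Fin Q.length × Fin Q.length)} (hπ : IsPart π) :
    |(Q.length / h : ℝ) * cost (fun v : Fin Q.length => zQ Q v) π -
      cost (zz (rx Q h) (ry Q h)) π| ≤ 4 * Q.length ^ 2 := by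
  have h1 : ∀ σ : Multiset (Fin Q.length × Fin Q.length × Fin Q.length),
      |(Q.length / h : ℝ) * cost (fun v : Fin Q.length => zQ Q v) σ -
      cost (zz (rx Q h) (ry Q h)) σ| ≤ 12 * Q.length * Multiset.card σ := by
    intro σ
    induction σ using Multiset.induction_on with
    | empty => simp
    | cons t σ ih =>
      rw [cost_cons, cost_cons, Multiset.card_cons]
      have h2 := per_round Q hh t
      rw [abs_le] at h2 ih ⊢
      push_cast
      constructor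
      · nlinarith [h2.1, ih.1]
      · nlinarith [h2.2, ih.2]
  have h2 := h1 π
  have h3 := hπ.card
  rw [Fintype.card_fin] at h3
  have h4 : (3 : ℝ) * Multiset.card π = Q.length := by exact_mod_cast h3
  refine h2.trans (le_of_eq ?_)
  rw [← h4]
  ring

end Pool.Agent.TH694.M3
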