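import Pool.Agent.TH694.M3.Fin1

/-!
# The dynamic programme finds a nearly optimal partition for a suitable shift
-/

set_option autoImplicit false

namespace Pool.Agent.TH694.M3

theorem pow_cast_div (n : ℕ) (i : ℕ) : ((n / 2 ^ i : ℕ) : ℤ) = (n : ℤ) / 2 ^ i := by
  push_cast
  rfl

theorem mem_cell_iff (Q : List (ℕ × ℕ)) (h a b j : ℕ) (u v : Fin Q.length) :
    (u : ℕ) ∈ cellL (rnd Q h a b) (2 ^ ((j + 1) / 2)) (2 ^ (j / 2)) v ↔
      cell D0 (fun v => rx Q h v + a) (fun v => ry Q h v + b) j u =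
        cell D0 (fun v => rx Q h v + a) (fun v => ry Q h v + b) j v := by
  obtain ⟨e1, e2⟩ := al_D0 j
  obtain ⟨u1, u2⟩ := rnd_getD Q h a b u
  obtain ⟨v1, v2⟩ := rnd_getD Q h a b v
  unfold cellL cell
  beta_reduce
  rw [List.mem_filter, List.mem_range, rnd_length, decide_eq_true_eq, Prod.mk.injEq, e1, e2,
    ← u1, ← u2, ← v1, ← v2, ← pow_cast_div, ← pow_cast_div, ← pow_cast_div, ← pow_cast_div,
    Nat.cast_inj, Nat.cast_inj]
  exact ⟨fun h => h.2, fun h => ⟨u.2, h⟩⟩

theorem touch_iff (Q : List (ℕ × ℕ)) (h a b j : ℕ) (t : Fin Q.length × Fin Q.length × Fin Q.length)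
    (v : Fin Q.length) :
    touch (st t) (cellL (rnd Q h a b) (2 ^ ((j + 1) / 2)) (2 ^ (j / 2)) v) ↔
      ∃ u ∈ pts t, cell D0 (fun v => rx Q h v + a) (fun v => ry Q h v + b) j u =
        cell D0 (fun v => rx Q h v + a) (fun v => ry Q h v + b) j v := by
  unfold st
  rw [touch_sort3, mem_cell_iff, mem_cell_iff, mem_cell_iff]
  constructor
  · rintro (h1 | h1 | h1)
    · exact ⟨_, mem_pts.2 (Or.inl rfl), h1⟩
    · exact ⟨_, mem_pts.2 (Or.inr (Or.inl rfl)), h1⟩
    · exact ⟨_, mem_pts.2 (Or.inr (Or.inr rfl)), h1⟩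
  · rintro ⟨u, hu, h1⟩
    rcases mem_pts.1 hu with rfl | rfl | rfl
    · exact Or.inl h1
    · exact Or.inr (Or.inl h1)
    · exact Or.inr (Or.inr h1)

theorem inside_iff (Q : List (ℕ × ℕ)) (h a b j : ℕ) (t : Fin Q.length × Fin Q.length × Fin Q.length)
    (v : Fin Q.length) :
    inside (st t) (cellL (rnd Q h a b) (2 ^ ((j + 1) / 2)) (2 ^ (j / 2)) v) ↔
      ∀ u ∈ pts t, cell D0 (fun v => rx Q h v + a) (fun v => ry Q h v + b) j u =
        cell D0 (fun v => rx Q h v + a) (fun v => ry Q h v + b) j v := by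
  unfold st
  rw [inside_sort3, mem_cell_iff, mem_cell_iff, mem_cell_iff]
  constructor
  · rintro ⟨h1, h2, h3⟩ u hu
    rcases mem_pts.1 hu with rfl | rfl | rfl
    · exact h1
    · exact h2
    · exact h3
  · intro h1
    exact ⟨h1 _ (mem_pts.2 (Or.inl rfl)), h1 _ (mem_pts.2 (Or.inr (Or.inl rfl))),
      h1 _ (mem_pts.2 (Or.inr (Or.inr rfl)))⟩

open Classical in
theorem dp_good (E : ℕ) (hE : 0 < E) : ∃ R : ℕ, ∀ (Q : List (ℕ × ℕ)) (h k N : ℕ),
    0 < Q.length → 0 < h → 2 ^ k ≤ N →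
    ∀ π : Multiset (Fin Q.length × Fin Q.length × Fin Q.length), IsPart π →
    cost (zz (rx Q h) (ry Q h)) π < 2 ^ k →
    ∃ a < N, ∃ b < N, ∃ S ∈ dp (wN Q) R N (rnd Q h a b),
      ((cw (wN Q) S : ℕ) : ℝ) ≤ (h / Q.length : ℝ) *
        ((1 + 1 / E) * cost (zz (rx Q h) (ry Q h)) π + 4 * Q.length ^ 2) := by
  obtain ⟨R, hR⟩ := structure_thm E hE
  refine ⟨R, ?_⟩
  intro Q h k N hm hh hkN π hπ hcost
  obtain ⟨π₀, hπ₀⟩ := exists_opt (zz (rx Q h) (ry Q h)) ⟨π, hπ⟩
  have hz : Function.Injective (zz (rx Q h) (ry Q h)) := by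
    intro u v huv
    have h1 := congrArg Complex.re huv
    simp only [zz] at h1
    exact rx_injective Q h (by exact_mod_cast h1)
  have hpos := cost_pos hz hπ₀.1 ⟨0, hm⟩
  have hle := hπ₀.2 π hπ
  obtain ⟨a, b, ha, hb, π', hπ', hcost', htop, hcross⟩ :=
    hR (Fin Q.length) (rx Q h) (ry Q h) π₀ hπ₀ hpos k (hle.trans_lt hcost)
  refine ⟨a, by omega, b, by omega, ?_⟩
  set X := rnd Q h a b with hX
  have hXl : X.length = Q.length := rnd_length Q h a b
  set F : Finset Trip := π'.toFinset.image st with hF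
  have hFmem : ∀ s, s ∈ F ↔ ∃ t ∈ π', st t = s := by
    intro s
    rw [hF, Finset.mem_image]
    simp only [Multiset.mem_toFinset]
  have hmt : ∀ t ∈ π', ∀ v : Fin Q.length, tmem (v : ℕ) (st t) ↔ v ∈ pts t := fun t _ v => tmem_st t v
  have htm : ∀ {v : ℕ} {t : Fin Q.length × Fin Q.length × Fin Q.length}, tmem v (st t) →
      ∃ u : Fin Q.length, (u : ℕ) = v := by
    intro v t hv
    unfold st at hv
    rw [tmem_sort3] at hv
    rcases hv with h1 | h1 | h1
    · exact ⟨_, h1.symm⟩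
    · exact ⟨_, h1.symm⟩
    · exact ⟨_, h1.symm⟩
  obtain ⟨S, hS, hle'⟩ := dp_complete (wN Q) R N X F.toList
    (by
      intro s hs
      rw [Finset.mem_toList, hFmem] at hs
      obtain ⟨t, ht, rfl⟩ := hs
      rw [mem_trips, hXl]
      obtain ⟨h1, h2, h3⟩ := hπ'.pts_nodup ht
      have h4 := sort3_lt (i := t.1) (j := t.2.1) (k := t.2.2) (fun h => h1 (Fin.ext h))
        (fun h => h2 (Fin.ext h)) (fun h => h3 (Fin.ext h))
      refine ⟨h4.1, h4.2, ?_⟩
      obtain ⟨u, hu⟩ := htm (v := (st t).1) (t := t) (Or.inl rfl)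
      rw [← hu]
      exact u.2)
    (Finset.nodup_toList F)
    (by
      intro v hv
      rw [hXl] at hv
      obtain ⟨t, ht, hvt⟩ := hπ'.exists_mem ⟨v, hv⟩
      refine ⟨st t, ⟨?_, ?_⟩, ?_⟩
      · rw [Finset.mem_toList, hFmem]; exact ⟨t, ht, rfl⟩
      · exact (tmem_st t ⟨v, hv⟩).2 hvt
      · rintro s ⟨hs, hvs⟩
        rw [Finset.mem_toList, hFmem] at hs
        obtain ⟨t', ht', rfl⟩ := hs
        have h1 := (tmem_st t' ⟨v, hv⟩).1 hvs
        rw [hπ'.unique ht ht' hvt h1])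
    (by
      intro u hu v hv huv
      rw [hXl] at hu hv
      have h1 := (rnd_getD Q h a b ⟨u, hu⟩).1
      have h2 := (rnd_getD Q h a b ⟨v, hv⟩).1
      rw [← hX] at h1 h2
      simp only at h1 h2
      rw [huv, h2] at h1
      have h3 : rx Q h ⟨u, hu⟩ = rx Q h ⟨v, hv⟩ := by linarith
      have h4 := rx_injective Q h h3
      simpa using h4)
    k hkN
    (by
      intro s hs
      rw [Finset.mem_toList, hFmem] at hs
      obtain ⟨t, ht, rfl⟩ := hs
      obtain ⟨u, hu⟩ := htm (v := (st t).1) (t := t) (Or.inl rfl)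
      have e1 : (2 * k + 1) / 2 = k := by omega
      have e2 : 2 * k / 2 = k := by omega
      have h1 := (inside_iff Q h a b (2 * k) t u).2
      rw [e1, e2, hu] at h1
      rw [hX]
      apply h1
      have hupts : u ∈ pts t := (tmem_st t u).1 (by rw [hu]; exact Or.inl rfl)
      intro w hw
      have h2 := (inC_iff _ _ _ _ t).1 (htop t ht)
      rw [h2 w hw, h2 u hupts])
    (by
      intro j _ v hv
      rw [hXl] at hv
      have h1 := hcross j (cell D0 (fun v => rx Q h v + a) (fun v => ry Q h v + b) j ⟨v, hv⟩)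
      refine le_trans ?_ h1
      rw [← List.countP_eq_length_filter, ← Multiset.coe_countP, Finset.coe_toList,
        Multiset.countP_eq_card_filter, Multiset.countP_eq_card_filter]
      change (F.filter _).card ≤ _
      have h2 : F.filter (fun s => touch s (cellL X (2 ^ ((j + 1) / 2)) (2 ^ (j / 2)) v) ∧
          ¬ inside s (cellL X (2 ^ ((j + 1) / 2)) (2 ^ (j / 2)) v)) ⊆
          (π'.filter (crossC D0 (fun v => rx Q h v + a) (fun v => ry Q h v + b) j
            (cell D0 (fun v => rx Q h v + a) (fun v => ry Q h v + b) j ⟨v, hv⟩))).toFinset.image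
            st := by
        intro s hs
        rw [Finset.mem_filter, hFmem] at hs
        obtain ⟨⟨t, ht, rfl⟩, hs1, hs2⟩ := hs
        rw [Finset.mem_image]
        refine ⟨t, ?_, rfl⟩
        rw [Multiset.mem_toFinset, Multiset.mem_filter]
        refine ⟨ht, ?_, ?_⟩
        · exact (touch_iff Q h a b j t ⟨v, hv⟩).1 hs1
        · have h3 := mt (inside_iff Q h a b j t ⟨v, hv⟩).2 hs2
          push Not at h3
          exact h3
      refine le_trans (Finset.card_le_card (subset_trans ?_ h2))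
        (le_trans Finset.card_image_le (Multiset.toFinset_card_le _))
      intro s hs
      rw [Finset.mem_filter] at hs ⊢
      refine ⟨hs.1, ?_⟩
      have := hs.2
      simpa using this)
  refine ⟨S, hS, ?_⟩
  -- the weight of `S`
  have hF1 : (cw (wN Q) F.toList : ℝ) ≤ cost (fun v : Fin Q.length => zQ Q v) π' := by
    have h1 : cw (wN Q) F.toList = ∑ s ∈ F, wN Q s := by
      unfold cw
      rw [Finset.sum_map_toList]
    rw [h1]
    have h2 : ∑ s ∈ F, wN Q s ≤ ∑ t ∈ π'.toFinset, wN Q (st t) :=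
      Finset.sum_image_le_of_nonneg (fun _ _ => Nat.zero_le _)
    have h3 : ((∑ t ∈ π'.toFinset, wN Q (st t) : ℕ) : ℝ) ≤
        ∑ t ∈ π'.toFinset, per (fun v : Fin Q.length => zQ Q v) t := by
      push_cast
      apply Finset.sum_le_sum
      intro t _
      exact wN_sort3_le Q t.1 t.2.1 t.2.2
    have h4 : ∑ t ∈ π'.toFinset, per (fun v : Fin Q.length => zQ Q v) t =
        cost (fun v : Fin Q.length => zQ Q v) π' := by
      unfold cost
      rw [Finset.sum, Multiset.toFinset_val, Multiset.dedup_eq_self.2 hπ'.nodup]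
    rw [← h4]
    refine le_trans ?_ h3
    exact_mod_cast h2
  have hr := cost_round Q hh hπ'
  have hh' : (0 : ℝ) < h := by exact_mod_cast hh
  have hm' : (0 : ℝ) < Q.length := by exact_mod_cast hm
  have h5 : (Q.length / h : ℝ) * cost (fun v : Fin Q.length => zQ Q v) π' ≤
      cost (zz (rx Q h) (ry Q h)) π' + 4 * Q.length ^ 2 := by
    have := (abs_le.1 hr).2
    linarith
  have h6 : cost (fun v : Fin Q.length => zQ Q v) π' ≤ (h / Q.length : ℝ) *
      (cost (zz (rx Q h) (ry Q h)) π' + 4 * Q.length ^ 2) := by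
    have h7 : cost (fun v : Fin Q.length => zQ Q v) π' = (h / Q.length : ℝ) *
        ((Q.length / h : ℝ) * cost (fun v : Fin Q.length => zQ Q v) π') := by
      field_simp
    rw [h7]
    exact mul_le_mul_of_nonneg_left h5 (by positivity)
  have h8 : ((cw (wN Q) S : ℕ) : ℝ) ≤ (cw (wN Q) F.toList : ℝ) := by exact_mod_cast hle'
  have hE' : (0 : ℝ) ≤ 1 + 1 / E := by positivity
  calc ((cw (wN Q) S : ℕ) : ℝ) ≤ cost (fun v : Fin Q.length => zQ Q v) π' := h8.trans hF1
    _ ≤ (h / Q.length : ℝ) * (cost (zz (rx Q h) (ry Q h)) π' + 4 * Q.length ^ 2) := h6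
    _ ≤ _ := by
      apply mul_le_mul_of_nonneg_left _ (by positivity)
      have h9 := mul_le_mul_of_nonneg_left hle hE'
      linarith

end Pool.Agent.TH694.M3
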