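import Pool.Agent.TH694.M3.Fin2

/-!
# The algorithm finds a nearly optimal partition of well separated points
-/

set_option autoImplicit false

namespace Pool.Agent.TH694.M3

/-- the total perimeter of a list of triples of indices -/
noncomputable def costL (z : ℕ → ℂ) (S : List Trip) : ℝ := (S.map (per z)).sum

theorem ad_le_norm1 (Q : List (ℕ × ℕ)) (i j : ℕ) :
    ((ad (Q.getD i (0, 0)).1 (Q.getD j (0, 0)).1 : ℕ) : ℝ) ≤ ‖zQ Q i - zQ Q j‖ := by
  rw [ad_cast]
  have h := Complex.abs_re_le_norm (zQ Q i - zQ Q j)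
  simpa [zQ] using h

theorem ad_le_norm2 (Q : List (ℕ × ℕ)) (i j : ℕ) :
    ((ad (Q.getD i (0, 0)).2 (Q.getD j (0, 0)).2 : ℕ) : ℝ) ≤ ‖zQ Q i - zQ Q j‖ := by
  rw [ad_cast]
  have h := Complex.abs_im_le_norm (zQ Q i - zQ Q j)
  simpa [zQ] using h

theorem dMax_le_norm (Q : List (ℕ × ℕ)) (i j : ℕ) :
    (dMax Q i j : ℝ) ≤ ‖zQ Q i - zQ Q j‖ := by
  unfold dMax
  rw [Nat.cast_max]
  exact max_le (ad_le_norm1 Q i j) (ad_le_norm2 Q i j)

theorem norm_le_dMax (Q : List (ℕ × ℕ)) (i j : ℕ) :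
    ‖zQ Q i - zQ Q j‖ ≤ 2 * (dMax Q i j : ℝ) := by
  have h := Complex.norm_le_abs_re_add_abs_im (zQ Q i - zQ Q j)
  have h1 : |(zQ Q i - zQ Q j).re| = ((ad (Q.getD i (0, 0)).1 (Q.getD j (0, 0)).1 : ℕ) : ℝ) := by
    rw [ad_cast]; simp [zQ]
  have h2 : |(zQ Q i - zQ Q j).im| = ((ad (Q.getD i (0, 0)).2 (Q.getD j (0, 0)).2 : ℕ) : ℝ) := by
    rw [ad_cast]; simp [zQ]
  rw [h1, h2] at h
  unfold dMax
  rw [Nat.cast_max]
  have h3 := le_max_left ((ad (Q.getD i (0, 0)).1 (Q.getD j (0, 0)).1 : ℕ) : ℝ)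
    ((ad (Q.getD i (0, 0)).2 (Q.getD j (0, 0)).2 : ℕ) : ℝ)
  have h4 := le_max_right ((ad (Q.getD i (0, 0)).1 (Q.getD j (0, 0)).1 : ℕ) : ℝ)
    ((ad (Q.getD i (0, 0)).2 (Q.getD j (0, 0)).2 : ℕ) : ℝ)
  linarith

theorem dMax_le_dN (Q : List (ℕ × ℕ)) (i j : ℕ) : dMax Q i j ≤ dN Q i j := by
  unfold dMax dN
  rw [Nat.le_sqrt]
  rcases le_total (ad (Q.getD i (0, 0)).1 (Q.getD j (0, 0)).1)
    (ad (Q.getD i (0, 0)).2 (Q.getD j (0, 0)).2) with h | h
  · rw [max_eq_right h]; omega
  · rw [max_eq_left h]; omega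

theorem dMax_self (Q : List (ℕ × ℕ)) (i : ℕ) : dMax Q i i = 0 := by
  unfold dMax ad
  simp

theorem exists_part {m : ℕ} (h : 3 ∣ m) :
    ∃ π : Multiset (Fin m × Fin m × Fin m), IsPart π := by
  refine ⟨↑(chunk3 (List.finRange m)), ?_⟩
  unfold IsPart
  rw [supp_chunk3]
  · rfl
  · rwa [List.length_finRange]

/-- A power of two between `B` and `2 B`. -/
theorem exists_pow_two (B : ℕ) (hB : 0 < B) : ∃ k : ℕ, B < 2 ^ k ∧ 2 ^ k ≤ 2 * B := by
  refine ⟨Nat.log 2 B + 1, Nat.lt_pow_succ_log_self (by norm_num) B, ?_⟩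
  rw [pow_succ, mul_comm]
  exact Nat.mul_le_mul_left 2 (Nat.pow_log_le_self 2 hB.ne')

theorem bigN_le (c m : ℕ) (hc : 0 < c) (k : ℕ)
    (hk : 2 ^ k ≤ 2 * (4 * c * m ^ 3 + 4 * m ^ 2 + 1)) : 2 ^ k ≤ bigN c m := by
  refine hk.trans ?_
  unfold bigN
  have h1 : m ^ 2 ≤ c * m ^ 2 := Nat.le_mul_of_pos_left _ hc
  nlinarith [h1, Nat.zero_le (c * m), Nat.zero_le (c * m ^ 3), Nat.zero_le (c * m ^ 2)]

/-- The main estimate for one partition. -/
theorem solve_aux {E c R : ℕ} (hE : 0 < E) (hc : 0 < c)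
    (hR : ∀ (Q : List (ℕ × ℕ)) (h k N : ℕ), 0 < Q.length → 0 < h → 2 ^ k ≤ N →
      ∀ π : Multiset (Fin Q.length × Fin Q.length × Fin Q.length), IsPart π →
      cost (zz (rx Q h) (ry Q h)) π < 2 ^ k →
      ∃ a < N, ∃ b < N, ∃ S ∈ dp (wN Q) R N (rnd Q h a b),
        ((cw (wN Q) S : ℕ) : ℝ) ≤ (h / Q.length : ℝ) *
          ((1 + 1 / E) * cost (zz (rx Q h) (ry Q h)) π + 4 * Q.length ^ 2))
    (Q : List (ℕ × ℕ)) (hm : 0 < Q.length)
    (hsep : ∀ i < Q.length, ∀ j < Q.length, i ≠ j → c * Q.length ≤ dMax Q i j)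
    (π : Multiset (Fin Q.length × Fin Q.length × Fin Q.length)) (hπ : IsPart π) :
    ∃ S ∈ cands c R (bigN c Q.length) Q,
      ((cw (wN Q) S : ℕ) : ℝ) ≤ (1 + 1 / E + 12 / c) * cost (fun v : Fin Q.length => zQ Q v) π := by
  classical
  set z : Fin Q.length → ℂ := fun v => zQ Q v with hz
  -- the longest edge
  have hE0 : (0 : ℝ) < E := by exact_mod_cast hE
  have hc0 : (0 : ℝ) < c := by exact_mod_cast hc
  have hm0 : (0 : ℝ) < Q.length := by exact_mod_cast hm
  have hne : (π.toFinset.biUnion (fun t => ({(t.1, t.2.1), (t.2.1, t.2.2), (t.2.2, t.1)} :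
      Finset (Fin Q.length × Fin Q.length)))).Nonempty := by
    obtain ⟨t, ht, -⟩ := hπ.exists_mem ⟨0, hm⟩
    exact ⟨(t.1, t.2.1), Finset.mem_biUnion.2 ⟨t, Multiset.mem_toFinset.2 ht, by simp⟩⟩
  obtain ⟨⟨i, j⟩, hij, hmax⟩ := Finset.exists_max_image _ (fun p => dMax Q p.1 p.2) hne
  set A := dMax Q i j with hA
  rw [Finset.mem_biUnion] at hij
  obtain ⟨t₀, ht₀, hij⟩ := hij
  rw [Multiset.mem_toFinset] at ht₀
  have hnd := hπ.pts_nodup ht₀
  have hijne : (i : ℕ) ≠ j := by
    intro h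
    have h' : i = j := Fin.ext h
    simp only [Finset.mem_insert, Finset.mem_singleton, Prod.mk.injEq] at hij
    rcases hij with ⟨h1, h2⟩ | ⟨h1, h2⟩ | ⟨h1, h2⟩
    · exact hnd.1 (by rw [← h1, ← h2, h'])
    · exact hnd.2.2 (by rw [← h1, ← h2, h'])
    · exact hnd.2.1 (by rw [← h1, ← h2, h'])
  have hAsep : c * Q.length ≤ A := hsep i i.2 j j.2 hijne
  have hcm : 0 < c * Q.length := Nat.mul_pos hc hm
  set h := A / (c * Q.length) with hh
  have hh1 : 0 < h := Nat.div_pos hAsep hcm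
  -- bounds
  have hAcost : (A : ℝ) ≤ cost z π := by
    obtain ⟨π₀, hπ₀⟩ := Multiset.exists_cons_of_mem ht₀
    have h3 : 0 ≤ cost z π₀ := by
      unfold cost
      apply Multiset.sum_nonneg
      intro a ha
      obtain ⟨s, -, rfl⟩ := Multiset.mem_map.1 ha
      exact per_nonneg _ _
    rw [hπ₀, cost_cons]
    have h4 : (A : ℝ) ≤ per z t₀ := by
      refine (dMax_le_norm Q i j).trans ?_
      unfold per
      have n1 := norm_nonneg (z t₀.1 - z t₀.2.1)
      have n2 := norm_nonneg (z t₀.2.1 - z t₀.2.2)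
      have n3 := norm_nonneg (z t₀.2.2 - z t₀.1)
      simp only [Finset.mem_insert, Finset.mem_singleton, Prod.mk.injEq] at hij
      rcases hij with ⟨rfl, rfl⟩ | ⟨rfl, rfl⟩ | ⟨rfl, rfl⟩
      · simp only [hz] at n1 n2 n3 ⊢; linarith
      · simp only [hz] at n1 n2 n3 ⊢; linarith
      · simp only [hz] at n1 n2 n3 ⊢; linarith
    linarith
  have hcostA : cost z π ≤ 2 * A * Q.length := by
    have h1 : ∀ t ∈ π, per z t ≤ 6 * A := by
      intro t ht
      have k1 := hmax (t.1, t.2.1) (Finset.mem_biUnion.2 ⟨t, Multiset.mem_toFinset.2 ht, by simp⟩)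
      have k2 := hmax (t.2.1, t.2.2) (Finset.mem_biUnion.2 ⟨t, Multiset.mem_toFinset.2 ht, by simp⟩)
      have k3 := hmax (t.2.2, t.1) (Finset.mem_biUnion.2 ⟨t, Multiset.mem_toFinset.2 ht, by simp⟩)
      have l1 : (dMax Q t.1 t.2.1 : ℝ) ≤ A := by exact_mod_cast k1
      have l2 : (dMax Q t.2.1 t.2.2 : ℝ) ≤ A := by exact_mod_cast k2
      have l3 : (dMax Q t.2.2 t.1 : ℝ) ≤ A := by exact_mod_cast k3
      have m1 := norm_le_dMax Q t.1 t.2.1
      have m2 := norm_le_dMax Q t.2.1 t.2.2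
      have m3 := norm_le_dMax Q t.2.2 t.1
      unfold per
      simp only [hz]
      linarith
    have h2 : cost z π ≤ Multiset.card π • (6 * (A : ℝ)) := by
      unfold cost
      have := Multiset.sum_le_card_nsmul (π.map (per z)) (6 * (A : ℝ)) (by
        intro a ha
        obtain ⟨s, hs, rfl⟩ := Multiset.mem_map.1 ha
        exact h1 s hs)
      rwa [Multiset.card_map] at this
    have h3 := hπ.card
    rw [Fintype.card_fin] at h3
    have h4 : (3 : ℝ) * Multiset.card π = Q.length := by exact_mod_cast h3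
    rw [nsmul_eq_mul] at h2
    rw [← h4]
    linarith
  have hhA : (h : ℝ) * (c * Q.length) ≤ A := by
    exact_mod_cast Nat.div_mul_le_self A (c * Q.length)
  have hAh : (A : ℝ) ≤ 2 * c * Q.length * h := by
    have h1 : A < (h + 1) * (c * Q.length) := by
      rw [add_mul, one_mul, hh]
      have h5 := Nat.div_add_mod A (c * Q.length)
      have h6 := Nat.mod_lt A hcm
      rw [mul_comm (A / (c * Q.length))]
      omega
    have h2 : (A : ℝ) < (h + 1) * (c * Q.length) := by exact_mod_cast h1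
    have h3 : (1 : ℝ) ≤ h := by exact_mod_cast hh1
    have h4 : (0 : ℝ) < c * Q.length := by positivity
    nlinarith
  have hh0 : (0 : ℝ) < h := by exact_mod_cast hh1
  have hround := cost_round Q hh1 hπ
  have hcost' : cost (zz (rx Q h) (ry Q h)) π ≤ (Q.length / h : ℝ) * cost z π + 4 * Q.length ^ 2 := by
    have := (abs_le.1 hround).1
    linarith
  have hcost2 : cost (zz (rx Q h) (ry Q h)) π ≤ 4 * c * Q.length ^ 3 + 4 * Q.length ^ 2 := by
    have h1 : (Q.length / h : ℝ) * cost z π ≤ (Q.length / h : ℝ) * (2 * (2 * c * Q.length * h) * Q.length) := by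
      apply mul_le_mul_of_nonneg_left _ (by positivity)
      refine hcostA.trans ?_
      apply mul_le_mul_of_nonneg_right _ hm0.le
      linarith
    have h2 : (Q.length / h : ℝ) * (2 * (2 * c * Q.length * h) * Q.length) = 4 * c * Q.length ^ 3 := by
      field_simp
      ring
    linarith
  obtain ⟨k, hk1, hk2⟩ := exists_pow_two (4 * c * Q.length ^ 3 + 4 * Q.length ^ 2 + 1) (by omega)
  have hk3 := bigN_le c Q.length hc k hk2
  obtain ⟨a, ha, b, hb, S, hS, hw⟩ := hR Q h k (bigN c Q.length) hm hh1 hk3 π hπ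
    (by
      have h1 : ((4 * c * Q.length ^ 3 + 4 * Q.length ^ 2 + 1 : ℕ) : ℝ) < ((2 ^ k : ℕ) : ℝ) := by
        exact_mod_cast hk1
      push_cast at h1
      linarith)
  refine ⟨S, ?_, ?_⟩
  · unfold cands
    rw [List.mem_flatMap]
    refine ⟨i, List.mem_range.2 i.2, ?_⟩
    rw [List.mem_flatMap]
    refine ⟨j, List.mem_range.2 j.2, ?_⟩
    rw [List.mem_flatMap]
    refine ⟨a, List.mem_range.2 ha, ?_⟩
    rw [List.mem_flatMap]
    exact ⟨b, List.mem_range.2 hb, hS⟩
  · refine hw.trans ?_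
    have h1 : (0 : ℝ) ≤ 1 + 1 / E := by positivity
    have h2 := mul_le_mul_of_nonneg_left hcost' h1
    have h3 : (h / Q.length : ℝ) * ((1 + 1 / E) * cost (zz (rx Q h) (ry Q h)) π + 4 * Q.length ^ 2) ≤
        (h / Q.length : ℝ) * ((1 + 1 / E) * ((Q.length / h : ℝ) * cost z π + 4 * Q.length ^ 2) + 4 * Q.length ^ 2) := by
      apply mul_le_mul_of_nonneg_left _ (by positivity)
      linarith
    have h4 : (h / Q.length : ℝ) * ((1 + 1 / E) * ((Q.length / h : ℝ) * cost z π + 4 * Q.length ^ 2) + 4 * Q.length ^ 2) =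
        (1 + 1 / E) * cost z π + (8 + 4 / E) * (h * Q.length) := by
      field_simp
      ring
    have h5 : (8 + 4 / (E : ℝ)) ≤ 12 := by
      have h6 : (1 : ℝ) ≤ E := by exact_mod_cast hE
      have h7 : 4 / (E : ℝ) ≤ 4 := by
        rw [div_le_iff₀ hE0]
        linarith
      linarith
    have h6 : (h : ℝ) * Q.length ≤ A / c := by
      rw [le_div_iff₀ hc0]
      linarith
    have h7 : (8 + 4 / (E : ℝ)) * (h * Q.length) ≤ 12 * (A / c) := by
      apply mul_le_mul h5 h6 (by positivity) (by norm_num)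
    have h8 : (A : ℝ) / c ≤ cost z π / c := div_le_div_of_nonneg_right hAcost hc0.le
    have h9 : (1 + 1 / (E : ℝ) + 12 / c) * cost z π = (1 + 1 / E) * cost z π + 12 * (cost z π / c) := by
      field_simp
    rw [h9]
    linarith

/-- Correctness of the algorithm. -/
theorem solve_correct (E : ℕ) (hE : 0 < E) : ∃ c R : ℕ, 0 < c ∧ ∀ Q : List (ℕ × ℕ), 3 ∣ Q.length →
    (∀ i < Q.length, ∀ j < Q.length, i ≠ j → c * Q.length ≤ dMax Q i j) →
    (solve c R Q).Sublist (trips Q.length) ∧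
    (∀ v < Q.length, ∃! t, t ∈ solve c R Q ∧ tmem v t) ∧
    ∀ π : Multiset (Fin Q.length × Fin Q.length × Fin Q.length), IsPart π →
      costL (zQ Q) (solve c R Q) ≤ (1 + 1 / E) * cost (fun v : Fin Q.length => zQ Q v) π := by
  obtain ⟨R, hR⟩ := dp_good (4 * E) (by omega)
  refine ⟨48 * E, R, by omega, ?_⟩
  intro Q h3 hsep
  have hE0 : (0 : ℝ) < E := by exact_mod_cast hE
  rcases Nat.eq_zero_or_pos Q.length with hm | hm
  · have hQ : Q = [] := List.length_eq_zero_iff.1 hm
    subst hQ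
    have h1 : solve (48 * E) R [] = [] := by
      unfold solve cands best
      simp
    rw [h1]
    refine ⟨List.nil_sublist _, ?_, ?_⟩
    · intro v hv
      simp at hv
    · intro π _
      unfold costL
      simp only [List.map_nil, List.sum_nil]
      have h3 : 0 ≤ cost (fun v : Fin ([] : List (ℕ × ℕ)).length => zQ [] v) π := by
        unfold cost
        apply Multiset.sum_nonneg
        intro a ha
        obtain ⟨s, -, rfl⟩ := Multiset.mem_map.1 ha
        exact per_nonneg _ _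
      positivity
  · have key := fun π hπ => solve_aux (E := 4 * E) (c := 48 * E) (R := R) (by omega) (by omega)
      (by
        intro Q h k N h1 h2 h3 π h4 h5
        have := hR Q h k N h1 h2 h3 π h4 h5
        exact this) Q hm hsep π hπ
    obtain ⟨π₁, hπ₁⟩ := exists_part h3
    obtain ⟨S₁, hS₁, -⟩ := key π₁ hπ₁
    obtain ⟨S, hS, -⟩ := J658.exists_best (w := wN Q) hS₁
    have hbest : best (wN Q) (cands (48 * E) R (bigN (48 * E) Q.length) Q) = [S] := by
      have h1 := J658.best_length_le (wN Q) (cands (48 * E) R (bigN (48 * E) Q.length) Q)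
      match hb : best (wN Q) (cands (48 * E) R (bigN (48 * E) Q.length) Q) with
      | [] => rw [hb] at hS; simp at hS
      | [x] => rw [hb] at hS; rw [List.mem_singleton] at hS; rw [hS]
      | x :: y :: l => rw [hb] at h1; simp at h1
    have hsolve : solve (48 * E) R Q = S := by
      unfold solve
      rw [hbest]
      simp
    rw [hsolve]
    have hSc := J658.mem_of_mem_best hS
    have hsound : S.Sublist (trips Q.length) ∧ ∀ v < Q.length, ∃! t, t ∈ S ∧ tmem v t := by
      unfold cands at hSc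
      simp only [List.mem_flatMap] at hSc
      obtain ⟨i, -, j, -, a, -, b, -, hS'⟩ := hSc
      have := dp_sound _ _ _ _ hS'
      rwa [rnd_length] at this
    refine ⟨hsound.1, hsound.2, ?_⟩
    intro π hπ
    obtain ⟨S₂, hS₂, hw₂⟩ := key π hπ
    obtain ⟨S', hS', hw'⟩ := J658.exists_best (w := wN Q) hS₂
    have : S' = S := by
      rw [hbest, List.mem_singleton] at hS'
      exact hS'
    subst this
    have hw : ((cw (wN Q) S' : ℕ) : ℝ) ≤ (cw (wN Q) S₂ : ℕ) := by exact_mod_cast hw'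
    have hcost0 : 0 ≤ cost (fun v : Fin Q.length => zQ Q v) π := by
      unfold cost
      apply Multiset.sum_nonneg
      intro a ha
      obtain ⟨s, -, rfl⟩ := Multiset.mem_map.1 ha
      exact per_nonneg _ _
    -- comparison of the approximate and the true weights
    have hper : ∀ t ∈ S', per (zQ Q) t ≤ (1 + 1 / (48 * E)) * wN Q t := by
      intro t ht
      obtain ⟨h1, h2, h3⟩ := mem_trips.1 (hsound.1.subset ht)
      have hedge : ∀ i < Q.length, ∀ j < Q.length, i ≠ j →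
          ‖zQ Q i - zQ Q j‖ ≤ (1 + 1 / (48 * (E : ℝ))) * dN Q i j := by
        intro i hi j hj hij
        have k1 := le_dN Q i j
        have k2 := hsep i hi j hj hij
        have k3 := dMax_le_dN Q i j
        have k4 : 48 * E ≤ dN Q i j := by
          refine le_trans ?_ (k2.trans k3)
          exact Nat.le_mul_of_pos_right _ hm
        have k5 : (48 * (E : ℝ)) ≤ dN Q i j := by exact_mod_cast k4
        have k6 : (1 : ℝ) ≤ 1 / (48 * (E : ℝ)) * dN Q i j := by
          rw [div_mul_eq_mul_div, one_mul, le_div_iff₀ (by positivity)]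
          linarith
        linarith
      have e1 := hedge t.1 h3 t.2.1 (by omega) (by omega)
      have e2 := hedge t.2.1 (by omega) t.2.2 (by omega) (by omega)
      have e3 := hedge t.2.2 (by omega) t.1 h3 (by omega)
      unfold per wN
      push_cast
      linarith
    have hsum : costL (zQ Q) S' ≤ (1 + 1 / (48 * E)) * (cw (wN Q) S' : ℕ) := by
      unfold costL cw
      rw [Nat.cast_list_sum, ← List.sum_map_mul_left, List.map_map]
      apply List.sum_le_sum
      intro t ht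
      exact hper t ht
    have hfac : (0 : ℝ) ≤ 1 + 1 / (48 * E) := by positivity
    calc costL (zQ Q) S' ≤ (1 + 1 / (48 * E)) * (cw (wN Q) S' : ℕ) := hsum
      _ ≤ (1 + 1 / (48 * E)) * ((1 + 1 / ((4 * E : ℕ) : ℝ) + 12 / ((48 * E : ℕ) : ℝ)) *
          cost (fun v : Fin Q.length => zQ Q v) π) :=
        mul_le_mul_of_nonneg_left (hw.trans hw₂) hfac
      _ = ((1 + 1 / (48 * E)) * (1 + 1 / ((4 * E : ℕ) : ℝ) + 12 / ((48 * E : ℕ) : ℝ))) *
          cost (fun v : Fin Q.length => zQ Q v) π := by ring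
      _ ≤ (1 + 1 / E) * cost (fun v : Fin Q.length => zQ Q v) π := by
        apply mul_le_mul_of_nonneg_right _ hcost0
        push_cast
        have h6 : (1 : ℝ) ≤ E := by exact_mod_cast hE
        have h7 : (1 + 1 / (48 * (E : ℝ))) * (1 + 1 / (4 * E) + 12 / (48 * E)) =
            1 + (1 / 2 + 1 / 48) / E + 1 / 96 / E / E := by
          field_simp
          ring
        rw [h7]
        have h8 : 1 / 96 / (E : ℝ) / E ≤ 1 / 96 / E := by
          apply div_le_self (by positivity) h6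
        have h9 : (1 / 2 + 1 / 48) / (E : ℝ) + 1 / 96 / E ≤ 1 / E := by
          rw [← add_div]
          apply div_le_div_of_nonneg_right _ hE0.le
          norm_num
        linarith

end Pool.Agent.TH694.M3
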