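import Pool.Agent.H601R2.PP
import Pool.Agent.NPC.Dec
import Pool.Agent.TH694.M3.Alg

/-!
# The algorithm runs in polynomial time
-/

set_option autoImplicit false

namespace Pool.Agent.TH694.M3

open Pool.Agent.NPC

theorem sz_sublist {β : Type} [TEnc β] {l l' : List β} (h : l.Sublist l') : sz l ≤ sz l' := by
  induction h with
  | slnil => exact le_rfl
  | cons a _ ih => simp; omega
  | cons_cons a _ ih => simp; omega

variable {α γ : Type} [TEnc α] [TEnc γ]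

theorem poly_take1 {β : Type} [TEnc β] {l : α → List β} (hl : NPC.Poly l) :
    NPC.Poly (fun a => (l a).take 1) := by
  refine (NPC.Poly.listCases (g := fun _ => ([] : List β)) (h := fun _ b _ => [b]) hl
    (NPC.Poly.const _) (NPC.Poly.cons (NPC.Poly.fst (NPC.Poly.snd NPC.Poly.id))
      (NPC.Poly.const _))).congr fun a => ?_
  cases l a <;> simp

theorem lift_w {w : α → Trip → ℕ} (hw : NPC.Poly (fun p : α × Trip => w p.1 p.2)) {f : γ → α}
    (hf : NPC.Poly f) : NPC.Poly (fun p : γ × Trip => w (f p.1) p.2) :=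
  hw.comp (NPC.Poly.pair (hf.comp (NPC.Poly.fst NPC.Poly.id)) (NPC.Poly.snd NPC.Poly.id))

theorem pp_tmem {v : α → ℕ} {t : α → Trip} (hv : NPC.Poly v) (ht : NPC.Poly t) :
    PP (fun a => tmem (v a) (t a)) := by
  unfold tmem
  exact PP.or (PP.eq hv (NPC.Poly.fst ht)) (PP.or (PP.eq hv (NPC.Poly.fst (NPC.Poly.snd ht)))
    (PP.eq hv (NPC.Poly.snd (NPC.Poly.snd ht))))

theorem pp_inside {P : α → List ℕ} {t : α → Trip} (ht : NPC.Poly t) (hP : NPC.Poly P) :
    PP (fun a => inside (t a) (P a)) := by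
  unfold inside
  exact PP.and (PP.mem (NPC.Poly.fst ht) hP) (PP.and (PP.mem (NPC.Poly.fst (NPC.Poly.snd ht)) hP)
    (PP.mem (NPC.Poly.snd (NPC.Poly.snd ht)) hP))

theorem pp_touch {P : α → List ℕ} {t : α → Trip} (ht : NPC.Poly t) (hP : NPC.Poly P) :
    PP (fun a => touch (t a) (P a)) := by
  unfold touch
  exact PP.or (PP.mem (NPC.Poly.fst ht) hP) (PP.or (PP.mem (NPC.Poly.fst (NPC.Poly.snd ht)) hP)
    (PP.mem (NPC.Poly.snd (NPC.Poly.snd ht)) hP))

theorem pp_imp {p q : α → Prop} (hp : PP p) (hq : PP q) : PP (fun a => p a → q a) :=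
  PP.congr (PP.or hp.not hq) fun a => by tauto

theorem poly_trips {m : α → ℕ} (hm : UPoly m) : NPC.Poly (fun a => trips (m a)) := by
  unfold trips
  refine NPC.Poly.flatMap (F := fun a i => (List.range (m a)).flatMap fun j =>
    ((List.range (m a)).filter fun k => decide (k < j ∧ j < i)).map fun k => (i, j, k)) hm.range ?_
  refine NPC.Poly.flatMap (F := fun (p : α × ℕ) j =>
    ((List.range (m p.1)).filter fun k => decide (k < j ∧ j < p.2)).map fun k => (p.2, j, k))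
    (hm.range.comp (NPC.Poly.fst NPC.Poly.id)) ?_
  refine NPC.Poly.map (F := fun (p : (α × ℕ) × ℕ) k => (p.1.2, p.2, k)) ?_ ?_
  · refine PP.filter (r := fun (p : (α × ℕ) × ℕ) k => k < p.2 ∧ p.2 < p.1.2)
      (hm.range.comp (NPC.Poly.fst (NPC.Poly.fst NPC.Poly.id))) ?_
    exact PP.and (PP.lt (NPC.Poly.snd NPC.Poly.id) (NPC.Poly.snd (NPC.Poly.fst NPC.Poly.id)))
      (PP.lt (NPC.Poly.snd (NPC.Poly.fst NPC.Poly.id))
        (NPC.Poly.snd (NPC.Poly.fst (NPC.Poly.fst NPC.Poly.id))))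
  · exact NPC.Poly.pair (NPC.Poly.snd (NPC.Poly.fst (NPC.Poly.fst NPC.Poly.id)))
      (NPC.Poly.pair (NPC.Poly.snd (NPC.Poly.fst NPC.Poly.id)) (NPC.Poly.snd NPC.Poly.id))

theorem poly_seqs {β : Type} [TEnc β] {V : α → List β} (hV : NPC.Poly V) :
    ∀ k : ℕ, NPC.Poly (fun a => seqs (V a) k)
  | 0 => NPC.Poly.const _
  | k + 1 => by
    have ih := poly_seqs hV k
    unfold seqs
    refine NPC.Poly.append ih (NPC.Poly.flatMap (F := fun a v => (seqs (V a) k).map (fun l => v :: l))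
      hV ?_)
    exact NPC.Poly.map (F := fun (p : α × β) l => p.2 :: l) (ih.comp (NPC.Poly.fst NPC.Poly.id))
      (NPC.Poly.cons (NPC.Poly.snd (NPC.Poly.fst NPC.Poly.id)) (NPC.Poly.snd NPC.Poly.id))

theorem poly_cw {w : α → Trip → ℕ} (hw : NPC.Poly (fun p : α × Trip => w p.1 p.2))
    {S : α → List Trip} (hS : NPC.Poly S) : NPC.Poly (fun a => cw (w a) (S a)) := by
  unfold cw
  exact NPC.Poly.sum (NPC.Poly.map (F := fun a t => w a t) hS hw)

theorem poly_best {w : α → Trip → ℕ} (hw : NPC.Poly (fun p : α × Trip => w p.1 p.2))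
    {l : α → List (List Trip)} (hl : NPC.Poly l) : NPC.Poly (fun a => best (w a) (l a)) := by
  unfold best
  refine poly_take1 (PP.filter (r := fun a S => ∀ S' ∈ l a, cw (w a) S ≤ cw (w a) S') hl ?_)
  refine PP.ball (r := fun (p : α × List Trip) S' => cw (w p.1) p.2 ≤ cw (w p.1) S')
    (hl.comp (NPC.Poly.fst NPC.Poly.id)) ?_
  exact PP.le
    (poly_cw (w := fun p : (α × List Trip) × List Trip => w p.1.1)
      (lift_w hw (NPC.Poly.fst (NPC.Poly.fst NPC.Poly.id))) (NPC.Poly.snd (NPC.Poly.fst NPC.Poly.id)))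
    (poly_cw (w := fun p : (α × List Trip) × List Trip => w p.1.1)
      (lift_w hw (NPC.Poly.fst (NPC.Poly.fst NPC.Poly.id))) (NPC.Poly.snd NPC.Poly.id))

theorem pp_full {K : α → Key} (hK : NPC.Poly K) : PP (fun a => Full (K a)) := by
  unfold Full
  have h1 : NPC.Poly (fun a => (K a).1) := NPC.Poly.fst hK
  have h2 : NPC.Poly (fun a => (K a).2) := NPC.Poly.snd hK
  refine PP.ball (r := fun a v => (∃ t ∈ (K a).2, tmem v t) ∧
    ∀ t ∈ (K a).2, ∀ t' ∈ (K a).2, tmem v t → tmem v t' → t = t') h1 ?_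
  refine PP.and ?_ ?_
  · exact PP.bex (r := fun (p : α × ℕ) t => tmem p.2 t) (h2.comp (NPC.Poly.fst NPC.Poly.id))
      (pp_tmem (NPC.Poly.snd (NPC.Poly.fst NPC.Poly.id)) (NPC.Poly.snd NPC.Poly.id))
  · refine PP.ball (r := fun (p : α × ℕ) t => ∀ t' ∈ (K p.1).2, tmem p.2 t → tmem p.2 t' → t = t')
      (h2.comp (NPC.Poly.fst NPC.Poly.id)) ?_
    refine PP.ball (r := fun (p : (α × ℕ) × Trip) t' => tmem p.1.2 p.2 → tmem p.1.2 t' → p.2 = t')
      (h2.comp (NPC.Poly.fst (NPC.Poly.fst NPC.Poly.id))) ?_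
    exact pp_imp
      (pp_tmem (NPC.Poly.snd (NPC.Poly.fst (NPC.Poly.fst NPC.Poly.id)))
        (NPC.Poly.snd (NPC.Poly.fst NPC.Poly.id)))
      (pp_imp (pp_tmem (NPC.Poly.snd (NPC.Poly.fst (NPC.Poly.fst NPC.Poly.id)))
        (NPC.Poly.snd NPC.Poly.id))
        (PP.eq (NPC.Poly.snd (NPC.Poly.fst NPC.Poly.id)) (NPC.Poly.snd NPC.Poly.id)))

theorem pp_comb {K K₁ K₂ : α → Key} (hK : NPC.Poly K) (hK₁ : NPC.Poly K₁) (hK₂ : NPC.Poly K₂) :
    PP (fun a => Comb (K a) (K₁ a) (K₂ a)) := by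
  unfold Comb
  have a1 : NPC.Poly (fun a => (K a).1) := NPC.Poly.fst hK
  have a2 : NPC.Poly (fun a => (K a).2) := NPC.Poly.snd hK
  have b1 : NPC.Poly (fun a => (K₁ a).1) := NPC.Poly.fst hK₁
  have b2 : NPC.Poly (fun a => (K₁ a).2) := NPC.Poly.snd hK₁
  have c1 : NPC.Poly (fun a => (K₂ a).1) := NPC.Poly.fst hK₂
  have c2 : NPC.Poly (fun a => (K₂ a).2) := NPC.Poly.snd hK₂
  have sub : ∀ {P P' : α → List ℕ}, NPC.Poly P → NPC.Poly P' →
      PP (fun a => ∀ v ∈ P a, v ∈ P' a) := fun {P P'} h h' =>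
    PP.ball (r := fun a v => v ∈ P' a) h (PP.mem (NPC.Poly.snd NPC.Poly.id)
      (h'.comp (NPC.Poly.fst NPC.Poly.id)))
  have tch : ∀ {T T' : α → List Trip} {P : α → List ℕ}, NPC.Poly T → NPC.Poly T' → NPC.Poly P →
      PP (fun a => ∀ t ∈ T a, touch t (P a) → t ∈ T' a) := fun {T T' P} h h' hP =>
    PP.ball (r := fun a t => touch t (P a) → t ∈ T' a) h
      (pp_imp (pp_touch (NPC.Poly.snd NPC.Poly.id) (hP.comp (NPC.Poly.fst NPC.Poly.id)))
        (PP.mem (NPC.Poly.snd NPC.Poly.id) (h'.comp (NPC.Poly.fst NPC.Poly.id))))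
  have ins : ∀ {T T' : α → List Trip} {P : α → List ℕ}, NPC.Poly T → NPC.Poly T' → NPC.Poly P →
      PP (fun a => ∀ t ∈ T a, t ∈ T' a ∨ inside t (P a)) := fun {T T' P} h h' hP =>
    PP.ball (r := fun a t => t ∈ T' a ∨ inside t (P a)) h
      (PP.or (PP.mem (NPC.Poly.snd NPC.Poly.id) (h'.comp (NPC.Poly.fst NPC.Poly.id)))
        (pp_inside (NPC.Poly.snd NPC.Poly.id) (hP.comp (NPC.Poly.fst NPC.Poly.id))))
  refine PP.and (PP.and (sub b1 a1) (sub c1 a1)) (PP.and (PP.and ?_ ?_)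
    (PP.and (PP.and (tch b2 c2 c1) (tch c2 b2 b1)) (PP.and (PP.and (ins b2 a2 a1) (ins c2 a2 a1))
      ?_)))
  · exact PP.ball (r := fun a v => v ∈ (K₁ a).1 ∨ v ∈ (K₂ a).1) a1
      (PP.or (PP.mem (NPC.Poly.snd NPC.Poly.id) (b1.comp (NPC.Poly.fst NPC.Poly.id)))
        (PP.mem (NPC.Poly.snd NPC.Poly.id) (c1.comp (NPC.Poly.fst NPC.Poly.id))))
  · exact PP.ball (r := fun a v => v ∉ (K₂ a).1) b1
      (PP.mem (NPC.Poly.snd NPC.Poly.id) (c1.comp (NPC.Poly.fst NPC.Poly.id))).not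
  · exact PP.ball (r := fun a t => touch t (K a).1 → t ∈ (K₁ a).2 ∨ t ∈ (K₂ a).2) a2
      (pp_imp (pp_touch (NPC.Poly.snd NPC.Poly.id) (a1.comp (NPC.Poly.fst NPC.Poly.id)))
        (PP.or (PP.mem (NPC.Poly.snd NPC.Poly.id) (b2.comp (NPC.Poly.fst NPC.Poly.id)))
          (PP.mem (NPC.Poly.snd NPC.Poly.id) (c2.comp (NPC.Poly.fst NPC.Poly.id)))))

theorem poly_base {K : α → Key} (hK : NPC.Poly K) : NPC.Poly (fun a => base (K a)) := by
  classical
  unfold base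
  exact PP.ite (inst := fun a => _) (pp_full hK) (NPC.Poly.const _) (NPC.Poly.const _)

theorem poly_glue {T T₁ T₂ S₁ S₂ : α → List Trip} {P : α → List ℕ} (hT : NPC.Poly T)
    (hP : NPC.Poly P) (hT₁ : NPC.Poly T₁) (hT₂ : NPC.Poly T₂) (hS₁ : NPC.Poly S₁)
    (hS₂ : NPC.Poly S₂) :
    NPC.Poly (fun a => glue (T a) (P a) (T₁ a) (T₂ a) (S₁ a) (S₂ a)) := by
  classical
  unfold glue
  refine PP.filter (inst := fun a t => _) (r := fun a t => t ∈ S₁ a ∨ t ∈ S₂ a ∨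
    ((t ∈ T₁ a ∨ t ∈ T₂ a) ∧ inside t (P a))) hT ?_
  have m : ∀ {L : α → List Trip}, NPC.Poly L → PP (fun p : α × Trip => p.2 ∈ L p.1) := fun {L} h =>
    PP.mem (NPC.Poly.snd NPC.Poly.id) (h.comp (NPC.Poly.fst NPC.Poly.id))
  exact PP.or (m hS₁) (PP.or (m hS₂) (PP.and (PP.or (m hT₁) (m hT₂))
    (pp_inside (NPC.Poly.snd NPC.Poly.id) (hP.comp (NPC.Poly.fst NPC.Poly.id)))))

theorem poly_combs {T : α → List Trip} {tab : α → List Entry} {K : α → Key} (hT : NPC.Poly T)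
    (htab : NPC.Poly tab) (hK : NPC.Poly K) :
    NPC.Poly (fun a => combs (T a) (tab a) (K a)) := by
  classical
  unfold combs
  refine NPC.Poly.flatMap (F := fun a (e₁ : Entry) => (tab a).flatMap fun e₂ =>
    if Comb (K a) e₁.1 e₂.1 then
      e₁.2.flatMap fun S₁ => e₂.2.map fun S₂ => glue (T a) (K a).1 e₁.1.2 e₂.1.2 S₁ S₂
    else []) htab ?_
  refine NPC.Poly.flatMap (F := fun (p : α × Entry) (e₂ : Entry) =>
    if Comb (K p.1) p.2.1 e₂.1 then
      p.2.2.flatMap fun S₁ => e₂.2.map fun S₂ => glue (T p.1) (K p.1).1 p.2.1.2 e₂.1.2 S₁ S₂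
    else []) (htab.comp (NPC.Poly.fst NPC.Poly.id)) ?_
  refine PP.ite (inst := fun a => _) (pp_comb (hK.comp (NPC.Poly.fst (NPC.Poly.fst NPC.Poly.id)))
    (NPC.Poly.fst (NPC.Poly.snd (NPC.Poly.fst NPC.Poly.id)))
    (NPC.Poly.fst (NPC.Poly.snd NPC.Poly.id))) ?_ (NPC.Poly.const _)
  refine NPC.Poly.flatMap (F := fun (p : (α × Entry) × Entry) (S₁ : List Trip) =>
    p.2.2.map fun S₂ => glue (T p.1.1) (K p.1.1).1 p.1.2.1.2 p.2.1.2 S₁ S₂)
    (NPC.Poly.snd (NPC.Poly.snd (NPC.Poly.fst NPC.Poly.id))) ?_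
  refine NPC.Poly.map (F := fun (p : ((α × Entry) × Entry) × List Trip) (S₂ : List Trip) =>
    glue (T p.1.1.1) (K p.1.1.1).1 p.1.1.2.1.2 p.1.2.1.2 p.2 S₂)
    (NPC.Poly.snd (NPC.Poly.snd (NPC.Poly.fst NPC.Poly.id))) ?_
  have q : NPC.Poly (fun p : (((α × Entry) × Entry) × List Trip) × List Trip => p.1.1.1.1) :=
    NPC.Poly.fst (NPC.Poly.fst (NPC.Poly.fst (NPC.Poly.fst NPC.Poly.id)))
  exact poly_glue (hT.comp q) (NPC.Poly.fst (hK.comp q))
    (NPC.Poly.snd (NPC.Poly.fst (NPC.Poly.snd (NPC.Poly.fst (NPC.Poly.fst (NPC.Poly.fst NPC.Poly.id))))))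
    (NPC.Poly.snd (NPC.Poly.fst (NPC.Poly.snd (NPC.Poly.fst (NPC.Poly.fst NPC.Poly.id)))))
    (NPC.Poly.snd (NPC.Poly.fst NPC.Poly.id)) (NPC.Poly.snd NPC.Poly.id)

theorem poly_stp {w : α → Trip → ℕ} (hw : NPC.Poly (fun p : α × Trip => w p.1 p.2))
    {T : α → List Trip} {tab : α → List Entry} (hT : NPC.Poly T) (htab : NPC.Poly tab) :
    NPC.Poly (fun a => stp (w a) (T a) (tab a)) := by
  unfold stp
  refine NPC.Poly.map (F := fun a (e : Entry) => (e.1, best (w a) (e.2 ++ combs (T a) (tab a) e.1)))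
    htab ?_
  refine NPC.Poly.pair (NPC.Poly.fst (NPC.Poly.snd NPC.Poly.id)) ?_
  exact poly_best (w := fun p : α × Entry => w p.1) (lift_w hw (NPC.Poly.fst NPC.Poly.id))
    (NPC.Poly.append (NPC.Poly.snd (NPC.Poly.snd NPC.Poly.id))
    (poly_combs (hT.comp (NPC.Poly.fst NPC.Poly.id)) (htab.comp (NPC.Poly.fst NPC.Poly.id))
      (NPC.Poly.fst (NPC.Poly.snd NPC.Poly.id))))

theorem poly_keys {T : α → List Trip} (R : ℕ) {cells : α → List (List ℕ)} (hT : NPC.Poly T)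
    (hc : NPC.Poly cells) : NPC.Poly (fun a => keys (T a) R (cells a)) := by
  unfold keys
  refine NPC.Poly.flatMap (F := fun a P => (seqs (T a) R).map fun S => (P, S)) hc ?_
  exact NPC.Poly.map (F := fun (p : α × List ℕ) S => (p.2, S))
    ((poly_seqs hT R).comp (NPC.Poly.fst NPC.Poly.id))
    (NPC.Poly.pair (NPC.Poly.snd (NPC.Poly.fst NPC.Poly.id)) (NPC.Poly.snd NPC.Poly.id))

theorem poly_tab0 {T : α → List Trip} (R : ℕ) {cells : α → List (List ℕ)} (hT : NPC.Poly T)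
    (hc : NPC.Poly cells) : NPC.Poly (fun a => tab0 (T a) R (cells a)) := by
  unfold tab0
  exact NPC.Poly.map (F := fun _ K => (K, base K)) (poly_keys R hT hc)
    (NPC.Poly.pair (NPC.Poly.snd NPC.Poly.id) (poly_base (NPC.Poly.snd NPC.Poly.id)))

/-- The shape of the table. -/
theorem tabr_shape (w : Trip → ℕ) (T : List Trip) (R : ℕ) (cells : List (List ℕ)) (r : ℕ) :
    ∃ val : Key → List (List Trip), tabr w T R cells r = (keys T R cells).map (fun K => (K, val K)) ∧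
      ∀ K, (val K).length ≤ 1 ∧ ∀ S ∈ val K, S.Sublist T := by
  classical
  induction r with
  | zero =>
    refine ⟨base, rfl, fun K => ?_⟩
    unfold base
    split_ifs
    · refine ⟨le_rfl, fun S hS => ?_⟩
      rw [List.mem_singleton.1 hS]
      exact List.nil_sublist _
    · exact ⟨Nat.zero_le _, fun S hS => by simp at hS⟩
  | succ r ih =>
    obtain ⟨val, h1, h2⟩ := ih
    refine ⟨fun K => best w (val K ++ combs T (tabr w T R cells r) K), ?_, fun K => ⟨?_, ?_⟩⟩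
    · have e : tabr w T R cells (r + 1) = stp w T (tabr w T R cells r) := by
        unfold tabr
        rw [Function.iterate_succ_apply']
      rw [e]
      unfold stp
      conv_lhs =>
        rw [h1, List.map_map]
      rw [← h1]
      rfl
    · unfold best
      simp
    · intro S hS
      unfold best at hS
      have hS1 := List.mem_of_mem_take hS
      have hS2 := (List.mem_filter.1 hS1).1
      rcases List.mem_append.1 hS2 with hS3 | hS3
      · exact (h2 K).2 S hS3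
      · unfold combs at hS3
        obtain ⟨e₁, -, hS4⟩ := List.mem_flatMap.1 hS3
        obtain ⟨e₂, -, hS5⟩ := List.mem_flatMap.1 hS4
        split_ifs at hS5
        · obtain ⟨S₁, -, hS6⟩ := List.mem_flatMap.1 hS5
          obtain ⟨S₂, -, rfl⟩ := List.mem_map.1 hS6
          unfold glue
          exact List.filter_sublist
        · simp at hS5

theorem sz_tabr (w : Trip → ℕ) (T : List Trip) (R : ℕ) (cells : List (List ℕ)) (r : ℕ) :
    sz (tabr w T R cells r) ≤ sz (keys T R cells) * (sz (keys T R cells) + sz T + 4) + 1 := by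
  obtain ⟨val, h1, h2⟩ := tabr_shape w T R cells r
  rw [h1]
  refine (sz_le_length_mul _ (sz (keys T R cells) + sz T + 3) ?_).trans ?_
  · intro e he
    obtain ⟨K, hK, rfl⟩ := List.mem_map.1 he
    rw [sz_pair]
    have e1 := sz_le_of_mem hK
    have e2 : sz (val K) ≤ sz T + 2 := by
      refine (sz_le_length_mul _ (sz T) fun S hS => sz_sublist ((h2 K).2 S hS)).trans ?_
      have := Nat.mul_le_mul_right (sz T + 1) (h2 K).1
      omega
    omega
  · rw [List.length_map]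
    have e1 := length_lt_sz (keys T R cells)
    exact Nat.add_le_add_right (Nat.mul_le_mul_right _ e1.le) 1

theorem poly_tabr {w : α → Trip → ℕ} (hw : NPC.Poly (fun p : α × Trip => w p.1 p.2))
    {T : α → List Trip} (R : ℕ) {cells : α → List (List ℕ)} {N : α → ℕ} (hT : NPC.Poly T)
    (hc : NPC.Poly cells) (hN : UPoly N) :
    NPC.Poly (fun a => tabr (w a) (T a) R (cells a) (N a)) := by
  obtain ⟨q1, hq1⟩ := (poly_keys R hT hc).sz_le
  obtain ⟨q2, hq2⟩ := hT.sz_le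
  have h1 : NPC.Poly (fun a => (stp (w a) (T a))^[(List.range (N a)).length]
      (tab0 (T a) R (cells a))) := by
    refine NPC.Poly.iterLen (l := fun a => List.range (N a)) (s := fun a => tab0 (T a) R (cells a))
      (F := fun a tab => stp (w a) (T a) tab) hN.range (poly_tab0 R hT hc)
      (poly_stp (w := fun p : α × List Entry => w p.1) (lift_w hw (NPC.Poly.fst NPC.Poly.id))
        (hT.comp (NPC.Poly.fst NPC.Poly.id)) (NPC.Poly.snd NPC.Poly.id))
      (q1 * (q1 + q2 + 4) + 1) ?_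
    intro a k _
    refine (sz_tabr (w a) (T a) R (cells a) k).trans ?_
    have e1 := hq1 a
    have e2 := hq2 a
    simp only [Polynomial.eval_add, Polynomial.eval_mul, Polynomial.eval_one,
      Polynomial.eval_ofNat]
    exact Nat.add_le_add_right (Nat.mul_le_mul e1 (by omega)) 1
  refine h1.congr fun a => ?_
  rw [List.length_range]
  rfl

theorem poly_pt {X : α → List (ℕ × ℕ)} {u : α → ℕ} (hX : NPC.Poly X) (hu : NPC.Poly u) :
    NPC.Poly (fun a => (X a).getD (u a) (0, 0)) := NPC.Poly.getD hX hu (NPC.Poly.const _)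

theorem poly_cellL {X : α → List (ℕ × ℕ)} {gx gy v : α → ℕ} (hX : NPC.Poly X)
    (hx : NPC.Poly gx) (hy : NPC.Poly gy) (hv : NPC.Poly v) :
    NPC.Poly (fun a => cellL (X a) (gx a) (gy a) (v a)) := by
  unfold cellL
  refine PP.filter (r := fun a u => ((X a).getD u (0, 0)).1 / gx a = ((X a).getD (v a) (0, 0)).1 / gx a ∧
      ((X a).getD u (0, 0)).2 / gy a = ((X a).getD (v a) (0, 0)).2 / gy a)
    (NPC.Poly.range_length hX) ?_
  have p0 : NPC.Poly (fun p : α × ℕ => (X p.1).getD p.2 (0, 0)) :=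
    poly_pt (hX.comp (NPC.Poly.fst NPC.Poly.id)) (NPC.Poly.snd NPC.Poly.id)
  have p1 : NPC.Poly (fun p : α × ℕ => (X p.1).getD (v p.1) (0, 0)) :=
    poly_pt (hX.comp (NPC.Poly.fst NPC.Poly.id)) (hv.comp (NPC.Poly.fst NPC.Poly.id))
  have hx' := hx.comp (NPC.Poly.fst (α := α × ℕ) NPC.Poly.id)
  have hy' := hy.comp (NPC.Poly.fst (α := α × ℕ) NPC.Poly.id)
  exact PP.and (PP.eq (NPC.Poly.div (NPC.Poly.fst p0) hx') (NPC.Poly.div (NPC.Poly.fst p1) hx'))
    (PP.eq (NPC.Poly.div (NPC.Poly.snd p0) hy') (NPC.Poly.div (NPC.Poly.snd p1) hy'))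

theorem upoly_succ {N : α → ℕ} (hN : UPoly N) : UPoly (fun a => N a + 1) := hN.add (UPoly.const 1)

theorem poly_cells {X : α → List (ℕ × ℕ)} {N : α → ℕ} (hN : UPoly N) (hX : NPC.Poly X) :
    NPC.Poly (fun a => cells (N a) (X a)) := by
  unfold cells
  refine NPC.Poly.flatMap (F := fun a gx => (List.range (N a + 1)).flatMap fun gy =>
    (List.range (X a).length).map fun v => cellL (X a) gx gy v) (upoly_succ hN).range ?_
  refine NPC.Poly.flatMap (F := fun (p : α × ℕ) gy =>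
    (List.range (X p.1).length).map fun v => cellL (X p.1) p.2 gy v)
    ((upoly_succ hN).range.comp (NPC.Poly.fst NPC.Poly.id)) ?_
  refine NPC.Poly.map (F := fun (p : (α × ℕ) × ℕ) v => cellL (X p.1.1) p.1.2 p.2 v)
    ((NPC.Poly.range_length hX).comp (NPC.Poly.fst (NPC.Poly.fst NPC.Poly.id))) ?_
  exact poly_cellL (hX.comp (NPC.Poly.fst (NPC.Poly.fst (NPC.Poly.fst NPC.Poly.id))))
    (NPC.Poly.snd (NPC.Poly.fst (NPC.Poly.fst NPC.Poly.id))) (NPC.Poly.snd (NPC.Poly.fst NPC.Poly.id))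
    (NPC.Poly.snd NPC.Poly.id)

theorem pp_okS {tab : α → List Entry} {X : α → List (ℕ × ℕ)} {G : α → ℕ} (htab : NPC.Poly tab)
    (hX : NPC.Poly X) (hG : NPC.Poly G) : PP (fun a => okS (tab a) (X a) (G a)) := by
  unfold okS
  refine PP.ball (r := fun a v => ∃ e ∈ tab a, e.1 = (cellL (X a) (G a) (G a) v, []) ∧ e.2 ≠ [])
    (NPC.Poly.range_length hX) ?_
  refine PP.bex (r := fun (p : α × ℕ) (e : Entry) =>
    e.1 = (cellL (X p.1) (G p.1) (G p.1) p.2, []) ∧ e.2 ≠ []) (htab.comp (NPC.Poly.fst NPC.Poly.id)) ?_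
  have q : NPC.Poly (fun p : (α × ℕ) × Entry => p.1.1) := NPC.Poly.fst (NPC.Poly.fst NPC.Poly.id)
  exact PP.and (PP.eq (NPC.Poly.fst (NPC.Poly.snd NPC.Poly.id))
    (NPC.Poly.pair (poly_cellL (hX.comp q) (hG.comp q) (hG.comp q)
      (NPC.Poly.snd (NPC.Poly.fst NPC.Poly.id))) (NPC.Poly.const _)))
    (PP.ne (NPC.Poly.snd (NPC.Poly.snd NPC.Poly.id)) (NPC.Poly.const _))

theorem poly_outS {T : α → List Trip} {tab : α → List Entry} {X : α → List (ℕ × ℕ)} {G : α → ℕ}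
    (hT : NPC.Poly T) (htab : NPC.Poly tab) (hX : NPC.Poly X) (hG : NPC.Poly G) :
    NPC.Poly (fun a => outS (T a) (tab a) (X a) (G a)) := by
  classical
  unfold outS
  refine PP.filter (inst := fun a t => _) (r := fun a t => ∃ v ∈ List.range (X a).length,
    ∃ e ∈ tab a, e.1 = (cellL (X a) (G a) (G a) v, []) ∧ ∃ S ∈ e.2, t ∈ S) hT ?_
  refine PP.bex (r := fun (p : α × Trip) v => ∃ e ∈ tab p.1,
    e.1 = (cellL (X p.1) (G p.1) (G p.1) v, []) ∧ ∃ S ∈ e.2, p.2 ∈ S)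
    ((NPC.Poly.range_length hX).comp (NPC.Poly.fst NPC.Poly.id)) ?_
  refine PP.bex (r := fun (p : (α × Trip) × ℕ) (e : Entry) =>
    e.1 = (cellL (X p.1.1) (G p.1.1) (G p.1.1) p.2, []) ∧ ∃ S ∈ e.2, p.1.2 ∈ S)
    (htab.comp (NPC.Poly.fst (NPC.Poly.fst NPC.Poly.id))) ?_
  have q : NPC.Poly (fun p : ((α × Trip) × ℕ) × Entry => p.1.1.1) :=
    NPC.Poly.fst (NPC.Poly.fst (NPC.Poly.fst NPC.Poly.id))
  refine PP.and (PP.eq (NPC.Poly.fst (NPC.Poly.snd NPC.Poly.id))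
    (NPC.Poly.pair (poly_cellL (hX.comp q) (hG.comp q) (hG.comp q)
      (NPC.Poly.snd (NPC.Poly.fst NPC.Poly.id))) (NPC.Poly.const _))) ?_
  exact PP.bex (r := fun (p : ((α × Trip) × ℕ) × Entry) (S : List Trip) => p.1.1.2 ∈ S)
    (NPC.Poly.snd (NPC.Poly.snd NPC.Poly.id))
    (PP.mem (NPC.Poly.snd (NPC.Poly.fst (NPC.Poly.fst (NPC.Poly.fst NPC.Poly.id))))
      (NPC.Poly.snd NPC.Poly.id))

theorem poly_outs {T : α → List Trip} {tab : α → List Entry} {X : α → List (ℕ × ℕ)} {N : α → ℕ}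
    (hT : NPC.Poly T) (htab : NPC.Poly tab) (hN : UPoly N) (hX : NPC.Poly X) :
    NPC.Poly (fun a => outs (T a) (tab a) (N a) (X a)) := by
  classical
  unfold outs
  refine NPC.Poly.flatMap (F := fun a G => if okS (tab a) (X a) G then [outS (T a) (tab a) (X a) G]
    else []) (upoly_succ hN).range ?_
  have q : NPC.Poly (fun p : α × ℕ => p.1) := NPC.Poly.fst NPC.Poly.id
  exact PP.ite (inst := fun a => _) (pp_okS (htab.comp q) (hX.comp q) (NPC.Poly.snd NPC.Poly.id))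
    (NPC.Poly.cons (poly_outS (hT.comp q) (htab.comp q) (hX.comp q) (NPC.Poly.snd NPC.Poly.id))
      (NPC.Poly.const _)) (NPC.Poly.const _)

theorem poly_dp {w : α → Trip → ℕ} (hw : NPC.Poly (fun p : α × Trip => w p.1 p.2)) (R : ℕ)
    {N : α → ℕ} {X : α → List (ℕ × ℕ)} (hN : UPoly N) (hX : NPC.Poly X) :
    NPC.Poly (fun a => dp (w a) R (N a) (X a)) := by
  unfold dp
  have hT : NPC.Poly (fun a => trips (X a).length) := poly_trips (UPoly.length hX)
  exact poly_outs hT (poly_tabr hw R hT (poly_cells hN hX) hN) hN hX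

theorem poly_ad {x y : α → ℕ} (hx : NPC.Poly x) (hy : NPC.Poly y) :
    NPC.Poly (fun a => ad (x a) (y a)) := by
  unfold ad
  exact NPC.Poly.add (NPC.Poly.sub hx hy) (NPC.Poly.sub hy hx)

theorem poly_dN (hsqrt : NPC.Poly (fun n : ℕ => Nat.sqrt n)) {Q : α → List (ℕ × ℕ)} {i j : α → ℕ}
    (hQ : NPC.Poly Q) (hi : NPC.Poly i) (hj : NPC.Poly j) :
    NPC.Poly (fun a => dN (Q a) (i a) (j a)) := by
  unfold dN
  have pi := poly_pt hQ hi
  have pj := poly_pt hQ hj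
  have h1 := poly_ad (NPC.Poly.fst pi) (NPC.Poly.fst pj)
  have h2 := poly_ad (NPC.Poly.snd pi) (NPC.Poly.snd pj)
  exact hsqrt.comp (NPC.Poly.add (NPC.Poly.mul h1 h1) (NPC.Poly.mul h2 h2))

theorem poly_dMax {Q : α → List (ℕ × ℕ)} {i j : α → ℕ}
    (hQ : NPC.Poly Q) (hi : NPC.Poly i) (hj : NPC.Poly j) :
    NPC.Poly (fun a => dMax (Q a) (i a) (j a)) := by
  unfold dMax
  have pi := poly_pt hQ hi
  have pj := poly_pt hQ hj
  exact NPC.Poly.max (poly_ad (NPC.Poly.fst pi) (NPC.Poly.fst pj))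
    (poly_ad (NPC.Poly.snd pi) (NPC.Poly.snd pj))

theorem poly_wN (hsqrt : NPC.Poly (fun n : ℕ => Nat.sqrt n)) {Q : α → List (ℕ × ℕ)}
    (hQ : NPC.Poly Q) : NPC.Poly (fun p : α × Trip => wN (Q p.1) p.2) := by
  unfold wN
  have hQ' : NPC.Poly (fun p : α × Trip => Q p.1) := hQ.comp (NPC.Poly.fst NPC.Poly.id)
  have t1 : NPC.Poly (fun p : α × Trip => p.2.1) := NPC.Poly.fst (NPC.Poly.snd NPC.Poly.id)
  have t2 : NPC.Poly (fun p : α × Trip => p.2.2.1) :=
    NPC.Poly.fst (NPC.Poly.snd (NPC.Poly.snd NPC.Poly.id))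
  have t3 : NPC.Poly (fun p : α × Trip => p.2.2.2) :=
    NPC.Poly.snd (NPC.Poly.snd (NPC.Poly.snd NPC.Poly.id))
  exact NPC.Poly.add (NPC.Poly.add (poly_dN hsqrt hQ' t1 t2) (poly_dN hsqrt hQ' t2 t3))
    (poly_dN hsqrt hQ' t3 t1)

theorem poly_rnd {Q : α → List (ℕ × ℕ)} {h a b : α → ℕ} (hQ : NPC.Poly Q) (hh : NPC.Poly h)
    (ha : NPC.Poly a) (hb : NPC.Poly b) : NPC.Poly (fun x => rnd (Q x) (h x) (a x) (b x)) := by
  unfold rnd
  refine NPC.Poly.map (F := fun x v =>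
    ((Q x).length * (((Q x).getD v (0, 0)).1 / h x) + v + a x,
      (Q x).length * (((Q x).getD v (0, 0)).2 / h x) + b x)) (NPC.Poly.range_length hQ) ?_
  have q : NPC.Poly (fun p : α × ℕ => p.1) := NPC.Poly.fst NPC.Poly.id
  have pv : NPC.Poly (fun p : α × ℕ => (Q p.1).getD p.2 (0, 0)) :=
    poly_pt (hQ.comp q) (NPC.Poly.snd NPC.Poly.id)
  have L : NPC.Poly (fun p : α × ℕ => (Q p.1).length) := NPC.Poly.length (hQ.comp q)
  exact NPC.Poly.pair (NPC.Poly.add (NPC.Poly.add (NPC.Poly.mul L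
      (NPC.Poly.div (NPC.Poly.fst pv) (hh.comp q))) (NPC.Poly.snd NPC.Poly.id)) (ha.comp q))
    (NPC.Poly.add (NPC.Poly.mul L (NPC.Poly.div (NPC.Poly.snd pv) (hh.comp q))) (hb.comp q))

theorem poly_cand1 (hsqrt : NPC.Poly (fun n : ℕ => Nat.sqrt n)) (c R : ℕ)
    {N i j a b : α → ℕ} {Q : α → List (ℕ × ℕ)} (hN : UPoly N) (hQ : NPC.Poly Q) (hi : NPC.Poly i)
    (hj : NPC.Poly j) (ha : NPC.Poly a) (hb : NPC.Poly b) :
    NPC.Poly (fun x => dp (wN (Q x)) R (N x)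
      (rnd (Q x) (dMax (Q x) (i x) (j x) / (c * (Q x).length)) (a x) (b x))) :=
  poly_dp (w := fun x => wN (Q x)) (poly_wN hsqrt hQ) R hN
    (poly_rnd hQ (NPC.Poly.div (poly_dMax hQ hi hj)
      (NPC.Poly.mul (NPC.Poly.const c) (NPC.Poly.length hQ))) ha hb)

theorem poly_cand2 (hsqrt : NPC.Poly (fun n : ℕ => Nat.sqrt n)) (c R : ℕ)
    {N i j a : α → ℕ} {Q : α → List (ℕ × ℕ)} (hN : UPoly N) (hQ : NPC.Poly Q) (hi : NPC.Poly i)
    (hj : NPC.Poly j) (ha : NPC.Poly a) :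
    NPC.Poly (fun x => (List.range (N x)).flatMap fun b => dp (wN (Q x)) R (N x)
      (rnd (Q x) (dMax (Q x) (i x) (j x) / (c * (Q x).length)) (a x) b)) := by
  have q : NPC.Poly (fun p : α × ℕ => p.1) := NPC.Poly.fst NPC.Poly.id
  exact NPC.Poly.flatMap (F := fun x b => dp (wN (Q x)) R (N x)
      (rnd (Q x) (dMax (Q x) (i x) (j x) / (c * (Q x).length)) (a x) b)) hN.range
    (poly_cand1 (α := α × ℕ) hsqrt c R (N := fun p => N p.1) (i := fun p => i p.1)
      (j := fun p => j p.1) (a := fun p => a p.1) (b := fun p => p.2) (Q := fun p => Q p.1)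
      (hN.comp q) (hQ.comp q) (hi.comp q) (hj.comp q) (ha.comp q) (NPC.Poly.snd NPC.Poly.id))

theorem poly_cand3 (hsqrt : NPC.Poly (fun n : ℕ => Nat.sqrt n)) (c R : ℕ)
    {N i j : α → ℕ} {Q : α → List (ℕ × ℕ)} (hN : UPoly N) (hQ : NPC.Poly Q) (hi : NPC.Poly i)
    (hj : NPC.Poly j) :
    NPC.Poly (fun x => (List.range (N x)).flatMap fun a =>
      (List.range (N x)).flatMap fun b => dp (wN (Q x)) R (N x)
      (rnd (Q x) (dMax (Q x) (i x) (j x) / (c * (Q x).length)) a b)) := by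
  have q : NPC.Poly (fun p : α × ℕ => p.1) := NPC.Poly.fst NPC.Poly.id
  exact NPC.Poly.flatMap (F := fun x a => (List.range (N x)).flatMap fun b => dp (wN (Q x)) R (N x)
      (rnd (Q x) (dMax (Q x) (i x) (j x) / (c * (Q x).length)) a b)) hN.range
    (poly_cand2 (α := α × ℕ) hsqrt c R (N := fun p => N p.1) (i := fun p => i p.1)
      (j := fun p => j p.1) (a := fun p => p.2) (Q := fun p => Q p.1)
      (hN.comp q) (hQ.comp q) (hi.comp q) (hj.comp q) (NPC.Poly.snd NPC.Poly.id))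

theorem poly_cand4 (hsqrt : NPC.Poly (fun n : ℕ => Nat.sqrt n)) (c R : ℕ)
    {N i : α → ℕ} {Q : α → List (ℕ × ℕ)} (hN : UPoly N) (hQ : NPC.Poly Q) (hi : NPC.Poly i) :
    NPC.Poly (fun x => (List.range (Q x).length).flatMap fun j =>
      (List.range (N x)).flatMap fun a =>
      (List.range (N x)).flatMap fun b => dp (wN (Q x)) R (N x)
      (rnd (Q x) (dMax (Q x) (i x) j / (c * (Q x).length)) a b)) := by
  have q : NPC.Poly (fun p : α × ℕ => p.1) := NPC.Poly.fst NPC.Poly.id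
  exact NPC.Poly.flatMap (F := fun x j => (List.range (N x)).flatMap fun a =>
      (List.range (N x)).flatMap fun b => dp (wN (Q x)) R (N x)
      (rnd (Q x) (dMax (Q x) (i x) j / (c * (Q x).length)) a b)) (NPC.Poly.range_length hQ)
    (poly_cand3 (α := α × ℕ) hsqrt c R (N := fun p => N p.1) (i := fun p => i p.1)
      (j := fun p => p.2) (Q := fun p => Q p.1)
      (hN.comp q) (hQ.comp q) (hi.comp q) (NPC.Poly.snd NPC.Poly.id))

theorem poly_cands (hsqrt : NPC.Poly (fun n : ℕ => Nat.sqrt n)) (c R : ℕ) {N : α → ℕ}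
    {Q : α → List (ℕ × ℕ)} (hN : UPoly N) (hQ : NPC.Poly Q) :
    NPC.Poly (fun x => cands c R (N x) (Q x)) := by
  have q : NPC.Poly (fun p : α × ℕ => p.1) := NPC.Poly.fst NPC.Poly.id
  unfold cands
  exact NPC.Poly.flatMap (F := fun x i => (List.range (Q x).length).flatMap fun j =>
      (List.range (N x)).flatMap fun a =>
      (List.range (N x)).flatMap fun b => dp (wN (Q x)) R (N x)
      (rnd (Q x) (dMax (Q x) i j / (c * (Q x).length)) a b)) (NPC.Poly.range_length hQ)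
    (poly_cand4 (α := α × ℕ) hsqrt c R (N := fun p => N p.1) (i := fun p => p.2)
      (Q := fun p => Q p.1) (hN.comp q) (hQ.comp q) (NPC.Poly.snd NPC.Poly.id))

theorem upoly_bigN (c : ℕ) {m : α → ℕ} (hm : UPoly m) : UPoly (fun a => bigN c (m a)) := by
  unfold bigN
  have h := upoly_succ hm
  exact (UPoly.const (16 * c)).mul ((h.mul h).mul h)

/-- The algorithm runs in polynomial time. -/
theorem poly_solve (hsqrt : NPC.Poly (fun n : ℕ => Nat.sqrt n)) (c R : ℕ) :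
    NPC.Poly (fun Q : List (ℕ × ℕ) => solve c R Q) := by
  have hid : NPC.Poly (fun Q : List (ℕ × ℕ) => Q) := NPC.Poly.id
  have hl : UPoly (fun Q : List (ℕ × ℕ) => Q.length) := UPoly.length hid
  have hN : UPoly (fun Q : List (ℕ × ℕ) => bigN c Q.length) :=
    upoly_bigN c (m := fun Q : List (ℕ × ℕ) => Q.length) hl
  have hc : NPC.Poly (fun Q : List (ℕ × ℕ) => cands c R (bigN c Q.length) Q) :=
    poly_cands hsqrt c R (N := fun Q : List (ℕ × ℕ) => bigN c Q.length) (Q := fun Q => Q) hN hid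
  have hw : NPC.Poly (fun p : List (ℕ × ℕ) × Trip => wN p.1 p.2) :=
    poly_wN hsqrt (Q := fun Q : List (ℕ × ℕ) => Q) hid
  have hb : NPC.Poly (fun Q : List (ℕ × ℕ) => best (wN Q) (cands c R (bigN c Q.length) Q)) :=
    poly_best (w := fun Q : List (ℕ × ℕ) => wN Q) hw hc
  exact NPC.Poly.flatten hb

end Pool.Agent.TH694.M3
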