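import Pool.Agent.TH694.M3.Scale
import Pool.Agent.TH694.M3.Time
import Pool.Agent.TH817.J611
import Pool.Agent.H670R2.RatDec

/-!
# The algorithm for rational points runs in polynomial time
-/

set_option autoImplicit false

namespace Pool.Agent.TH694.M3

open Pool.Agent.NPC Pool.Agent.NPC.H670R2

variable {α : Type} [TEnc α]

theorem poly_prodN {l : α → List ℕ} (hl : NPC.Poly l) : NPC.Poly (fun a => (l a).prod) := by
  obtain ⟨r, hr⟩ := hl.sz_le
  refine (NPC.Poly.foldr (s := fun _ => 1) (F := fun _ x s => x * s) hl (NPC.Poly.const 1)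
    (NPC.Poly.mul (NPC.Poly.fst (NPC.Poly.snd NPC.Poly.id)) (NPC.Poly.snd (NPC.Poly.snd NPC.Poly.id)))
    (Polynomial.C 4 * r + Polynomial.C 1) ?_).congr fun a => ?_
  · intro a k hk
    have key : ∀ l : List ℕ, (l.foldr (fun x s => x * s) 1).size ≤ sz l := by
      intro l
      induction l with
      | nil => simp
      | cons x l ih =>
        rw [List.foldr_cons]
        set s := l.foldr (fun x s => x * s) 1
        have h1 := Nat.lt_size_self x
        have h2 := Nat.lt_size_self s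
        have h3 : x * s < 2 ^ (x.size + s.size) := by
          rw [pow_add]
          exact Nat.mul_lt_mul'' h1 h2
        have h4 := Nat.size_le.2 h3
        have h5 := size_le_sz x
        simp
        omega
    have h1 := sz_nat_le (((l a).drop k).foldr (fun x s => x * s) 1)
    have h2 := key ((l a).drop k)
    have h3 := NPC.Poly.sz_drop_le (l a) k
    have h4 := hr a
    simp only [Polynomial.eval_add, Polynomial.eval_mul, Polynomial.eval_C]
    omega
  · induction l a with
    | nil => rfl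
    | cons x l ih => rw [List.foldr_cons, ih, List.prod_cons]

theorem poly_zq {D : α → ℕ} {q : α → ℚ} (hD : NPC.Poly D) (hq : NPC.Poly q) :
    NPC.Poly (fun a => zq (D a) (q a)) := by
  unfold zq
  exact NPC.Poly.imul (poly_num hq) (NPC.Poly.natCast (NPC.Poly.div hD (poly_den hq)))

theorem poly_den2 {P : α → List PtQ} (hP : NPC.Poly P) : NPC.Poly (fun a => den2 (P a)) := by
  unfold den2
  exact poly_prodN (NPC.Poly.map (F := fun _ (p : PtQ) => p.1.den * p.2.den) hP
    (NPC.Poly.mul (poly_den (NPC.Poly.fst (NPC.Poly.snd NPC.Poly.id)))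
      (poly_den (NPC.Poly.snd (NPC.Poly.snd NPC.Poly.id)))))

theorem poly_offs {D : α → ℕ} {P : α → List PtQ} (hD : NPC.Poly D) (hP : NPC.Poly P) :
    NPC.Poly (fun a => offs (D a) (P a)) := by
  unfold offs
  refine NPC.Poly.sum (NPC.Poly.map
    (F := fun a (p : PtQ) => (zq (D a) p.1).natAbs + (zq (D a) p.2).natAbs) hP ?_)
  exact NPC.Poly.add
    (NPC.Poly.natAbs (poly_zq (hD.comp (NPC.Poly.fst NPC.Poly.id))
      (NPC.Poly.fst (NPC.Poly.snd NPC.Poly.id))))
    (NPC.Poly.natAbs (poly_zq (hD.comp (NPC.Poly.fst NPC.Poly.id))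
      (NPC.Poly.snd (NPC.Poly.snd NPC.Poly.id))))

theorem poly_toQ (c : ℕ) {P : α → List PtQ} (hP : NPC.Poly P) :
    NPC.Poly (fun a => toQ c (P a)) := by
  unfold toQ
  have hD := poly_den2 hP
  have ho := poly_offs hD hP
  have hl := NPC.Poly.length hP
  refine NPC.Poly.map (F := fun a (p : PtQ) =>
    scP c (P a).length (den2 (P a)) (offs (den2 (P a)) (P a)) p) hP ?_
  unfold scP
  have hf : NPC.Poly (fun x : α × PtQ => x.1) := NPC.Poly.fst NPC.Poly.id
  have hM : NPC.Poly (fun x : α × PtQ => c * (P x.1).length) :=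
    NPC.Poly.mul (NPC.Poly.const c) (hl.comp hf)
  refine NPC.Poly.pair ?_ ?_
  · exact NPC.Poly.mul hM (NPC.Poly.toNat (NPC.Poly.iadd (NPC.Poly.natCast (ho.comp hf))
      (poly_zq (hD.comp hf) (NPC.Poly.fst (NPC.Poly.snd NPC.Poly.id)))))
  · exact NPC.Poly.mul hM (NPC.Poly.toNat (NPC.Poly.iadd (NPC.Poly.natCast (ho.comp hf))
      (poly_zq (hD.comp hf) (NPC.Poly.snd (NPC.Poly.snd NPC.Poly.id)))))

theorem poly_back {P : α → List PtQ} {S : α → List Trip} (hP : NPC.Poly P) (hS : NPC.Poly S) :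
    NPC.Poly (fun a => back (P a) (S a)) := by
  unfold back
  refine NPC.Poly.map (F := fun a (t : Trip) =>
    ((P a).getD t.1 (0, 0), (P a).getD t.2.1 (0, 0), (P a).getD t.2.2 (0, 0))) hS ?_
  have hf : NPC.Poly (fun x : α × Trip => x.1) := NPC.Poly.fst NPC.Poly.id
  have hs : NPC.Poly (fun x : α × Trip => x.2) := NPC.Poly.snd NPC.Poly.id
  have h1 : NPC.Poly (fun x : α × Trip => x.2.1) := NPC.Poly.fst hs
  have h2 : NPC.Poly (fun x : α × Trip => x.2.2) := NPC.Poly.snd hs
  exact NPC.Poly.pair (NPC.Poly.getD (hP.comp hf) h1 (NPC.Poly.const _))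
    (NPC.Poly.pair (NPC.Poly.getD (hP.comp hf) (NPC.Poly.fst h2) (NPC.Poly.const _))
      (NPC.Poly.getD (hP.comp hf) (NPC.Poly.snd h2) (NPC.Poly.const _)))

theorem poly_algQ (c R : ℕ) : NPC.Poly (fun P : List PtQ => algQ c R P) := by
  unfold algQ
  exact poly_back NPC.Poly.id ((poly_solve (poly_sqrt NPC.Poly.id) c R).comp
    (poly_toQ c NPC.Poly.id))

/-- The polynomial-time approximation scheme. -/
theorem main (ε : ℝ) (hε : 0 < ε) : ∃ f : List Bool → List Bool, PolyTime f ∧
    ∀ P : List PtQ, P.Nodup → 3 ∣ P.length →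
      ∃ π : List TrQ, f (bits P) = bits π ∧ (π.flatMap cor).Perm P ∧
        ∀ π' : List TrQ, (π'.flatMap cor).Perm P →
          (π.map perQ).sum ≤ (1 + ε) * (π'.map perQ).sum := by
  obtain ⟨n, hn⟩ := exists_nat_one_div_lt hε
  obtain ⟨c, R, hcR⟩ := algQ_correct (n + 1) (by omega)
  refine ⟨_, polyTime_opt (NPC.Poly.optMap (o := unbits (List PtQ)) (f := fun _ P => algQ c R P)
    poly_unbits ((poly_algQ c R).comp (NPC.Poly.snd NPC.Poly.id))), ?_⟩
  intro P hP h3
  obtain ⟨h1, h2⟩ := hcR P hP h3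
  refine ⟨algQ c R P, by simp [unbits_bits], h1, ?_⟩
  intro π' hπ'
  refine (h2 π' hπ').trans ?_
  have h4 : 0 ≤ (π'.map perQ).sum := by
    apply List.sum_nonneg
    intro x hx
    obtain ⟨t, -, rfl⟩ := List.mem_map.1 hx
    exact perQ_nonneg t
  apply mul_le_mul_of_nonneg_right _ h4
  push_cast
  linarith

end Pool.Agent.TH694.M3
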