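import Pool.Agent.TH694.M3.Fin3

/-!
# From rational points to natural coordinates
-/

set_option autoImplicit false

namespace Pool.Agent.TH694.M3

/-- a rational point -/
abbrev PtQ := ℚ × ℚ

/-- a triple of rational points -/
abbrev TrQ := PtQ × PtQ × PtQ

/-- the three corners -/
def cor (t : TrQ) : List PtQ := [t.1, t.2.1, t.2.2]

/-- Euclidean distance -/
noncomputable def dQ (p q : PtQ) : ℝ :=
  Real.sqrt (((p.1 : ℝ) - (q.1 : ℝ)) ^ 2 + ((p.2 : ℝ) - (q.2 : ℝ)) ^ 2)

/-- perimeter -/
noncomputable def perQ (t : TrQ) : ℝ := dQ t.1 t.2.1 + dQ t.2.1 t.2.2 + dQ t.2.2 t.1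

/-- an integer multiple of a rational number -/
def zq (D : ℕ) (q : ℚ) : ℤ := q.num * ((D / q.den : ℕ) : ℤ)

/-- a common denominator -/
def den2 (P : List PtQ) : ℕ := (P.map (fun p => p.1.den * p.2.den)).prod

/-- the offset -/
def offs (D : ℕ) (P : List PtQ) : ℕ :=
  (P.map (fun p => (zq D p.1).natAbs + (zq D p.2).natAbs)).sum

/-- one scaled point -/
def scP (c m D o : ℕ) (p : PtQ) : ℕ × ℕ :=
  (c * m * ((o : ℤ) + zq D p.1).toNat, c * m * ((o : ℤ) + zq D p.2).toNat)

/-- the scaled points -/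
def toQ (c : ℕ) (P : List PtQ) : List (ℕ × ℕ) :=
  P.map (scP c P.length (den2 P) (offs (den2 P) P))

/-- the triples of points belonging to triples of indices -/
def back (P : List PtQ) (S : List Trip) : List TrQ :=
  S.map (fun t => (P.getD t.1 (0, 0), P.getD t.2.1 (0, 0), P.getD t.2.2 (0, 0)))

/-- the algorithm for rational points -/
noncomputable def algQ (c R : ℕ) (P : List PtQ) : List TrQ := back P (solve c R (toQ c P))

theorem zq_cast {D : ℕ} {q : ℚ} (h : q.den ∣ D) : ((zq D q : ℤ) : ℝ) = D * (q : ℝ) := by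
  unfold zq
  obtain ⟨k, rfl⟩ := h
  rw [Nat.mul_div_cancel_left _ q.den_pos]
  have h1 : ((q : ℚ) : ℝ) = (q.num : ℝ) / (q.den : ℝ) := by
    exact_mod_cast (Rat.num_div_den q).symm
  have h2 : (q.den : ℝ) ≠ 0 := by exact_mod_cast q.den_ne_zero
  rw [h1]
  push_cast
  field_simp

theorem den2_pos (P : List PtQ) : 0 < den2 P := by
  unfold den2
  apply List.prod_pos
  intro x hx
  obtain ⟨p, -, rfl⟩ := List.mem_map.1 hx
  exact Nat.mul_pos p.1.den_pos p.2.den_pos

theorem den_dvd {P : List PtQ} {p : PtQ} (hp : p ∈ P) : p.1.den ∣ den2 P ∧ p.2.den ∣ den2 P := by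
  have h1 : p.1.den * p.2.den ∣ den2 P := List.dvd_prod (List.mem_map.2 ⟨p, hp, rfl⟩)
  exact ⟨(dvd_mul_right _ _).trans h1, (dvd_mul_left _ _).trans h1⟩

theorem le_offs {D : ℕ} {P : List PtQ} {p : PtQ} (hp : p ∈ P) :
    (zq D p.1).natAbs ≤ offs D P ∧ (zq D p.2).natAbs ≤ offs D P := by
  have h1 : (zq D p.1).natAbs + (zq D p.2).natAbs ≤ offs D P :=
    List.single_le_sum (fun _ _ => Nat.zero_le _) _ (List.mem_map.2 ⟨p, hp, rfl⟩)
  omega

theorem scP_cast {c m : ℕ} {P : List PtQ} {p : PtQ} (hp : p ∈ P) :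
    ((scP c m (den2 P) (offs (den2 P) P) p).1 : ℝ) =
      c * m * (offs (den2 P) P + den2 P * (p.1 : ℝ)) ∧
    ((scP c m (den2 P) (offs (den2 P) P) p).2 : ℝ) =
      c * m * (offs (den2 P) P + den2 P * (p.2 : ℝ)) := by
  obtain ⟨d1, d2⟩ := den_dvd hp
  obtain ⟨o1, o2⟩ := le_offs (D := den2 P) hp
  have key : ∀ q : ℚ, q.den ∣ den2 P → (zq (den2 P) q).natAbs ≤ offs (den2 P) P →
      ((((offs (den2 P) P : ℕ) : ℤ) + zq (den2 P) q).toNat : ℝ) =
        offs (den2 P) P + den2 P * (q : ℝ) := by
    intro q hq ho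
    have h1 : 0 ≤ ((offs (den2 P) P : ℕ) : ℤ) + zq (den2 P) q := by omega
    have h2 : ((((offs (den2 P) P : ℕ) : ℤ) + zq (den2 P) q).toNat : ℤ) =
        ((offs (den2 P) P : ℕ) : ℤ) + zq (den2 P) q := Int.toNat_of_nonneg h1
    have h3 : ((((offs (den2 P) P : ℕ) : ℤ) + zq (den2 P) q).toNat : ℝ) =
        ((((offs (den2 P) P : ℕ) : ℤ) + zq (den2 P) q : ℤ) : ℝ) := by
      exact_mod_cast congrArg (fun n : ℤ => (n : ℝ)) h2
    rw [h3, Int.cast_add, zq_cast hq, Int.cast_natCast]
  unfold scP
  constructor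
  · push_cast
    rw [key _ d1 o1]
  · push_cast
    rw [key _ d2 o2]

theorem toQ_length (c : ℕ) (P : List PtQ) : (toQ c P).length = P.length := by
  simp [toQ]

theorem toQ_getD (c : ℕ) (P : List PtQ) (i : ℕ) (hi : i < P.length) :
    (toQ c P).getD i (0, 0) = scP c P.length (den2 P) (offs (den2 P) P) P[i] := by
  unfold toQ
  rw [List.getD_eq_getElem?_getD, List.getElem?_map, List.getElem?_eq_getElem hi]
  rfl

theorem getD_getElem (P : List PtQ) (i : ℕ) (hi : i < P.length) : P.getD i (0, 0) = P[i] := by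
  rw [List.getD_eq_getElem?_getD, List.getElem?_eq_getElem hi]
  rfl

/-- Distances are scaled by a constant factor. -/
theorem norm_toQ (c : ℕ) (P : List PtQ) (i j : ℕ) (hi : i < P.length) (hj : j < P.length) :
    ‖zQ (toQ c P) i - zQ (toQ c P) j‖ = (c * P.length * den2 P : ℝ) * dQ P[i] P[j] := by
  obtain ⟨a1, a2⟩ := scP_cast (c := c) (m := P.length) (List.getElem_mem hi)
  obtain ⟨b1, b2⟩ := scP_cast (c := c) (m := P.length) (List.getElem_mem hj)
  have h1 : ‖zQ (toQ c P) i - zQ (toQ c P) j‖ ^ 2 =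
      ((c * P.length * den2 P : ℝ) * dQ P[i] P[j]) ^ 2 := by
    rw [← Complex.normSq_eq_norm_sq, Complex.normSq_apply]
    unfold zQ
    simp only [Complex.sub_re, Complex.sub_im]
    rw [toQ_getD c P i hi, toQ_getD c P j hj, a1, a2, b1, b2, mul_pow]
    unfold dQ
    rw [Real.sq_sqrt (by positivity)]
    ring
  have h2 : 0 ≤ (c * P.length * den2 P : ℝ) * dQ P[i] P[j] := by
    unfold dQ; positivity
  exact (pow_left_inj₀ (norm_nonneg _) h2 (by norm_num)).1 h1

theorem zq_injective {D : ℕ} (hD : 0 < D) {q q' : ℚ} (h : q.den ∣ D) (h' : q'.den ∣ D)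
    (he : zq D q = zq D q') : q = q' := by
  have h1 := zq_cast h
  have h2 := zq_cast h'
  rw [he, h2] at h1
  have h3 : (D : ℝ) ≠ 0 := by exact_mod_cast hD.ne'
  have h4 := mul_left_cancel₀ h3 h1
  exact_mod_cast h4.symm

/-- The scaled points are well separated. -/
theorem toQ_sep (c : ℕ) {P : List PtQ} (hP : P.Nodup) (i : ℕ) (hi : i < (toQ c P).length) (j : ℕ)
    (hj : j < (toQ c P).length) (hij : i ≠ j) : c * (toQ c P).length ≤ dMax (toQ c P) i j := by
  rw [toQ_length] at hi hj ⊢
  have hne : P[i] ≠ P[j] := fun h => hij ((List.Nodup.getElem_inj_iff hP).1 h)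
  have hD := den2_pos P
  obtain ⟨d1, d2⟩ := den_dvd (List.getElem_mem hi)
  obtain ⟨e1, e2⟩ := den_dvd (List.getElem_mem hj)
  obtain ⟨o1, o2⟩ := le_offs (D := den2 P) (List.getElem_mem hi)
  obtain ⟨q1, q2⟩ := le_offs (D := den2 P) (List.getElem_mem hj)
  have key : ∀ z z' : ℤ, z.natAbs ≤ offs (den2 P) P → z'.natAbs ≤ offs (den2 P) P → z ≠ z' →
      c * P.length ≤ ad (c * P.length * (((offs (den2 P) P : ℕ) : ℤ) + z).toNat)
        (c * P.length * (((offs (den2 P) P : ℕ) : ℤ) + z').toNat) := by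
    intro z z' h1 h2 h3
    unfold ad
    rw [← Nat.mul_sub, ← Nat.mul_sub, ← Nat.mul_add]
    apply Nat.le_mul_of_pos_right
    omega
  unfold dMax
  rw [toQ_getD c P i hi, toQ_getD c P j hj]
  by_cases h1 : P[i].1 = P[j].1
  · have h2 : P[i].2 ≠ P[j].2 := fun h => hne (Prod.ext h1 h)
    refine le_trans ?_ (le_max_right _ _)
    exact key _ _ o2 q2 (fun h => h2 (zq_injective hD d2 e2 h))
  · refine le_trans ?_ (le_max_left _ _)
    exact key _ _ o1 q1 (fun h => h1 (zq_injective hD d1 e1 h))

theorem trips_nodup (m : ℕ) : (trips m).Nodup := by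
  unfold trips
  rw [List.nodup_flatMap]
  refine ⟨fun i _ => ?_, ?_⟩
  · rw [List.nodup_flatMap]
    refine ⟨fun j _ => ?_, ?_⟩
    · refine List.Nodup.map ?_ (List.nodup_range.filter _)
      intro a b h
      simpa using h
    · refine List.nodup_range.imp ?_
      intro a b hab x hx hx'
      obtain ⟨k, -, rfl⟩ := List.mem_map.1 hx
      obtain ⟨k', -, hk⟩ := List.mem_map.1 hx'
      simp only [Prod.mk.injEq] at hk
      exact hab hk.2.1.symm
  · refine List.nodup_range.imp ?_
    intro a b hab x hx hx'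
    rw [List.mem_flatMap] at hx hx'
    obtain ⟨j, -, hx⟩ := hx
    obtain ⟨j', -, hx'⟩ := hx'
    obtain ⟨k, -, rfl⟩ := List.mem_map.1 hx
    obtain ⟨k', -, hk⟩ := List.mem_map.1 hx'
    simp only [Prod.mk.injEq] at hk
    exact hab hk.1.symm

/-- the indices in the solution -/
theorem flat_perm {m : ℕ} {S : List Trip} (h1 : S.Sublist (trips m))
    (h2 : ∀ v < m, ∃! t, t ∈ S ∧ tmem v t) :
    (S.flatMap (fun t => [t.1, t.2.1, t.2.2])).Perm (List.range m) := by
  have hnd : S.Nodup := (trips_nodup m).sublist h1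
  have hmem : ∀ v t, v ∈ [t.1, t.2.1, t.2.2] ↔ tmem v t := by
    intro v t
    simp [tmem]
  rw [List.perm_ext_iff_of_nodup _ List.nodup_range]
  · intro v
    rw [List.mem_flatMap, List.mem_range]
    constructor
    · rintro ⟨t, ht, hv⟩
      have h3 := mem_trips.1 (h1.subset ht)
      rw [hmem] at hv
      unfold tmem at hv
      omega
    · intro hv
      obtain ⟨t, ⟨ht, hvt⟩, -⟩ := h2 v hv
      exact ⟨t, ht, (hmem v t).2 hvt⟩
  · rw [List.nodup_flatMap]
    constructor
    · intro t ht
      have h3 := mem_trips.1 (h1.subset ht)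
      simp only [List.nodup_cons, List.mem_cons, List.not_mem_nil, or_false, not_or,
        not_false_eq_true, List.nodup_nil, and_true]
      omega
    · rw [List.pairwise_iff_getElem]
      intro i j hi hj hij v hv hv'
      rw [hmem] at hv hv'
      have hne : S[i] ≠ S[j] := fun h => hij.ne ((List.Nodup.getElem_inj_iff hnd).1 h)
      have h3 := mem_trips.1 (h1.subset (List.getElem_mem hi))
      have hvm : v < m := by
        unfold tmem at hv
        omega
      obtain ⟨t, -, hu⟩ := h2 v hvm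
      exact hne ((hu _ ⟨List.getElem_mem hi, hv⟩).trans (hu _ ⟨List.getElem_mem hj, hv'⟩).symm)

/-- The output is a partition of the points. -/
theorem back_perm {P : List PtQ} {S : List Trip} (h1 : S.Sublist (trips P.length))
    (h2 : ∀ v < P.length, ∃! t, t ∈ S ∧ tmem v t) : ((back P S).flatMap cor).Perm P := by
  have h3 := (flat_perm h1 h2).map (fun v => P.getD v (0, 0))
  have h4 : (List.range P.length).map (fun v => P.getD v (0, 0)) = P := by
    apply List.ext_getElem
    · simp
    · intro i hi hi'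
      rw [List.getElem_map, List.getElem_range]
      exact getD_getElem P i hi'
  rw [h4, List.map_flatMap] at h3
  have h5 : (back P S).flatMap cor = S.flatMap
      (fun t => [t.1, t.2.1, t.2.2].map (fun v => P.getD v (0, 0))) := by
    unfold back
    rw [List.flatMap_map]
    rfl
  rw [h5]
  exact h3

theorem perQ_nonneg (t : TrQ) : 0 ≤ perQ t := by
  unfold perQ dQ; positivity

/-- the perimeter of the output -/
theorem cost_back (c : ℕ) {P : List PtQ} {S : List Trip} (h1 : S ⊆ trips P.length) :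
    costL (zQ (toQ c P)) S = (c * P.length * den2 P : ℝ) * ((back P S).map perQ).sum := by
  unfold costL back
  rw [List.map_map, ← List.sum_map_mul_left]
  congr 1
  apply List.map_congr_left
  intro t ht
  obtain ⟨h2, h3, h4⟩ := mem_trips.1 (h1 ht)
  have l1 : t.1 < P.length := h4
  have l2 : t.2.1 < P.length := by omega
  have l3 : t.2.2 < P.length := by omega
  simp only [Function.comp]
  unfold per perQ
  rw [norm_toQ c P _ _ l1 l2, norm_toQ c P _ _ l2 l3, norm_toQ c P _ _ l3 l1]
  simp only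
  rw [getD_getElem P _ l1, getD_getElem P _ l2, getD_getElem P _ l3]
  ring

/-- Every partition of the points comes from a partition of the indices. -/
theorem exists_index {P : List PtQ} (hP : P.Nodup) (hpos : 0 < P.length) (c : ℕ)
    {π : List TrQ} (hπ : (π.flatMap cor).Perm P) :
    ∃ σ : Multiset (Fin (toQ c P).length × Fin (toQ c P).length × Fin (toQ c P).length),
      IsPart σ ∧ cost (fun v : Fin (toQ c P).length => zQ (toQ c P) v) σ =
        (c * P.length * den2 P : ℝ) * (π.map perQ).sum := by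
  classical
  set m := (toQ c P).length with hm
  have hmP : m = P.length := toQ_length c P
  set g : PtQ → Fin m := fun p => if h : P.idxOf p < m then ⟨P.idxOf p, h⟩
    else ⟨0, by omega⟩ with hg
  have hgP : ∀ p ∈ P, ∀ h : (g p : ℕ) < P.length, P[(g p : ℕ)] = p := by
    intro p hp h
    have h1 : P.idxOf p < m := by rw [hmP]; exact List.idxOf_lt_length_iff.2 hp
    have h2 : (g p : ℕ) = P.idxOf p := by rw [hg]; simp only [h1, dif_pos]
    simp only [h2]
    exact List.getElem_idxOf _
  have hgi : ∀ v : Fin m, g (P[(v : ℕ)]'(by have := v.2; omega)) = v := by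
    intro v
    have hv : (v : ℕ) < P.length := by have := v.2; omega
    have h1 : P.idxOf P[(v : ℕ)] = v := List.Nodup.idxOf_getElem hP _ hv
    apply Fin.ext
    rw [hg]
    simp only [h1, v.2, dif_pos]
  set G : TrQ → Fin m × Fin m × Fin m := fun t => (g t.1, g t.2.1, g t.2.2) with hG
  have hmem : ∀ t ∈ π, t.1 ∈ P ∧ t.2.1 ∈ P ∧ t.2.2 ∈ P := by
    intro t ht
    have : ∀ p ∈ cor t, p ∈ P := fun p hp => hπ.subset (List.mem_flatMap.2 ⟨t, ht, hp⟩)
    exact ⟨this _ (by simp [cor]), this _ (by simp [cor]), this _ (by simp [cor])⟩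
  refine ⟨↑(π.map G), ?_, ?_⟩
  · unfold IsPart
    have h1 : ∀ l : List TrQ, supp (↑(l.map G) : Multiset (Fin m × Fin m × Fin m)) =
        (↑((l.flatMap cor).map g) : Multiset (Fin m)) := by
      intro l
      induction l with
      | nil => rfl
      | cons t l ih =>
        rw [List.map_cons, ← Multiset.cons_coe, supp_cons, ih, List.flatMap_cons, List.map_append,
          ← Multiset.coe_add]
        congr 1
    rw [h1, Multiset.coe_eq_coe.2 (hπ.map g)]
    have h2 : P.map g = List.finRange m := by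
      apply List.ext_getElem
      · simp [hmP]
      · intro i hi hi'
        rw [List.getElem_map, List.getElem_finRange]
        have := hgi ⟨i, by simpa using hi'⟩
        simpa using this
    rw [h2]
    rfl
  · unfold cost
    rw [Multiset.map_coe, Multiset.sum_coe, List.map_map, ← List.sum_map_mul_left]
    congr 1
    apply List.map_congr_left
    intro t ht
    obtain ⟨m1, m2, m3⟩ := hmem t ht
    have l1 : (g t.1 : ℕ) < P.length := by have := (g t.1).2; omega
    have l2 : (g t.2.1 : ℕ) < P.length := by have := (g t.2.1).2; omega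
    have l3 : (g t.2.2 : ℕ) < P.length := by have := (g t.2.2).2; omega
    simp only [Function.comp]
    unfold per perQ
    simp only [hG]
    rw [norm_toQ c P _ _ l1 l2, norm_toQ c P _ _ l2 l3, norm_toQ c P _ _ l3 l1]
    rw [hgP _ m1 l1, hgP _ m2 l2, hgP _ m3 l3]
    ring

/-- Correctness of the algorithm for rational points. -/
theorem algQ_correct (E : ℕ) (hE : 0 < E) : ∃ c R : ℕ, ∀ P : List PtQ, P.Nodup → 3 ∣ P.length →
    ((algQ c R P).flatMap cor).Perm P ∧ ∀ π : List TrQ, (π.flatMap cor).Perm P →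
      ((algQ c R P).map perQ).sum ≤ (1 + 1 / E) * (π.map perQ).sum := by
  obtain ⟨c, R, hc, hcR⟩ := solve_correct E hE
  refine ⟨c, R, fun P hP h3 => ?_⟩
  have hlen := toQ_length c P
  obtain ⟨h1, h2, h4⟩ := hcR (toQ c P) (by rw [hlen]; exact h3) (toQ_sep c hP)
  rw [hlen] at h1 h2
  refine ⟨back_perm h1 h2, ?_⟩
  intro π hπ
  have hE0 : (0 : ℝ) < E := by exact_mod_cast hE
  rcases Nat.eq_zero_or_pos P.length with hm | hm
  · have hP0 : P = [] := List.length_eq_zero_iff.1 hm
    have h5 : algQ c R P = [] := by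
      unfold algQ back
      have h6 := h1.subset
      have h7 : trips P.length = [] := by rw [hm]; rfl
      rw [h7] at h1
      rw [List.sublist_nil.1 h1]
      rfl
    rw [h5]
    simp only [List.map_nil, List.sum_nil]
    have h6 : 0 ≤ (π.map perQ).sum := by
      apply List.sum_nonneg
      intro x hx
      obtain ⟨t, -, rfl⟩ := List.mem_map.1 hx
      exact perQ_nonneg t
    positivity
  · obtain ⟨σ, hσ, hσc⟩ := exists_index hP hm c hπ
    have h5 := h4 σ hσ
    rw [hσc, cost_back c h1.subset] at h5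
    have h6 : (0 : ℝ) < c * P.length * den2 P := by
      have := den2_pos P
      positivity
    have h7 : (c * P.length * den2 P : ℝ) * ((back P (solve c R (toQ c P))).map perQ).sum ≤
        (c * P.length * den2 P : ℝ) * ((1 + 1 / E) * (π.map perQ).sum) := by
      linarith
    exact le_of_mul_le_mul_left h7 h6

end Pool.Agent.TH694.M3
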