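import Pool.Agent.TH694.M3.Dir4
import Pool.Agent.TH558.J609

/-!
# The structure theorem
-/

set_option autoImplicit false

namespace Pool.Agent.TH694.M3

variable {V : Type}

theorem IsPart.nodup [Fintype V] {π : Multiset (V × V × V)} (h : IsPart π) : π.Nodup := by
  rw [Multiset.nodup_iff_ne_cons_cons]
  intro t π₀ hπ
  have h1 : (supp π).Nodup := by
    rw [h]; exact Finset.univ.nodup
  rw [hπ, supp_cons, supp_cons] at h1
  have h2 : t.1 ∈ pts t := mem_pts.2 (by simp)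
  rw [Multiset.nodup_add] at h1
  exact Multiset.disjoint_left.1 h1.2.2 h2 (Multiset.mem_add.2 (Or.inl h2))

open Classical in
/-- bad triples are counted by the averaging lemma -/
theorem badS_sub {D : ℕ → Bool} (hD : Adm D) (x₀ y₀ : V → ℤ) (a b : ℤ) (e k : ℕ)
    {I : Finset (V × V × V)}
    (hJ : ∀ t ∈ I, inC D (fun v => x₀ v + a) (fun v => y₀ v + b) (2 * k) t) :
    badS D (fun v => x₀ v + a) (fun v => y₀ v + b) e I ⊆
      I.filter (fun t => ∃ p : ℤ, loX x₀ t < p ∧ p ≤ hiX x₀ t ∧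
          ∃ i < k, lvl a p i ∧ e * per (zz x₀ y₀) t < 2 ^ i) := by
  intro t ht
  unfold badS at ht
  rw [Finset.mem_filter] at ht ⊢
  obtain ⟨htI, j, hj1, hjD, hb⟩ := ht
  refine ⟨htI, ?_⟩
  have h1 := lev_spec (hJ t htI)
  rw [hj1] at h1
  have h2 := not_inC_of_lt (D := D) (x := fun v => x₀ v + a) (y := fun v => y₀ v + b) (t := t)
    (j := j) (by omega)
  have h3 := crosses_line hjD h1.1 h2
  rw [loX_shift, hiX_shift] at h3
  refine ⟨lineP D j (cell D (fun v => x₀ v + a) (fun v => y₀ v + b) (j + 1) t.1) - a,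
    by linarith [h3.1], by linarith [h3.2], j / 2, by omega, ?_, ?_⟩
  · have := lineP_lvl D j (cell D (fun v => x₀ v + a) (fun v => y₀ v + b) (j + 1) t.1) a
    rwa [hD.split hjD] at this
  · rwa [per_shift] at hb

/-- without splitting lines of level `k` triples are in cells of level `2 k` -/
theorem inC_top (x₀ y₀ : V → ℤ) (a b k : ℕ) (t : V × V × V)
    (hx : ∀ p : ℤ, loX x₀ t < p → p ≤ hiX x₀ t → ¬ (2 ^ k : ℤ) ∣ p + a)
    (hy : ∀ p : ℤ, loX y₀ t < p → p ≤ hiX y₀ t → ¬ (2 ^ k : ℤ) ∣ p + b) :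
    inC D0 (fun v => x₀ v + a) (fun v => y₀ v + b) (2 * k) t := by
  have key : ∀ (x₀ : V → ℤ) (a : ℕ), (∀ p : ℤ, loX x₀ t < p → p ≤ hiX x₀ t →
      ¬ (2 ^ k : ℤ) ∣ p + a) → ∀ v ∈ pts t, ∀ w ∈ pts t,
      (x₀ v + a) / 2 ^ k ≤ (x₀ w + a) / 2 ^ k := by
    intro x₀ a h v hv w hw
    by_contra hcon
    push Not at hcon
    have h0 : (0 : ℤ) < 2 ^ k := by positivity
    apply h (2 ^ k * ((x₀ v + a) / 2 ^ k) - a)
    · have h1 := (Int.ediv_lt_iff_lt_mul h0).1 hcon
      have h2 := loX_le (x := x₀) hw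
      linarith
    · have h1 := Int.mul_ediv_self_le (x := x₀ v + a) h0.ne'
      have h2 := le_hiX (x := x₀) hv
      linarith
    · rw [sub_add_cancel]
      exact dvd_mul_right _ _
  obtain ⟨e1, e2⟩ := al_D0 (2 * k)
  have e3 : (2 * k + 1) / 2 = k := by omega
  have e4 : 2 * k / 2 = k := by omega
  rw [e3] at e1
  rw [e4] at e2
  rw [inC_iff]
  intro v hv
  have h1 : t.1 ∈ pts t := mem_pts.2 (by simp)
  unfold cell
  rw [e1, e2]
  exact Prod.ext (le_antisymm (key x₀ a hx v hv t.1 h1) (key x₀ a hx t.1 h1 v hv))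
    (le_antisymm (key y₀ b hy v hv t.1 h1) (key y₀ b hy t.1 h1 v hv))

open Classical in
/-- The structure theorem: after a suitable shift there is a nearly optimal partition into triples
which crosses every cell of every dyadic grid only boundedly many times. -/
theorem structure_thm (E : ℕ) (hE : 0 < E) : ∃ R : ℕ, ∀ (V : Type) [Fintype V] (x₀ y₀ : V → ℤ)
    (π : Multiset (V × V × V)), IsOpt (zz x₀ y₀) π → 0 < cost (zz x₀ y₀) π →
    ∀ k : ℕ, cost (zz x₀ y₀) π < 2 ^ k → ∃ a b : ℕ, a < 2 ^ k ∧ b < 2 ^ k ∧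
    ∃ π' : Multiset (V × V × V), IsPart π' ∧
      cost (zz x₀ y₀) π' ≤ (1 + 1 / E) * cost (zz x₀ y₀) π ∧
      (∀ t ∈ π', inC D0 (fun v => x₀ v + a) (fun v => y₀ v + b) (2 * k) t) ∧
      ∀ i κ, π'.countP (crossC D0 (fun v => x₀ v + a) (fun v => y₀ v + b) i κ) ≤ R := by
  set e := 144 * E with he
  have he0 : 0 < e := by omega
  obtain ⟨K, hK⟩ := Pool.Agent.TH558.J609.exchange_count (3 * e)
  refine ⟨K + 2 * (3 * K + 2 * (2 * 2 ^ (e + 1))), ?_⟩
  intro V _ x₀ y₀ π hopt hpos k hk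
  have hnd := hopt.1.nodup
  set I : Finset (V × V × V) := ⟨π, hnd⟩ with hI
  have hIval : I.val = π := rfl
  have hsumI : ∑ t ∈ I, per (zz x₀ y₀) t = cost (zz x₀ y₀) π := rfl
  obtain ⟨a, ha, hatop, hasum⟩ := averaging I (loX x₀) (hiX x₀) (fun t => y₀ t.1)
    (per (zz x₀ y₀)) (fun t _ => loX_le_hiX x₀ t) (fun t _ => ext_le_per x₀ y₀ t) k e e he0
    (by rw [hsumI]; exact hpos) (by rw [hsumI]; exact hk)
    (I.biUnion fun t => Finset.Ioc (loX x₀ t) (hiX x₀ t))
  obtain ⟨b, hb, hbtop, hbsum⟩ := averaging I (loX y₀) (hiX y₀) (fun t => x₀ t.1)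
    (per (zz x₀ y₀)) (fun t _ => loX_le_hiX y₀ t)
    (fun t _ => by rw [← per_swap]; exact ext_le_per y₀ x₀ t) k e e he0
    (by rw [hsumI]; exact hpos) (by rw [hsumI]; exact hk)
    (I.biUnion fun t => Finset.Ioc (loX y₀ t) (hiX y₀ t))
  refine ⟨a, b, ha, hb, ?_⟩
  set x : V → ℤ := fun v => x₀ v + a with hx
  set y : V → ℤ := fun v => y₀ v + b with hy
  have hJ : ∀ t ∈ I, inC D0 x y (2 * k) t := fun t ht =>
    inC_top x₀ y₀ a b k t (hatop t ht) (hbtop t ht)
  have hJ' : ∀ t ∈ I, inC (fl D0) y x (2 * k) t := fun t ht => (inC_fl D0 x y _ t).2 (hJ t ht)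
  have hA : Adm D0 := Or.inl rfl
  have hA' : Adm (fl D0) := hA.flip
  set B := badS D0 x y e I with hB
  set B' := badS (fl D0) y x e I with hB'
  have hperx : ∀ t, per (zz x y) t = per (zz x₀ y₀) t := fun t => per_shift x₀ y₀ a b t
  have hpery : ∀ t, per (zz y x) t = per (zz x₀ y₀) t := fun t => by rw [per_swap, hperx]
  have hcostx : ∀ σ, cost (zz x y) σ = cost (zz x₀ y₀) σ := fun σ => cost_shift x₀ y₀ a b σ
  have hcosty : ∀ σ, cost (zz y x) σ = cost (zz x₀ y₀) σ := fun σ => by rw [cost_swap, hcostx]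
  have hdisj : Disjoint B B' := by
    rw [Finset.disjoint_left]
    intro t ht ht'
    rw [hB, badS, Finset.mem_filter] at ht
    rw [hB', badS, Finset.mem_filter] at ht'
    obtain ⟨-, j, h1, h2, -⟩ := ht
    obtain ⟨-, j', h1', h2', -⟩ := ht'
    rw [lev_fl, h1] at h1'
    have : j = j' := by omega
    subst this
    simp [fl, h2] at h2'
  have hBI : B ⊆ I := Finset.filter_subset _ _
  have hBI' : B' ⊆ I := Finset.filter_subset _ _
  set Gd := I \ (B ∪ B') with hGd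
  have hsplit : ∀ {M : Type} [AddCommMonoid M] (f : V × V × V → M),
      ∑ t ∈ I, f t = ∑ t ∈ Gd, f t + ∑ t ∈ B, f t + ∑ t ∈ B', f t := by
    intro M _ f
    rw [← Finset.sum_sdiff (Finset.union_subset hBI hBI'), Finset.sum_union hdisj, add_assoc]
  set π' : Multiset (V × V × V) := Gd.val + reg D0 x y e e I + reg (fl D0) y x e e I with hπ'
  have hlong : ∀ (i : ℕ) (κ : ℤ × ℤ), (I.filter (fun t => (∃ v ∈ pts t, cell D0 x y i v = κ) ∧
      (2 : ℝ) ^ (i / 2) ≤ e * per (zz x₀ y₀) t)).card ≤ K := by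
    intro i κ
    by_cases hex : ∃ v₀ : V, cell D0 x y i v₀ = κ
    · obtain ⟨v₀, hv₀⟩ := hex
      have h1 := hK V (zz x₀ y₀) π hopt (zz x₀ y₀ v₀) (3 * 2 ^ (i / 2)) (by positivity)
      refine le_trans ?_ h1
      change Multiset.card (Multiset.filter _ π) ≤ _
      apply Multiset.card_le_card
      apply Multiset.monotone_filter_right
      rintro t ⟨⟨v, hv, hvκ⟩, hlen⟩
      refine ⟨⟨v, hv, ?_⟩, ?_⟩
      · have h2 := cell_abs D0 x y (hvκ.trans hv₀.symm)
        obtain ⟨e1, e2⟩ := al_D0 i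
        rw [e1, e2] at h2
        have h3 := norm_zz_shift x₀ y₀ a b v v₀
        have h4 := norm_zz_le x y v v₀
        have h5 : |(x v : ℝ) - x v₀| < 2 ^ ((i + 1) / 2) := by exact_mod_cast h2.1
        have h6 : |(y v : ℝ) - y v₀| < 2 ^ (i / 2) := by exact_mod_cast h2.2
        have h7 : (2 : ℝ) ^ ((i + 1) / 2) ≤ 2 * 2 ^ (i / 2) := by
          rw [mul_comm, ← pow_succ]
          exact pow_le_pow_right₀ (by norm_num) (by omega)
        have h8 : ‖zz x₀ y₀ v - zz x₀ y₀ v₀‖ = ‖zz x y v - zz x y v₀‖ := h3.symm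
        rw [h8]
        linarith
      · push_cast
        linarith
    · rw [Finset.filter_eq_empty_iff.2]
      · simp
      · rintro t _ ⟨⟨v, _, hvκ⟩, -⟩
        exact hex ⟨v, hvκ⟩
  have he1 : (1 : ℝ) ≤ e := by exact_mod_cast he0
  have hLG : ∀ (i : ℕ) (κ : ℤ × ℤ), (I.filter (fun t => (∃ v ∈ pts t, cell D0 x y i v = κ) ∧
      (2 : ℝ) ^ (i / 2) ≤ per (zz x y) t)).card ≤ K := by
    intro i κ
    refine (Finset.card_le_card ?_).trans (hlong i κ)
    intro t ht
    rw [Finset.mem_filter] at ht ⊢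
    refine ⟨ht.1, ht.2.1, ht.2.2.trans ?_⟩
    rw [hperx]
    have := per_nonneg (zz x₀ y₀) t
    nlinarith
  refine ⟨π', ?_, ?_, ?_, ?_⟩
  · -- partition
    unfold IsPart
    rw [← hopt.1, hπ', supp_add, supp_add, supp_reg, supp_reg]
    exact (hsplit pts).symm
  · -- cost
    rw [hπ', cost_add, cost_add]
    have c0 := hsplit (per (zz x₀ y₀))
    have c1 := cost_reg hA x₀ y₀ a b e e k hJ
      (I.biUnion fun t => Finset.Ioc (loX x₀ t) (hiX x₀ t))
      (fun t ht p h1 h2 => Finset.mem_biUnion.2 ⟨t, ht, Finset.mem_Ioc.2 ⟨h1, h2⟩⟩)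
    have c2 := cost_reg hA' y₀ x₀ b a e e k hJ'
      (I.biUnion fun t => Finset.Ioc (loX y₀ t) (hiX y₀ t))
      (fun t ht p h1 h2 => Finset.mem_biUnion.2 ⟨t, ht, Finset.mem_Ioc.2 ⟨h1, h2⟩⟩)
    have hB1 : ∑ t ∈ B, per (zz x₀ y₀) t ≤ ∑ t ∈ I.filter (fun t => ∃ p : ℤ, loX x₀ t < p ∧
        p ≤ hiX x₀ t ∧ ∃ i < k, lvl a p i ∧ e * per (zz x₀ y₀) t < 2 ^ i), per (zz x₀ y₀) t :=
      Finset.sum_le_sum_of_subset_of_nonneg (badS_sub hA x₀ y₀ a b e k hJ)
        (fun _ _ _ => per_nonneg _ _)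
    have hB2 : ∑ t ∈ B', per (zz x₀ y₀) t ≤ ∑ t ∈ I.filter (fun t => ∃ p : ℤ, loX y₀ t < p ∧
        p ≤ hiX y₀ t ∧ ∃ i < k, lvl b p i ∧ e * per (zz x₀ y₀) t < 2 ^ i), per (zz x₀ y₀) t := by
      refine Finset.sum_le_sum_of_subset_of_nonneg ?_ (fun _ _ _ => per_nonneg _ _)
      refine (badS_sub hA' y₀ x₀ b a e k hJ').trans ?_
      intro t ht
      rw [Finset.mem_filter] at ht ⊢
      rw [per_swap] at ht
      exact ht
    have hg1 : (0 : ℝ) ≤ ∑ p ∈ I.biUnion fun t => Finset.Ioc (loX x₀ t) (hiX x₀ t),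
        ((gapSum (fun g => ∃ i < k, lvl a p i ∧ g * 2 ^ e < 2 ^ i)
          (ylist I (loX x₀) (hiX x₀) (fun t => y₀ t.1) p) : ℤ) : ℝ) := by
      apply Finset.sum_nonneg
      intro p _
      exact_mod_cast gapSum_nonneg _ _ (by unfold ylist; exact Multiset.pairwise_sort _ _)
    have hg2 : (0 : ℝ) ≤ ∑ p ∈ I.biUnion fun t => Finset.Ioc (loX y₀ t) (hiX y₀ t),
        ((gapSum (fun g => ∃ i < k, lvl b p i ∧ g * 2 ^ e < 2 ^ i)
          (ylist I (loX y₀) (hiX y₀) (fun t => x₀ t.1) p) : ℤ) : ℝ) := by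
      apply Finset.sum_nonneg
      intro p _
      exact_mod_cast gapSum_nonneg _ _ (by unfold ylist; exact Multiset.pairwise_sort _ _)
    have c1' : cost (zz x₀ y₀) (reg D0 x y e e I) ≤ 6 * ∑ p ∈ I.biUnion fun t =>
        Finset.Ioc (loX x₀ t) (hiX x₀ t),
        ((gapSum (fun g => ∃ i < k, lvl a p i ∧ g * 2 ^ e < 2 ^ i)
          (ylist I (loX x₀) (hiX x₀) (fun t => y₀ t.1) p) : ℤ) : ℝ) +
        36 * ∑ t ∈ B, per (zz x₀ y₀) t := by
      rw [← hcostx]
      refine c1.trans (le_of_eq ?_)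
      congr 2
      exact Finset.sum_congr rfl fun t _ => hperx t
    have c2' : cost (zz x₀ y₀) (reg (fl D0) y x e e I) ≤ 6 * ∑ p ∈ I.biUnion fun t =>
        Finset.Ioc (loX y₀ t) (hiX y₀ t),
        ((gapSum (fun g => ∃ i < k, lvl b p i ∧ g * 2 ^ e < 2 ^ i)
          (ylist I (loX y₀) (hiX y₀) (fun t => x₀ t.1) p) : ℤ) : ℝ) +
        36 * ∑ t ∈ B', per (zz x₀ y₀) t := by
      rw [← hcosty]
      refine c2.trans (le_of_eq ?_)
      congr 2
      exact Finset.sum_congr rfl fun t _ => hpery t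
    have hGcost : cost (zz x₀ y₀) Gd.val = ∑ t ∈ Gd, per (zz x₀ y₀) t := rfl
    rw [hGcost]
    rw [hsumI] at c0 hasum hbsum
    have hBn : 0 ≤ ∑ t ∈ B, per (zz x₀ y₀) t := Finset.sum_nonneg fun _ _ => per_nonneg _ _
    have hBn' : 0 ≤ ∑ t ∈ B', per (zz x₀ y₀) t := Finset.sum_nonneg fun _ _ => per_nonneg _ _
    have hEE : (1 / (e : ℝ) + 1 / 2 ^ e) ≤ 1 / (72 * E) := by
      have h1 : (e : ℝ) ≤ 2 ^ e := by exact_mod_cast Nat.lt_two_pow_self.le
      have h2 : (1 : ℝ) / 2 ^ e ≤ 1 / e := one_div_le_one_div_of_le (by linarith) h1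
      have h3 : (e : ℝ) = 144 * E := by rw [he]; push_cast; ring
      have h4 : (0 : ℝ) < E := by exact_mod_cast hE
      calc 1 / (e : ℝ) + 1 / 2 ^ e ≤ 1 / e + 1 / e := by linarith
        _ = 1 / (72 * E) := by
          rw [h3]
          field_simp
          norm_num
    have h5 : (1 / (e : ℝ) + 1 / 2 ^ e) * cost (zz x₀ y₀) π ≤
        1 / (72 * E) * cost (zz x₀ y₀) π := mul_le_mul_of_nonneg_right hEE hpos.le
    have h6 : 72 * (1 / (72 * (E : ℝ)) * cost (zz x₀ y₀) π) = 1 / E * cost (zz x₀ y₀) π := by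
      have h4 : (0 : ℝ) < E := by exact_mod_cast hE
      field_simp
    linarith
  · -- top level
    intro t ht
    rw [hπ', Multiset.mem_add, Multiset.mem_add] at ht
    have key : ∀ (D : ℕ → Bool) (x y : V → ℤ), (∀ t ∈ I, inC D x y (2 * k) t) →
        t ∈ reg D x y e e I → inC D x y (2 * k) t := by
      intro D x y hJ ht
      unfold reg at ht
      rw [Multiset.mem_sum] at ht
      obtain ⟨ρ, hρ, ht⟩ := ht
      rw [Multiset.mem_coe] at ht
      have hcellL : ∀ v ∈ runL D x y e e I ρ, cell D x y ρ.1 v = ρ.2.1 ∧ ρ.1 ≤ 2 * k := by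
        intro v hv
        unfold runL at hv
        rw [mem_srt, mem_supp] at hv
        obtain ⟨t, ht, hvt⟩ := hv
        obtain ⟨j, h1, h2, h3, h4, h5, h6, h7, h8⟩ := run_spec hJ ht
        refine ⟨?_, by omega⟩
        rw [h1, (inC_iff D x y _ t).1 h4 v hvt, h6]
      obtain ⟨h1, h2, h3⟩ := chunk3_mem _ t ht
      have k1 := hcellL _ h1
      have k2 := hcellL _ h2
      have k3 := hcellL _ h3
      exact inC_mono D x y k1.2 ⟨k1.1.trans k2.1.symm, k1.1.trans k3.1.symm⟩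
    rcases ht with (ht | ht) | ht
    · exact hJ t (Finset.mem_sdiff.1 ht).1
    · exact key D0 x y hJ ht
    · exact (inC_fl D0 x y _ t).1 (key (fl D0) y x hJ' ht)
  · -- crossings
    intro i κ
    rw [hπ', Multiset.countP_add, Multiset.countP_add]
    have h1 : Gd.val.countP (crossC D0 x y i κ) ≤ K := by
      rw [Multiset.countP_eq_card_filter]
      refine le_trans ?_ (hlong i κ)
      change (Gd.filter (crossC D0 x y i κ)).card ≤ _
      apply Finset.card_le_card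
      intro t ht
      rw [Finset.mem_filter] at ht ⊢
      obtain ⟨htG, ⟨v, hv, hvκ⟩, w, hw, hwκ⟩ := ht
      rw [hGd, Finset.mem_sdiff, Finset.mem_union, not_or] at htG
      obtain ⟨htI, htB, htB'⟩ := htG
      refine ⟨htI, ⟨v, hv, hvκ⟩, ?_⟩
      have hlev : i < lev D0 x y t := by
        by_contra hcon
        push Not at hcon
        have h2 := inC_mono D0 x y hcon (lev_spec (hJ t htI)).1
        rw [inC_iff] at h2
        apply hwκ
        rw [← hvκ, h2 w hw, h2 v hv]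
      obtain ⟨j, hj⟩ : ∃ j, lev D0 x y t = j + 1 := ⟨lev D0 x y t - 1, by omega⟩
      have hpow : (2 : ℝ) ^ (i / 2) ≤ 2 ^ (j / 2) := pow_le_pow_right₀ (by norm_num) (by omega)
      refine hpow.trans ?_
      by_contra hcon
      push Not at hcon
      rcases Bool.eq_false_or_eq_true (D0 j) with h3 | h3
      · apply htB
        rw [hB, badS, Finset.mem_filter]
        exact ⟨htI, j, hj, h3, by rw [hperx]; exact hcon⟩
      · apply htB'
        rw [hB', badS, Finset.mem_filter]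
        exact ⟨htI, j, by rw [lev_fl]; exact hj, by simp [fl, h3], by rw [hpery]; exact hcon⟩
    have h2 := cross_reg hA x y e e (2 * k) hJ i κ K (by convert hLG i κ)
    have h3 := cross_reg hA' y x e e (2 * k) hJ' i κ.swap K
      (by
        refine le_trans (le_of_eq ?_) (hLG i κ)
        congr 1
        ext t
        simp only [cell_fl, Prod.swap_inj, per_swap])
    have h4 : (reg (fl D0) y x e e I).countP (crossC (fl D0) y x i κ.swap) =
        (reg (fl D0) y x e e I).countP (crossC D0 x y i κ) :=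
      Multiset.countP_congr rfl fun t _ => propext (crossC_fl D0 x y i κ t)
    rw [h4] at h3
    omega

end Pool.Agent.TH694.M3
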